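import Pool.Agent.Y230.RS.Charts

set_option autoImplicit false
set_option linter.unusedSectionVars false

/-! # Orders of poles of Denef's formula and of the topological zeta function -/

namespace Pool.Agent.Y230.RS

open Polynomial

/-- the order of the pole of `R` at `T0` is at most `M` -/
def PoleLE (R : RatFunc ℂ) (T0 : ℂ) (M : ℕ) : Prop :=
  ∃ Q P : Polynomial ℂ, Q.eval T0 ≠ 0 ∧
    algebraMap (Polynomial ℂ) (RatFunc ℂ) ((X - C T0) ^ M * Q) * R =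
      algebraMap (Polynomial ℂ) (RatFunc ℂ) P

theorem PoleLE.add {R1 R2 : RatFunc ℂ} {T0 : ℂ} {M : ℕ} (h1 : PoleLE R1 T0 M)
    (h2 : PoleLE R2 T0 M) : PoleLE (R1 + R2) T0 M := by
  obtain ⟨Q1, P1, hQ1, h1⟩ := h1
  obtain ⟨Q2, P2, hQ2, h2⟩ := h2
  refine ⟨Q1 * Q2, P1 * Q2 + P2 * Q1, by rw [eval_mul]; exact mul_ne_zero hQ1 hQ2, ?_⟩
  rw [map_add, map_mul, map_mul, map_mul, map_mul, ← h1, ← h2, map_mul, map_mul]
  ring

theorem PoleLE.mul {R1 R2 : RatFunc ℂ} {T0 : ℂ} {M1 M2 : ℕ} (h1 : PoleLE R1 T0 M1)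
    (h2 : PoleLE R2 T0 M2) : PoleLE (R1 * R2) T0 (M1 + M2) := by
  obtain ⟨Q1, P1, hQ1, h1⟩ := h1
  obtain ⟨Q2, P2, hQ2, h2⟩ := h2
  refine ⟨Q1 * Q2, P1 * P2, by rw [eval_mul]; exact mul_ne_zero hQ1 hQ2, ?_⟩
  rw [map_mul _ P1 P2, ← h1, ← h2, pow_add]
  simp only [map_mul]
  ring

theorem poleLE_poly (P : Polynomial ℂ) (T0 : ℂ) (M : ℕ) :
    PoleLE (algebraMap (Polynomial ℂ) (RatFunc ℂ) P) T0 M :=
  ⟨1, (X - C T0) ^ M * P, by simp, by rw [mul_one, map_mul]⟩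

theorem PoleLE.mono {R : RatFunc ℂ} {T0 : ℂ} {M N : ℕ} (h : PoleLE R T0 M) (hMN : M ≤ N) :
    PoleLE R T0 N := by
  obtain ⟨Q, P, hQ, h⟩ := h
  refine ⟨Q, (X - C T0) ^ (N - M) * P, hQ, ?_⟩
  rw [map_mul _ _ P, ← h, ← mul_assoc, ← map_mul, ← mul_assoc, ← pow_add, Nat.sub_add_cancel hMN]

theorem poleLE_sum {K : Type} (t : Finset K) (R : K → RatFunc ℂ) (T0 : ℂ) (M : ℕ)
    (h : ∀ k ∈ t, PoleLE (R k) T0 M) : PoleLE (∑ k ∈ t, R k) T0 M := by
  classical
  induction t using Finset.induction_on with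
  | empty =>
    have := poleLE_poly 0 T0 M
    rwa [map_zero] at this
  | insert k t hk ih =>
    rw [Finset.sum_insert hk]
    exact (h k (Finset.mem_insert_self _ _)).add
      (ih fun j hj => h j (Finset.mem_insert_of_mem hj))

theorem poleLE_prod {K : Type} (t : Finset K) (R : K → RatFunc ℂ) (T0 : ℂ) (M : K → ℕ)
    (h : ∀ k ∈ t, PoleLE (R k) T0 (M k)) : PoleLE (∏ k ∈ t, R k) T0 (∑ k ∈ t, M k) := by
  classical
  induction t using Finset.induction_on with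
  | empty =>
    have := poleLE_poly 1 T0 0
    rwa [map_one] at this
  | insert k t hk ih =>
    rw [Finset.prod_insert hk, Finset.sum_insert hk]
    exact (h k (Finset.mem_insert_self _ _)).mul
      (ih fun j hj => h j (Finset.mem_insert_of_mem hj))

/-- the inverse of a polynomial -/
theorem poleLE_inv (D Q : Polynomial ℂ) (T0 : ℂ) (M : ℕ) (hD : D = (X - C T0) ^ M * Q)
    (hQ : Q.eval T0 ≠ 0) : PoleLE (algebraMap (Polynomial ℂ) (RatFunc ℂ) D)⁻¹ T0 M := by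
  refine ⟨Q, 1, hQ, ?_⟩
  rw [← hD, map_one]
  refine mul_inv_cancel₀ ?_
  rw [Ne, map_eq_zero_iff _ (IsFractionRing.injective (Polynomial ℂ) (RatFunc ℂ))]
  rw [hD]
  refine mul_ne_zero (pow_ne_zero _ (X_sub_C_ne_zero T0)) ?_
  rintro rfl
  simp at hQ

theorem PoleLE.rootMultiplicity_le {R : RatFunc ℂ} {T0 : ℂ} {M : ℕ} (h : PoleLE R T0 M) :
    R.denom.rootMultiplicity T0 ≤ M := by
  obtain ⟨Q, P, hQ, h⟩ := h
  have hQ0 : Q ≠ 0 := by rintro rfl; simp at hQ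
  have hD0 : (X - C T0) ^ M * Q ≠ 0 := mul_ne_zero (pow_ne_zero _ (X_sub_C_ne_zero T0)) hQ0
  have hden : algebraMap (Polynomial ℂ) (RatFunc ℂ) R.denom ≠ 0 := by
    rw [Ne, map_eq_zero_iff _ (IsFractionRing.injective (Polynomial ℂ) (RatFunc ℂ))]
    exact R.denom_ne_zero
  have h1 : ((X - C T0) ^ M * Q) * R.num = P * R.denom := by
    apply IsFractionRing.injective (Polynomial ℂ) (RatFunc ℂ)
    rw [map_mul _ _ R.num, map_mul _ P, ← h]
    have hR := RatFunc.num_div_denom R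
    rw [div_eq_iff hden] at hR
    rw [hR]
    ring
  have h2 : R.denom ∣ (X - C T0) ^ M * Q :=
    (IsCoprime.dvd_of_dvd_mul_right (RatFunc.isCoprime_num_denom R).symm
      (h1 ▸ Dvd.intro_left _ rfl))
  have h3 := rootMultiplicity_le_rootMultiplicity_of_dvd hD0 h2 T0
  rw [rootMultiplicity_mul hD0, rootMultiplicity_X_sub_C_pow] at h3
  have h4 : Q.rootMultiplicity T0 = 0 := rootMultiplicity_eq_zero hQ
  omega

/-- `p ^ ν - T ^ a` -/
theorem poleLE_geo (p : ℂ) (a ν : ℕ) (T0 : ℂ) (hT0 : T0 ≠ 0) :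
    PoleLE (algebraMap (Polynomial ℂ) (RatFunc ℂ) (C (p ^ ν) - X ^ a))⁻¹ T0
      (if 0 < a ∧ T0 ^ a = p ^ ν then 1 else 0) ∨ (a = 0 ∧ p ^ ν = 1) := by
  by_cases h0 : a = 0 ∧ p ^ ν = 1
  · exact Or.inr h0
  left
  by_cases h : T0 ^ a = p ^ ν
  · have ha : 0 < a := by
      rcases Nat.eq_zero_or_pos a with h1 | h1
      · exact absurd ⟨h1, by rw [← h, h1, pow_zero]⟩ h0
      · exact h1
    rw [if_pos ⟨ha, h⟩]
    have hroot : (C (p ^ ν) - X ^ a : Polynomial ℂ).IsRoot T0 := by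
      rw [IsRoot, eval_sub, eval_C, eval_pow, eval_X, h, sub_self]
    obtain ⟨Q, hQ⟩ := dvd_iff_isRoot.2 hroot
    refine poleLE_inv _ Q T0 1 (by rw [pow_one]; exact hQ) fun h1 => ?_
    have h2 := congrArg (fun q => (derivative q).eval T0) hQ
    simp only [derivative_sub, derivative_C, derivative_X_pow, eval_sub, eval_mul,
      derivative_mul, eval_add, eval_X, eval_C, sub_self, zero_mul, add_zero, h1, mul_zero,
      map_natCast, eval_natCast, eval_pow, derivative_X, sub_zero, one_mul, zero_sub,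
      eval_zero, eval_one] at h2
    rw [eval_neg, neg_eq_zero, eval_mul, mul_eq_zero, eval_natCast, eval_pow, eval_X] at h2
    rcases h2 with h2 | h2
    · exact ha.ne' (Nat.cast_eq_zero.1 h2)
    · exact pow_ne_zero _ hT0 h2
  · rw [if_neg fun h1 => h h1.2]
    refine poleLE_inv _ (C (p ^ ν) - X ^ a) T0 0 (by rw [pow_zero, one_mul]) ?_
    rw [eval_sub, eval_C, eval_pow, eval_X]
    exact fun h1 => h (sub_eq_zero.1 h1).symm

/-- **Denef's formula** for the Igusa zeta function `∫ max_j |f_j(x)| ^ s dx` over `ℤ_p ^ n` of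
an ideal, as a rational function in `T = p ^ (-s)`, if the log resolution has good reduction
modulo `p`: `a i = ord_{E_i} I`, `k i = ord_{E_i} K`, and `c S` is the number of the points of
`E_S°` over the field with `p` elements. -/
noncomputable def denef (p n : ℕ) {J : Type} [Fintype J] [DecidableEq J] (a k : J → ℕ)
    (c : Finset J → ℕ) : RatFunc ℂ :=
  ((p : RatFunc ℂ) ^ n)⁻¹ * ∑ S : Finset J, (c S : RatFunc ℂ) * ∏ i ∈ S,
    ((p : RatFunc ℂ) - 1) * RatFunc.X ^ a i * ((p : RatFunc ℂ) ^ (k i + 1) - RatFunc.X ^ a i)⁻¹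

/-- The factor of the variables `y`: `∫ |∑ y_j z_j| ^ s dy = max_j |z_j| ^ s (p - 1) / (p - T)`. -/
noncomputable def yFactor (p : ℕ) : RatFunc ℂ :=
  ((p : RatFunc ℂ) - 1) * ((p : RatFunc ℂ) - RatFunc.X)⁻¹

theorem cast_eq (p : ℕ) : (p : RatFunc ℂ) = algebraMap (Polynomial ℂ) (RatFunc ℂ) (C (p : ℂ)) := by
  simp

theorem denef_le (p n : ℕ) (hp : 1 < p) {J : Type} [Fintype J] [DecidableEq J] (a k : J → ℕ)
    (c : Finset J → ℕ) (T0 : ℂ) (hT0 : T0 ≠ 0) (M : ℕ)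
    (hM : ∀ S, c S ≠ 0 →
      (S.filter (fun i => 0 < a i ∧ T0 ^ a i = (p : ℂ) ^ (k i + 1))).card ≤ M) :
    PoleLE (denef p n a k c) T0 M := by
  have hp1 : ∀ ν : ℕ, 0 < ν → (p : ℂ) ^ ν ≠ 1 := by
    intro ν hν h
    have h1 : p ^ ν = 1 := by exact_mod_cast h
    have h2 : 1 < p ^ ν := Nat.one_lt_pow hν.ne' hp
    omega
  rw [denef]
  have hpn : ((p : RatFunc ℂ) ^ n)⁻¹ = algebraMap (Polynomial ℂ) (RatFunc ℂ)
      (C (((p : ℂ) ^ n)⁻¹)) := by
    have h0 : (p : ℂ) ^ n ≠ 0 := pow_ne_zero _ (Nat.cast_ne_zero.2 (by omega))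
    refine inv_eq_of_mul_eq_one_right ?_
    rw [cast_eq, ← map_pow, ← C_pow, ← map_mul, ← C_mul, mul_inv_cancel₀ h0, C_1, map_one]
  rw [hpn, ← Nat.zero_add M]
  refine (poleLE_poly _ _ _).mul (poleLE_sum _ _ _ _ fun S _ => ?_)
  by_cases hc : c S = 0
  · rw [hc, Nat.cast_zero, zero_mul]
    have := poleLE_poly 0 T0 M
    rwa [map_zero] at this
  rw [← Nat.zero_add M, cast_eq]
  refine (poleLE_poly _ _ _).mul ?_
  have h1 := poleLE_prod S (fun i => ((p : RatFunc ℂ) - 1) * RatFunc.X ^ a i *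
    ((p : RatFunc ℂ) ^ (k i + 1) - RatFunc.X ^ a i)⁻¹) T0
    (fun i => if 0 < a i ∧ T0 ^ a i = (p : ℂ) ^ (k i + 1) then 1 else 0) fun i _ => by
      have h2 : ((p : RatFunc ℂ) - 1) * RatFunc.X ^ a i = algebraMap (Polynomial ℂ) (RatFunc ℂ)
          ((C (p : ℂ) - 1) * X ^ a i) := by simp
      have h3 : (p : RatFunc ℂ) ^ (k i + 1) - RatFunc.X ^ a i =
          algebraMap (Polynomial ℂ) (RatFunc ℂ) (C ((p : ℂ) ^ (k i + 1)) - X ^ a i) := by simp
      rw [h2, h3]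
      refine ((poleLE_poly _ T0 0).mul ?_).mono (Nat.zero_add _).le
      rcases poleLE_geo (p : ℂ) (a i) (k i + 1) T0 hT0 with h | h
      · exact h
      · exact absurd h.2 (hp1 _ (Nat.succ_pos _))
  refine h1.mono ?_
  rw [← Finset.sum_filter, Finset.sum_const, smul_eq_mul, mul_one]
  exact hM S hc

theorem yFactor_le (p : ℕ) (hp : 1 < p) (T0 : ℂ) :
    PoleLE (yFactor p) T0 (if T0 = p then 1 else 0) := by
  rw [yFactor]
  have h2 : ((p : RatFunc ℂ) - 1) = algebraMap (Polynomial ℂ) (RatFunc ℂ) (C (p : ℂ) - 1) := by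
    simp
  have h3 : (p : RatFunc ℂ) - RatFunc.X =
      algebraMap (Polynomial ℂ) (RatFunc ℂ) (C (p : ℂ) - X) := by simp
  rw [h2, h3]
  refine ((poleLE_poly _ T0 0).mul ?_).mono (Nat.zero_add _).le
  by_cases h : T0 = p
  · rw [if_pos h]
    refine poleLE_inv _ (-1) T0 1 (by rw [h]; ring) (by simp)
  · rw [if_neg h]
    refine poleLE_inv _ (C (p : ℂ) - X) T0 0 (by ring) ?_
    rw [eval_sub, eval_C, eval_X]
    exact fun h1 => h (sub_eq_zero.1 h1).symm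

/-- The real part of `s` is determined by `p ^ (-s)`. -/
theorem re_of_pow (p : ℕ) (hp : 1 < p) (s : ℂ) (a ν : ℕ)
    (h : ((p : ℂ) ^ (-s)) ^ a = (p : ℂ) ^ ν) : (ν : ℝ) + a * s.re = 0 := by
  have hp0 : 0 < p := by omega
  have h1 := congrArg norm h
  rw [norm_pow, norm_pow, Complex.norm_natCast_cpow_of_pos hp0, Complex.norm_natCast,
    Complex.neg_re, ← Real.rpow_natCast, ← Real.rpow_mul (Nat.cast_nonneg _),
    ← Real.rpow_natCast] at h1
  have h2 := congrArg Real.log h1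
  have hl : Real.log p ≠ 0 := (Real.log_pos (by exact_mod_cast hp)).ne'
  rw [Real.log_rpow (by exact_mod_cast hp0), Real.log_rpow (by exact_mod_cast hp0)] at h2
  have h3 := mul_right_cancel₀ hl h2
  linarith

theorem pow_card_dvd {J : Type} (S T : Finset J) (hTS : T ⊆ S) (L : J → Polynomial ℂ) (r : ℂ)
    (h : ∀ i ∈ T, (X - C r) ∣ L i) : (X - C r) ^ T.card ∣ ∏ i ∈ S, L i := by
  rw [← Finset.prod_const]
  exact (Finset.prod_dvd_prod_of_dvd _ _ h).trans (Finset.prod_dvd_prod_of_subset _ _ _ hTS)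

theorem linear_dvd (a ν : ℕ) (r : ℂ) (h : (ν : ℂ) + a * r = 0) :
    (X - C r) ∣ (C (ν : ℂ) + C (a : ℂ) * X : Polynomial ℂ) := by
  refine dvd_iff_isRoot.2 ?_
  rw [IsRoot, eval_add, eval_mul, eval_C, eval_C, eval_X, h]

open Pool.Agent.W574.SM

/-- The number `-(k + 1) / a` comes from a Rees divisor `E` of the ideal, that is,
`(k + 1) / a = (k_E + 1 + l) / a_E`, where `l < a_E` is the order along `E` of a polynomial `g`.
With `g = 1` and `l = 0` this is `(k + 1) / a = (k_E + 1) / a_E`. -/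
def FromRees {σ ι : Type} [Fintype σ] [DecidableEq σ] [Fintype ι] (f : ι → MvPolynomial σ ℂ)
    (a k : ℕ) : Prop :=
  ∃ E : DivisorChart f, E.IsRees ∧ ∃ (l : ℕ) (g : MvPolynomial σ ℂ), l < E.a ∧
    (∃ U : MvPowerSeries σ ℂ, MvPowerSeries.constantCoeff U ≠ 0 ∧
      MvPolynomial.aeval E.ξ g = MvPowerSeries.X E.z ^ l * U) ∧
    (k + 1) * E.a = (E.k + 1 + l) * a

/-- A Rees divisor itself. -/
theorem fromRees_self {σ ι : Type} [Fintype σ] [DecidableEq σ] [Fintype ι]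
    {f : ι → MvPolynomial σ ℂ} (E : DivisorChart f) (hE : E.IsRees) (hE0 : 0 < E.a) :
    FromRees f E.a E.k :=
  ⟨E, hE, 0, 1, hE0, ⟨1, by simp, by simp⟩, by ring⟩

theorem root_of_fromRees {σ ι : Type} [Fintype σ] [DecidableEq σ] [Fintype ι]
    (f : ι → MvPolynomial σ ℂ) (b : Polynomial ℂ) (hb : IsFunctionalEq f b) (a k : ℕ)
    (h : FromRees f a k) (r : ℂ) (ha : 0 < a) (hr : ((k + 1 : ℕ) : ℂ) + a * r = 0) :
    b.eval r = 0 := by
  obtain ⟨E, hE, l, g, hl, hg, he⟩ := h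
  have h1 := root_of_rees f b hb E hE l hl g hg
  have h2 : r = -((E.k : ℂ) + 1 + l) / E.a := by
    have ha0 : (a : ℂ) ≠ 0 := Nat.cast_ne_zero.2 ha.ne'
    have hE0 : (E.a : ℂ) ≠ 0 := Nat.cast_ne_zero.2 (by omega)
    have he' : ((k : ℂ) + 1) * E.a = (E.k + 1 + l) * a := by exact_mod_cast he
    rw [eq_div_iff hE0]
    have h3 : (a : ℂ) * (r * E.a) = a * (-((E.k : ℂ) + 1 + l)) := by
      push_cast at hr
      linear_combination (E.a : ℂ) * hr - he'
    exact mul_left_cancel₀ ha0 h3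
  rw [h2]
  exact h1

/-- The topological zeta function of an ideal: `a i = ord_{E_i} I`, `k i = ord_{E_i} K`, and
`χ S` is the Euler characteristic of the stratum `E_S°`. -/
noncomputable def topZeta {J : Type} [Fintype J] [DecidableEq J] (a k : J → ℕ)
    (χ : Finset J → ℤ) : RatFunc ℂ :=
  ∑ S : Finset J, (χ S : RatFunc ℂ) *
    ∏ i ∈ S, 1 / ((a i : RatFunc ℂ) * RatFunc.X + (k i : RatFunc ℂ) + 1)

theorem linear_le (a k : ℕ) (s0 : ℂ) :
    PoleLE (1 / ((a : RatFunc ℂ) * RatFunc.X + (k : RatFunc ℂ) + 1)) s0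
      (if 0 < a ∧ ((k + 1 : ℕ) : ℂ) + a * s0 = 0 then 1 else 0) := by
  have h3 : (a : RatFunc ℂ) * RatFunc.X + (k : RatFunc ℂ) + 1 =
      algebraMap (Polynomial ℂ) (RatFunc ℂ) (C ((k + 1 : ℕ) : ℂ) + C (a : ℂ) * X) := by
    simp only [map_add, map_mul, RatFunc.algebraMap_C, RatFunc.algebraMap_X, map_natCast]
    push_cast
    ring
  rw [h3, one_div]
  by_cases h : ((k + 1 : ℕ) : ℂ) + a * s0 = 0
  · have ha : 0 < a := by
      rcases Nat.eq_zero_or_pos a with h1 | h1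
      · rw [h1, Nat.cast_zero, zero_mul, add_zero] at h
        exact absurd h (Nat.cast_ne_zero.2 (Nat.succ_ne_zero _))
      · exact h1
    rw [if_pos ⟨ha, h⟩]
    refine poleLE_inv _ (C (a : ℂ)) s0 1 ?_ (by rw [eval_C]; exact Nat.cast_ne_zero.2 ha.ne')
    have h4 : (((k + 1 : ℕ) : ℂ)) = -(a * s0) := by linear_combination h
    rw [h4, C_neg, C_mul]
    ring
  · rw [if_neg fun h1 => h h1.2]
    refine poleLE_inv _ _ s0 0 (by rw [pow_zero, one_mul]) ?_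
    rw [eval_add, eval_mul, eval_C, eval_C, eval_X]
    exact h

theorem topZeta_le {J : Type} [Fintype J] [DecidableEq J] (a k : J → ℕ)
    (χ : Finset J → ℤ) (s0 : ℂ) (M : ℕ)
    (hM : ∀ S, χ S ≠ 0 →
      (S.filter (fun i => 0 < a i ∧ ((k i + 1 : ℕ) : ℂ) + a i * s0 = 0)).card ≤ M) :
    PoleLE (topZeta a k χ) s0 M := by
  rw [topZeta]
  refine poleLE_sum _ _ _ _ fun S _ => ?_
  by_cases hc : χ S = 0
  · rw [hc, Int.cast_zero, zero_mul]
    have := poleLE_poly 0 s0 M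
    rwa [map_zero] at this
  have h1 : (χ S : RatFunc ℂ) = algebraMap (Polynomial ℂ) (RatFunc ℂ) (C (χ S : ℂ)) := by simp
  rw [h1]
  refine ((poleLE_poly _ s0 0).mul ?_).mono (Nat.zero_add _).le
  have h1 := poleLE_prod S (fun i => 1 / ((a i : RatFunc ℂ) * RatFunc.X + (k i : RatFunc ℂ) + 1))
    s0 (fun i => if 0 < a i ∧ ((k i + 1 : ℕ) : ℂ) + a i * s0 = 0 then 1 else 0)
    fun i _ => linear_le _ _ _
  refine h1.mono ?_
  rw [← Finset.sum_filter, Finset.sum_const, smul_eq_mul, mul_one]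
  exact hM S hc

end Pool.Agent.Y230.RS
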