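import Pool.Agent.Y230.RS.Fin
import Pool.Agent.W574.SM.Chain
import Pool.Agent.Y230.HS.Strong

set_option autoImplicit false
set_option linter.unusedSectionVars false

/-! # Charts of a log resolution, visible points and Rees divisors -/

namespace Pool.Agent.Y230.RS

open MvPowerSeries Pool.Agent.W574.SM

/-- A formal chart at a point `q` of `Y`: formal power series `ξ i` in formal coordinates `X t`
at `q` such that the Jacobian determinant of `x = ξ` is `∏ X_t ^ k_t` times a unit, such that all
the `f j` are divisible by `∏ X_t ^ a_t`, and such that `f j0` is `∏ X_t ^ a_t` times a unit.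
So the divisors through `q` are among the `X_t = 0`, and `k_t = ord K`, `a_t = ord I` there. -/
structure PointChart {σ ι : Type} [Fintype σ] [DecidableEq σ] (f : ι → MvPolynomial σ ℂ) where
  /-- the chart -/
  ξ : σ → MvPowerSeries σ ℂ
  /-- the multiplicities of the relative canonical divisor -/
  k : σ → ℕ
  /-- the orders of the ideal -/
  a : σ → ℕ
  /-- the index of a generator of minimal order -/
  j0 : ι
  jacobian : ∃ U : MvPowerSeries σ ℂ, constantCoeff U ≠ 0 ∧
    (Matrix.of fun t i => pderiv ℂ t (ξ i)).det = (∏ t, X t ^ k t) * U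
  divides : ∀ j, (∏ t, X t ^ a t) ∣ MvPolynomial.aeval ξ (f j)
  attained : ∃ U : MvPowerSeries σ ℂ, constantCoeff U ≠ 0 ∧
    MvPolynomial.aeval ξ (f j0) = (∏ t, X t ^ a t) * U

/-- For every coordinate `X t` at the point `q` there is a function `w t` of the form
`(∑_j c_j(x) f_j(x)) / f_{j0}(x)`, with polynomials `c_j`, that is, a regular function of an
affine chart of the blow-up of the ideal, of which the pull-back to `Y` has the leading form
`c X_t ^ m` at `q`, with `m ≥ 1` and `c ≠ 0`. If the morphism from `Y` to the blow-up is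
unramified at `q` then this holds with `m = 1`, see `PointChart.isVisible_of_unramified`. -/
def PointChart.IsVisible {σ ι : Type} [Fintype σ] [DecidableEq σ] [Fintype ι]
    {f : ι → MvPolynomial σ ℂ} (q : PointChart f) : Prop :=
  ∀ t, ∃ (w : MvPowerSeries σ ℂ) (m : ℕ), 1 ≤ m ∧ coeff (Finsupp.single t m) w ≠ 0 ∧
    (∀ μ : σ →₀ ℕ, μ ≠ Finsupp.single t m → coeff μ w ≠ 0 → m < μ.degree) ∧
    ∃ c : ι → MvPolynomial σ ℂ, ∑ j, MvPolynomial.aeval q.ξ (c j) * MvPolynomial.aeval q.ξ (f j)
      = MvPolynomial.aeval q.ξ (f q.j0) * w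

/-- If the morphism from `Y` to the blow-up of the ideal is unramified at `q`, that is, if there
are functions `w t` of the blow-up which are formal coordinates at `q`, then `q` is visible. -/
theorem PointChart.isVisible_of_unramified {σ ι : Type} [Fintype σ] [DecidableEq σ] [Fintype ι]
    {f : ι → MvPolynomial σ ℂ} (q : PointChart f) (w : σ → MvPowerSeries σ ℂ)
    (hw0 : ∀ t, constantCoeff (w t) = 0)
    (hwdet : (Matrix.of fun s t => constantCoeff (pderiv ℂ s (w t))).det ≠ 0)
    (hw : ∀ t, ∃ c : ι → MvPolynomial σ ℂ,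
      ∑ j, MvPolynomial.aeval q.ξ (c j) * MvPolynomial.aeval q.ξ (f j)
        = MvPolynomial.aeval q.ξ (f q.j0) * w t) : q.IsVisible := by
  obtain ⟨y, hy, hc⟩ := pure_of_unramified f q.ξ q.j0 w hw0 hwdet hw
  exact fun t => ⟨y t, 1, le_refl 1, (hy t).1, (hy t).2, hc t⟩

/-- The product over the divisors through a visible point. -/
theorem prod_dvd_visible {σ ι : Type} [Fintype σ] [DecidableEq σ] [Fintype ι]
    (f : ι → MvPolynomial σ ℂ) (b : Polynomial ℂ) (hb : IsFunctionalEq f b)
    {J : Type} [Fintype J] [DecidableEq J] (a k : J → ℕ) (S : Finset J)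
    (h : ∃ q : PointChart f, q.IsVisible ∧ ∃ e : J → σ, Set.InjOn e S ∧
      ∀ i ∈ S, q.a (e i) = a i ∧ q.k (e i) = k i) :
    (∏ i ∈ S.filter (fun i => 0 < a i),
      (Polynomial.C ((k i + 1 : ℕ) : ℂ) + Polynomial.C (a i : ℂ) * Polynomial.X)) ∣ b := by
  obtain ⟨q, hq, e, he, hek⟩ := h
  refine prod_dvd_of_inj a k S e he q.a q.k hek b ?_
  choose w m hm h1 h2 hc using hq
  have h3 := strata_prod f b hb q.ξ q.a q.k (fun _ => 0) q.jacobian q.j0 q.divides q.attained 1
    ⟨1, by simp, by simp⟩ m (fun t => by have := hm t; omega) w (fun t => ⟨h1 t, h2 t⟩) hc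
  simpa using h3

/-- A formal chart at a point `p` of a divisor `E` over the affine space: formal power series
`ξ i` in formal coordinates indexed by `σ`, among them the equation `z` of `E`, such that the
Jacobian determinant of `x = ξ` is `z ^ k` times a unit (so that `k` is the multiplicity of `E` in
the relative canonical divisor, and `ν = k + 1`), such that all the `f j` are divisible by `z ^ a`
and such that `f j0` is `z ^ a` times a unit (so that the ideal becomes `(z ^ a)` at `p`). -/
structure DivisorChart {σ ι : Type} [Fintype σ] [DecidableEq σ] (f : ι → MvPolynomial σ ℂ) where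
  /-- the index of the coordinate which defines `E` -/
  z : σ
  /-- the chart -/
  ξ : σ → MvPowerSeries σ ℂ
  /-- the multiplicity of `E` in the relative canonical divisor -/
  k : ℕ
  /-- the order of the ideal along `E` -/
  a : ℕ
  /-- the index of a generator of minimal order -/
  j0 : ι
  jacobian : ∃ U : MvPowerSeries σ ℂ, constantCoeff U ≠ 0 ∧
    (Matrix.of fun t i => pderiv ℂ t (ξ i)).det = X z ^ k * U
  divides : ∀ j, X z ^ a ∣ MvPolynomial.aeval ξ (f j)
  attained : ∃ U : MvPowerSeries σ ℂ, constantCoeff U ≠ 0 ∧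
    MvPolynomial.aeval ξ (f j0) = X z ^ a * U

/-- `E` is a Rees divisor (it is not contracted in the blow-up of the ideal), and its map to
`ℂ ^ N × ℙ ^ (r - 1)` is unramified at `p`: there are functions `w t` which, together with the
equation `w z = z` of `E`, are formal coordinates at `p`, and each of which is the pull-back of a
polynomial `q(x)` or of a quotient `(∑ c_j f_j) / f_{j0}`. -/
def DivisorChart.IsRees {σ ι : Type} [Fintype σ] [DecidableEq σ] [Fintype ι]
    {f : ι → MvPolynomial σ ℂ} (E : DivisorChart f) : Prop :=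
  ∃ w : σ → MvPowerSeries σ ℂ, w E.z = X E.z ∧ (∀ t, constantCoeff (w t) = 0) ∧
    (Matrix.of fun s t => constantCoeff (pderiv ℂ s (w t))).det ≠ 0 ∧
    ∀ t, t ≠ E.z → (∃ q : MvPolynomial σ ℂ, MvPolynomial.aeval E.ξ q = w t) ∨
      ∃ c : ι → ℂ, ∑ j, c j • MvPolynomial.aeval E.ξ (f j)
        = MvPolynomial.aeval E.ξ (f E.j0) * w t

/-- Every Rees divisor gives a root. -/
theorem root_of_rees {σ ι : Type} [Fintype σ] [DecidableEq σ] [Fintype ι]
    (f : ι → MvPolynomial σ ℂ) (b : Polynomial ℂ) (hb : IsFunctionalEq f b) (E : DivisorChart f)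
    (hE : E.IsRees) (l : ℕ) (hl : l < E.a) (p : MvPolynomial σ ℂ)
    (hp : ∃ U : MvPowerSeries σ ℂ, constantCoeff U ≠ 0 ∧
      MvPolynomial.aeval E.ξ p = X E.z ^ l * U) :
    b.eval (-((E.k : ℂ) + 1 + l) / E.a) = 0 := by
  classical
  let lo : LinearOrder σ := LinearOrder.lift' (Fintype.equivFin σ) (Equiv.injective _)
  obtain ⟨U0, hU0, hJ⟩ := E.jacobian
  obtain ⟨U1, hU1, hj0⟩ := E.attained
  obtain ⟨U2, hU2, hp⟩ := hp
  obtain ⟨w, hwz, hw0, hwdet, htype⟩ := hE
  have hdet : ∀ {R : Type} [CommRing R] (M : Matrix σ σ R),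
      @Matrix.det σ (fun a b => lo.toDecidableEq a b) _ R _ M = M.det := by
    intro R _ M
    congr
  refine rees_coords f b hb E.z E.ξ E.k E.a l hl U0 U1 U2 hU0 hU1 hU2 ?_ E.j0 E.divides hj0 p hp
    w hwz hw0 ?_ htype
  · rw [← hJ]; exact hdet _
  · intro h
    apply hwdet
    rw [← h]; exact (hdet _).symm

end Pool.Agent.Y230.RS
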