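import Pool.Agent.Y230.RS.Gam

set_option autoImplicit false
set_option linter.unusedSectionVars false
set_option linter.unusedVariables false

/-! # Multiplicities of roots from points where several Rees divisors meet -/

namespace Pool.Agent.Y230.RS

open HahnSeries Pool.Agent.W574.SM

section Aux

variable {κ L : Type} [Fintype κ] [DecidableEq κ] [Field L] [Algebra ℂ L]

theorem wl_mem (F : Filt L) (a : ℤ) (e G : κ → L)
    (h : ∀ m (n : ℕ), dp (e m) n * (G m)⁻¹ ^ n ∈ F.ge (-a * n)) (μ : κ →₀ ℕ) :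
    wl e G μ ∈ F.ge (-a * μ.degree) := by
  have h1 := Filt.prod (F := F) Finset.univ (fun m => dp (e m) (μ m) * (G m)⁻¹ ^ (μ m))
    (fun m => -a * (μ m : ℤ)) fun m _ => h m (μ m)
  refine F.mem_of_eq h1 ?_
  rw [← Finset.mul_sum, Finsupp.degree_eq_sum]
  push_cast
  ring

end Aux

section Test

variable {σ A L : Type} [Fintype σ] [DecidableEq σ] [Fintype A] [DecidableEq A] [Field L]
  [Algebra ℂ L] (φ : MvPolynomial σ ℂ →ₐ[ℂ] L) (θ : σ → Derivation ℂ L L)
  (ex : A → L) (Q : A → L)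

/-- the test functions: `∏ Q_a ^ e_a` multiplied by the polynomials in the `∂ / ∂ Q_a` -/
noncomputable def testS : AddSubgroup L where
  carrier := {u | ∃ P : MvPolynomial A (MvPolynomial σ ℂ),
    u = LL ex Q (MvPolynomial.map (φ : MvPolynomial σ ℂ →+* L) P)}
  add_mem' := by
    rintro u v ⟨P, rfl⟩ ⟨P', rfl⟩
    exact ⟨P + P', by rw [map_add, map_add]⟩
  zero_mem' := ⟨0, by rw [map_zero, map_zero]⟩
  neg_mem' := by
    rintro u ⟨P, rfl⟩
    exact ⟨-P, by rw [map_neg, map_neg]⟩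

theorem testS_mul (p : MvPolynomial σ ℂ) (u : L) (hu : u ∈ testS φ ex Q) :
    φ p * u ∈ testS φ ex Q := by
  obtain ⟨P, rfl⟩ := hu
  refine ⟨MvPolynomial.C p * P, ?_⟩
  rw [map_mul, MvPolynomial.map_C, MvPolynomial.C_mul', map_smul, smul_eq_mul]
  rfl

theorem testS_phi (p : MvPolynomial σ ℂ) : φ p ∈ testS φ ex Q := by
  refine ⟨MvPolynomial.C p, ?_⟩
  rw [MvPolynomial.map_C]
  have : (MvPolynomial.C ((φ : MvPolynomial σ ℂ →+* L) p) : MvPolynomial A L)
      = MvPolynomial.monomial 0 (φ p) := rfl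
  rw [this, LL_monomial, wl_zero, mul_one]

theorem map_dcoef (d : Derivation ℂ L L)
    (d' : Derivation ℂ (MvPolynomial σ ℂ) (MvPolynomial σ ℂ)) (h : ∀ p, d (φ p) = φ (d' p))
    (P : MvPolynomial A (MvPolynomial σ ℂ)) :
    dcoef d (MvPolynomial.map (φ : MvPolynomial σ ℂ →+* L) P)
      = MvPolynomial.map (φ : MvPolynomial σ ℂ →+* L) (dcoef d' P) := by
  ext μ
  rw [coeff_dcoef, MvPolynomial.coeff_map, MvPolynomial.coeff_map, coeff_dcoef]
  exact h _

theorem testS_DD (hJ : (Jac φ θ).det ≠ 0) (q : A → MvPolynomial σ ℂ) (hq : ∀ a, φ (q a) = Q a)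
    (hQ : ∀ a, Q a ≠ 0) (hex : ∀ t a, θ t (ex a) = 0) (i : σ) (u : L) (hu : u ∈ testS φ ex Q) :
    DD φ θ i u + om φ θ (OmL θ ex Q) i * u ∈ testS φ ex Q := by
  obtain ⟨P, rfl⟩ := hu
  refine ⟨dcoef (MvPolynomial.pderiv i) P
    + (∑ a, MvPolynomial.C (MvPolynomial.pderiv i (q a)) * MvPolynomial.X a) * P, ?_⟩
  rw [om_OmL, LL_deriv ex Q hQ (DD φ θ i) fun a => DD_const φ θ i _ fun t => hex t a]
  rw [map_dcoef φ (DD φ θ i) (MvPolynomial.pderiv i) fun p => DD_phi φ θ hJ i p]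
  congr 1
  rw [map_add, map_mul, map_sum]
  congr 2
  refine Finset.sum_congr rfl fun a _ => ?_
  rw [map_mul, MvPolynomial.map_C, MvPolynomial.map_X, ← hq, DD_phi φ θ hJ]
  rfl

theorem testS_mem (F : Filt L) (hφ : ∀ p, φ p ∈ F.ge 0)
    (h : ∀ m (n : ℕ), dp (ex m) n * (Q m)⁻¹ ^ n ∈ F.ge 0) (u : L) (hu : u ∈ testS φ ex Q) :
    u ∈ F.ge 0 := by
  obtain ⟨P, rfl⟩ := hu
  refine LL_mem ex Q F 0 (wl_mem F 0 ex Q fun m n => ?_) fun μ => ?_
  · rw [neg_zero, zero_mul]; exact h m n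
  · rw [MvPolynomial.coeff_map, zero_mul, add_zero]
    exact hφ _

end Test

section Taylor

variable {σ : Type} [Fintype σ] [LinearOrder σ]

theorem coeff_eps_pow (Y : HahnSeries (Gam σ) ℂ) (i : ℕ) (g : Gam σ) :
    (Y * eps ^ i).coeff g = Y.coeff (g - i • ee) := by
  have h : (eps : HahnSeries (Gam σ) ℂ) ^ i = single (i • ee) 1 := by
    rw [eps, single_pow, one_pow]
  have h3 := coeff_mul_single_add (r := (1 : ℂ)) (x := Y) (a := g - i • ee) (b := i • ee)
  rw [sub_add_cancel, mul_one] at h3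
  rw [h, h3]

/-- the coefficients of `b(s0 + ε)` -/
theorem aeval_eps (b : Polynomial ℂ) (s0 : ℂ) :
    Polynomial.aeval (C s0 + eps : HahnSeries (Gam σ) ℂ) b
      = Polynomial.aeval (eps : HahnSeries (Gam σ) ℂ) (Polynomial.taylor s0 b) := by
  have h2 : (C s0 : HahnSeries (Gam σ) ℂ) = algebraMap ℂ _ s0 := by
    rw [HahnSeries.algebraMap_apply]; rfl
  rw [Polynomial.taylor_apply, Polynomial.aeval_comp, map_add, Polynomial.aeval_X,
    Polynomial.aeval_C, h2, add_comm]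

theorem taylor_vanish (Y : HahnSeries (Gam σ) ℂ) (hY : ∀ g, Y.coeff g ≠ 0 → 0 ≤ pr1 g)
    (h0 : Y.coeff 0 ≠ 0) (b' : Polynomial ℂ) (n : ℕ)
    (h : ∀ j : ℕ, j < n → (Y * Polynomial.aeval eps b').coeff (j • ee) = 0) :
    Polynomial.X ^ n ∣ b' := by
  rw [Polynomial.X_pow_dvd_iff]
  intro j
  induction j using Nat.strong_induction_on with
  | _ j ih =>
    intro hj
    have h1 := h j hj
    rw [Polynomial.aeval_eq_sum_range, Finset.mul_sum] at h1
    have h2 : ∀ i, (Y * (b'.coeff i • (eps : HahnSeries (Gam σ) ℂ) ^ i)).coeff (j • ee)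
        = b'.coeff i * Y.coeff (j • ee - i • ee) := by
      intro i
      rw [← C_mul_eq_smul, mul_left_comm, C_mul_eq_smul, coeff_smul, smul_eq_mul, coeff_eps_pow]
    have h3 : ∀ s : Finset ℕ, (∑ i ∈ s, Y * (b'.coeff i • (eps : HahnSeries (Gam σ) ℂ) ^ i)).coeff
        (j • ee) = ∑ i ∈ s, b'.coeff i * Y.coeff (j • ee - i • ee) := by
      intro s
      induction s using Finset.induction_on with
      | empty => rw [Finset.sum_empty, Finset.sum_empty, coeff_zero]
      | insert a s ha ih => rw [Finset.sum_insert ha, Finset.sum_insert ha, coeff_add, ih, h2]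
    rw [h3] at h1
    by_cases hjd : j ∈ Finset.range (b'.natDegree + 1)
    · rw [Finset.sum_eq_single j] at h1
      · rw [sub_self] at h1
        exact (mul_eq_zero.1 h1).resolve_right h0
      · intro i _ hij
        rcases Nat.lt_or_gt_of_ne hij with h4 | h4
        · rw [ih i h4 (h4.trans hj), zero_mul]
        · have h5 : Y.coeff (j • ee - i • ee) = 0 := by
            by_contra h6
            have h7 := hY _ h6
            rw [map_sub, map_nsmul, map_nsmul, pr1_ee] at h7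
            simp only [nsmul_eq_mul, mul_one] at h7
            omega
          rw [h5, mul_zero]
      · intro h4; exact absurd hjd h4
    · rw [Finset.mem_range] at hjd
      exact Polynomial.coeff_eq_zero_of_natDegree_lt (by omega)

end Taylor

section Main

variable {σ ι : Type} [Fintype σ] [LinearOrder σ] [Fintype ι] [DecidableEq ι]

theorem dlog_C (r : σ) (c : ℂ) : eul (chi r) (C c : HahnSeries (Gam σ) ℂ) *
    (C c : HahnSeries (Gam σ) ℂ)⁻¹ = 0 := by
  rw [eul_C, zero_mul]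

theorem dlog_m (r : σ) (n : σ → ℤ) : eul (chi r) (mono n) * (mono n)⁻¹ = (n r : HahnSeries (Gam σ) ℂ) := by
  rw [dlog_mono, mul_assoc, mul_inv_cancel₀ (mono_ne n), mul_one]

theorem mono_neg_mem (t : σ) : mono (-Pi.single t 1) ∈ supR (S1 t) := by
  intro g hg
  rw [mono, coeff_single] at hg
  split_ifs at hg with h
  · rw [h]
    refine ⟨by rw [pr1_mono], fun j hj => ?_⟩
    rw [pr3_mono, Pi.neg_apply, Pi.single_eq_of_ne hj, neg_zero]
  · exact absurd rfl hg

theorem coord_inv_mem (t : σ) (w : MvPowerSeries σ ℂ) (h : IsCo t w) :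
    (ep w)⁻¹ ∈ supR (S1 t) := by
  obtain ⟨c, x, hc, hx, hxM, hw⟩ := coord_split t w h
  rw [hw, mul_inv, mul_inv, ← map_inv₀, ← mono_single, mono_inv]
  exact mul_mem (mul_mem (C_mem _ _) (mono_neg_mem t)) (one_add_inv_mem _ x hx hxM)

theorem dp_mem (M : AddSubmonoid (Gam σ)) (e : HahnSeries (Gam σ) ℂ) (he : e ∈ supR M) (n : ℕ) :
    dp e n ∈ supR M := by
  unfold dp
  refine Subalgebra.prod_mem _ fun i _ => sub_mem he ?_
  have : (i : HahnSeries (Gam σ) ℂ) = algebraMap ℂ _ (i : ℂ) := by simp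
  rw [this]
  exact (supR M).algebraMap_mem _

theorem coord_term_mem (T0 : Finset σ) (t : σ) (w : MvPowerSeries σ ℂ) (h : IsCo t w) (α β : ℂ)
    (hα : t ∈ T0 → α = 0) (n : ℕ) :
    dp (C α + C β * eps) n * (ep w)⁻¹ ^ n ∈ W T0 0 := by
  have hin := coord_inv_mem t w h
  have he : (C α + C β * eps : HahnSeries (Gam σ) ℂ) ∈ supR S0 :=
    add_mem (C_mem _ _) (mul_mem (C_mem _ _) eps_mem)
  by_cases ht : t ∈ T0
  · rcases n with _ | n
    · rw [dp_zero, pow_zero, one_mul]
      exact mem_W_of_supR T0 (one_mem _)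
    · obtain ⟨c, hc1, hc2⟩ := dp_succ' (C α + C β * eps : HahnSeries (Gam σ) ℂ) n
      have hc : c ∈ supR (S1 t) := by
        rw [hc2]
        refine Subalgebra.prod_mem _ fun i _ => sub_mem (supR_mono (S0_le_S1 t) he) ?_
        have : (((i + 1 : ℕ)) : HahnSeries (Gam σ) ℂ) = algebraMap ℂ _ ((i + 1 : ℕ) : ℂ) := by simp
        rw [this]
        exact (supR _).algebraMap_mem _
      rw [hc1, hα ht, map_zero, zero_add]
      have h1 : C β * eps * c * (ep w)⁻¹ ^ (n + 1) = eps * (C β * c * (ep w)⁻¹ ^ (n + 1)) := by ring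
      rw [h1]
      exact mem_W_of_supR T0 (eps_mul_mem T0 t (mul_mem (mul_mem (C_mem _ _) hc) (pow_mem hin _)))
  · apply mem_W_of_supR T0
    exact supR_mono (S1_le_SP T0 t ht) (mul_mem (supR_mono (S0_le_S1 t) (dp_mem _ _ he n))
      (pow_mem hin n))

theorem nneg_const (α β : ℂ) : NNeg (C α + C β * eps : HahnSeries (Gam σ) ℂ) := by
  intro g hg
  rw [coeff_add, C_mul_eq_smul, coeff_smul, C_apply, coeff_single, eps, coeff_single] at hg
  by_cases h1 : g = 0
  · rw [h1]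
  · by_cases h2 : g = ee
    · rw [h2]
      refine (lt_of_pr1 ?_).le
      exact (map_zero (pr1 : Gam σ →+ ℤ)).trans_lt (by rw [pr1_ee]; exact one_pos)
    · rw [if_neg h1, if_neg h2] at hg
      simp at hg

theorem eul_const (r : σ) (α β : ℂ) :
    eul (chi r) (C α + C β * eps : HahnSeries (Gam σ) ℂ) = 0 := by
  rw [map_add, eul_C, Derivation.leibniz, eul_eps, eul_C]
  simp

end Main

end Pool.Agent.Y230.RS
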