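import Pool.Agent.Y230.RS.Pull

set_option autoImplicit false
set_option linter.unusedSectionVars false
set_option linter.unusedVariables false

/-! # The engine, the exponents being constants of a differential field -/

namespace Pool.Agent.Y230.RS

open MvPolynomial Pool.Agent.W574.SM

section Parts

variable {σ L : Type} [Fintype σ] [DecidableEq σ] [Field L] [Algebra ℂ L]
  (φ : MvPolynomial σ ℂ →ₐ[ℂ] L) (θ : σ → Derivation ℂ L L)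

theorem om_add (Ω Ω' : σ → L) (i : σ) :
    om φ θ (fun t => Ω t + Ω' t) i = om φ θ Ω i + om φ θ Ω' i := by
  simp only [om, mul_add, Finset.sum_add_distrib]

theorem T_parts2 [CharZero L] (hJ : (Jac φ θ).det ≠ 0)
    (hcomm : ∀ s t u, θ s (θ t u) = θ t (θ s u)) (T : L →ₗ[ℂ] ℂ) (Ω Ω' : σ → L)
    (hT : ∀ t u, T (θ t u + (Ω t + Ω' t) * u) = 0)
    (i : σ) (u v : L) : T ((Jac φ θ).det * (v * (DD φ θ i u + om φ θ Ω i * u)))
      = T ((Jac φ θ).det * ((- (DD φ θ i v + om φ θ Ω' i * v)) * u)) := by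
  have h := T_DD_tw φ θ hJ hcomm T (fun t => Ω t + Ω' t) hT i (v * u)
  rw [Derivation.leibniz, smul_eq_mul, smul_eq_mul, om_add] at h
  have h2 : (Jac φ θ).det * (v * DD φ θ i u + u * DD φ θ i v +
        (om φ θ Ω i + om φ θ Ω' i) * (v * u))
      = (Jac φ θ).det * (v * (DD φ θ i u + om φ θ Ω i * u))
        - (Jac φ θ).det * ((- (DD φ θ i v + om φ θ Ω' i * v)) * u) := by ring
  rw [h2, map_sub, sub_eq_zero] at h
  exact h

end Parts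

section Lift

variable {σ ι κ L : Type} [Fintype σ] [DecidableEq σ] [Fintype ι] [DecidableEq ι] [Fintype κ]
  [DecidableEq κ] [Field L] [Algebra ℂ L]
  (φ : MvPolynomial σ ℂ →ₐ[ℂ] L) (θ : σ → Derivation ℂ L L) (f : ι → MvPolynomial σ ℂ)
  (lam : κ → ι → ℂ) (e : κ → L) (G : κ → L)

/-- the logarithmic derivatives of `∏ G_m ^ e_m` -/
noncomputable def OmL (t : σ) : L := ∑ m, e m * (θ t (G m) * (G m)⁻¹)

theorem DD_const (i : σ) (x : L) (hx : ∀ t, θ t x = 0) : DD φ θ i x = 0 := by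
  rw [DD_apply]
  exact Finset.sum_eq_zero fun t _ => by rw [hx, mul_zero]

theorem om_OmL (i : σ) : om φ θ (OmL θ e G) i = ∑ m, e m * (DD φ θ i (G m) * (G m)⁻¹) := by
  simp only [om, OmL, DD_apply]
  simp only [Finset.mul_sum, Finset.sum_mul]
  rw [Finset.sum_comm]
  refine Finset.sum_congr rfl fun m _ => Finset.sum_congr rfl fun t _ => ?_
  ring

theorem lift_weyl2 [CharZero L] (hJ : (Jac φ θ).det ≠ 0)
    (hcomm : ∀ s t u, θ s (θ t u) = θ t (θ s u)) (T : L →ₗ[ℂ] ℂ) (Ω' : σ → L)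
    (hT : ∀ t u, T (θ t u + (OmL θ e G t + Ω' t) * u) = 0)
    (he : ∀ t m, θ t (e m) = 0)
    (hGf : ∀ m, G m = ∑ j, algebraMap ℂ L (lam m j) * φ (f j))
    (hG : ∀ m, G m ≠ 0)
    (S : AddSubgroup L) (hS1 : ∀ p, ∀ u ∈ S, φ p * u ∈ S)
    (hS2 : ∀ i, ∀ u ∈ S, DD φ θ i u + om φ θ Ω' i * u ∈ S)
    (Q : Module.End ℂ (MvPolynomial σ ℂ)) (hQ : Q ∈ weyl σ) :
    ∃ Qh : MvPolynomial ι (MvPolynomial σ ℂ) → MvPolynomial ι (MvPolynomial σ ℂ),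
      (∀ s q, Q (ip (E f s) q) = ip (E f s) (Qh q)) ∧
      ∀ ρ ∈ S, ∃ ρ' ∈ S, ∀ q, T ((Jac φ θ).det * (ρ * pL φ lam e G (Qh q)))
        = T ((Jac φ θ).det * (ρ' * pL φ lam e G q)) := by
  induction hQ using Algebra.adjoin_induction with
  | mem Q hQ =>
    rcases hQ with ⟨i, rfl⟩ | ⟨i, rfl⟩
    · refine ⟨fun q => C (X i) * q, fun s q => ?_, fun ρ hρ => ⟨φ (X i) * ρ, hS1 _ _ hρ,
        fun q => ?_⟩⟩
      · rw [ip_C_mul]; rfl
      · rw [pL_C_mul]; congr 1; ring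
    · refine ⟨fun q => dh f i q, fun s q => ip_dh f i s q,
        fun ρ hρ => ⟨- (DD φ θ i ρ + om φ θ Ω' i * ρ), S.neg_mem (hS2 i ρ hρ), fun q => ?_⟩⟩
      rw [pL_dh φ lam e G θ f hJ hGf hG i (fun m => DD_const φ θ i _ fun t => he t m), ← om_OmL]
      exact T_parts2 φ θ hJ hcomm T (OmL θ e G) Ω' hT i _ ρ
  | algebraMap r =>
    refine ⟨fun q => C (C r) * q, fun s q => ?_, fun ρ hρ => ⟨φ (C r) * ρ, hS1 _ _ hρ,
        fun q => ?_⟩⟩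
    · rw [ip_C_mul, C_mul']; rfl
    · rw [pL_C_mul]; congr 1; ring
  | add Q1 Q2 _ _ h1 h2 =>
    obtain ⟨A1, hA1, hB1⟩ := h1
    obtain ⟨A2, hA2, hB2⟩ := h2
    refine ⟨fun q => A1 q + A2 q, fun s q => ?_, fun ρ hρ => ?_⟩
    · rw [LinearMap.add_apply, hA1, hA2, map_add]
    · obtain ⟨ρ1, hρ1, hC1⟩ := hB1 ρ hρ
      obtain ⟨ρ2, hρ2, hC2⟩ := hB2 ρ hρ
      refine ⟨ρ1 + ρ2, S.add_mem hρ1 hρ2, fun q => ?_⟩
      rw [pL_add, mul_add, mul_add, map_add, hC1, hC2, add_mul, mul_add, map_add]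
  | mul Q1 Q2 _ _ h1 h2 =>
    obtain ⟨A1, hA1, hB1⟩ := h1
    obtain ⟨A2, hA2, hB2⟩ := h2
    refine ⟨fun q => A1 (A2 q), fun s q => ?_, fun ρ hρ => ?_⟩
    · rw [Module.End.mul_apply, hA2, hA1]
    · obtain ⟨ρ1, hρ1, hC1⟩ := hB1 ρ hρ
      obtain ⟨ρ2, hρ2, hC2⟩ := hB2 ρ1 hρ1
      exact ⟨ρ2, hρ2, fun q => by rw [hC1, hC2]⟩

theorem LL_mem (F : Filt L) (a : ℤ) (hwl : ∀ μ, wl e G μ ∈ F.ge (-a * μ.degree)) {d : ℤ}
    {P : MvPolynomial κ L} (hP : WK F a d P) : LL e G P ∈ F.ge d := by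
  rw [← support_sum_monomial_coeff P, map_sum]
  refine (F.ge d).sum_mem fun μ _ => ?_
  rw [LL_monomial]
  exact F.mem_of_eq (F.mul (hP μ) (hwl μ)) (by ring)

/-- **The engine.** -/
theorem engineL [CharZero L] (F : Filt L) (a : ℤ) (hJ : (Jac φ θ).det ≠ 0)
    (hcomm : ∀ s t u, θ s (θ t u) = θ t (θ s u)) (T : L →ₗ[ℂ] ℂ) (Ω' : σ → L)
    (hT : ∀ t u, T (θ t u + (OmL θ e G t + Ω' t) * u) = 0)
    (he : ∀ t m, θ t (e m) = 0)
    (hf : ∀ j, φ (f j) ∈ F.ge a)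
    (hGf : ∀ m, G m = ∑ j, algebraMap ℂ L (lam m j) * φ (f j))
    (hG : ∀ m, G m ≠ 0) (hwl : ∀ μ, wl e G μ ∈ F.ge (-a * μ.degree))
    (S : AddSubgroup L) (hS1 : ∀ p, ∀ u ∈ S, φ p * u ∈ S)
    (hS2 : ∀ i, ∀ u ∈ S, DD φ θ i u + om φ θ Ω' i * u ∈ S)
    (hT1 : ∀ ρ ∈ S, ∀ x ∈ F.ge a, T ((Jac φ θ).det * (ρ * x)) = 0)
    (b : Polynomial ℂ) (hb : IsFunctionalEq f b) (ρ : L) (hρ : ρ ∈ S) :
    T ((Jac φ θ).det * (ρ * Polynomial.aeval (∑ m, e m) b)) = 0 := by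
  classical
  obtain ⟨Sc, P, hc, heq⟩ := hb
  obtain ⟨bh, hbh1, hbh2⟩ := exists_bh φ lam e G f hGf hG b
  choose Th hTh1 hTh2 using fun β => exists_thetaPow φ f F a hf β
  have hlift := fun (Q : weyl σ) => lift_weyl2 φ θ f lam e G hJ hcomm T Ω' hT he hGf hG S hS1 hS2
    Q.1 Q.2
  choose Qh hQ1 hQ2 using hlift
  have key : bh = ∑ c ∈ Sc, ∑ β ∈ (P c).support, Qh (P c β) (Th β (qc f c)) := by
    rw [← sub_eq_zero]
    apply eq_zero_of_ip_E f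
    intro s
    rw [map_sub, hbh1, heq s, sub_eq_zero, map_sum]
    refine Finset.sum_congr rfl fun c _ => ?_
    rw [map_sum, applyAt, Finsupp.sum]
    refine Finset.sum_congr rfl fun β _ => ?_
    rw [← hQ1, hTh1, ip_qc, map_smul]
  rw [← hbh2, key, pL_sum]
  rw [Finset.mul_sum, Finset.mul_sum, map_sum]
  refine Finset.sum_eq_zero fun c hcS => ?_
  rw [pL_sum, Finset.mul_sum, Finset.mul_sum, map_sum]
  refine Finset.sum_eq_zero fun β _ => ?_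
  obtain ⟨ρ', hρ', h3⟩ := hQ2 (P c β) ρ hρ
  rw [h3]
  apply hT1 _ hρ'
  have h4 : WM F a φ a (Th β (qc f c)) := hTh2 β a _ (qc_WM φ f F a hf c (hc c hcS))
  exact LL_mem e G F a hwl (SS_WK F a φ lam h4)

end Lift

end Pool.Agent.Y230.RS
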