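import Pool.Agent.Y230.RS.Core

set_option autoImplicit false
set_option linter.unusedSectionVars false
set_option linter.unusedVariables false

/-! # The engine, for products of powers of linear forms with polynomial coefficients -/

namespace Pool.Agent.Y230.RS

open MvPolynomial Pool.Agent.W574.SM

section SS3

variable {σ ι κ L : Type} [Fintype ι] [DecidableEq ι] [Fintype κ] [DecidableEq κ] [Field L]
  [Algebra ℂ L] (φ : MvPolynomial σ ℂ →ₐ[ℂ] L) (Λ : κ → ι → MvPolynomial σ ℂ)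

/-- the linear form `∑_m Λ_{m j} Z_m` -/
noncomputable def ell3 (j : ι) : MvPolynomial κ L := ∑ m, C (φ (Λ m j)) * X m

/-- The substitution `∂_{t_j} ↦ ∑_m Λ_{m j} Z_m`. -/
noncomputable def S3 : MvPolynomial ι (MvPolynomial σ ℂ) →+* MvPolynomial κ L :=
  eval₂Hom ((C : L →+* MvPolynomial κ L).comp (φ : MvPolynomial σ ℂ →+* L)) (ell3 φ Λ)

theorem S3_C (a : MvPolynomial σ ℂ) : S3 φ Λ (C a) = C (φ a) := by
  simp [S3]

theorem S3_X (j : ι) : S3 φ Λ (X j) = ell3 φ Λ j := by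
  simp [S3]

theorem dcoef_mul {κ R : Type} [CommRing R] [Algebra ℂ R] (d : Derivation ℂ R R)
    (P Q : MvPolynomial κ R) : dcoef d (P * Q) = dcoef d P * Q + P * dcoef d Q := by
  classical
  induction P using MvPolynomial.induction_on with
  | C a =>
    have h : dcoef d (C a : MvPolynomial κ R) = C (d a) := by
      have h1 : (C a : MvPolynomial κ R) = monomial 0 a := rfl
      rw [h1, dcoef_monomial]; rfl
    rw [dcoef_C_mul, h]
  | add p q hp hq => rw [add_mul, dcoef_add, hp, hq, dcoef_add]; ring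
  | mul_X p j hp =>
    have h1 : p * X j * Q = X j * (p * Q) := by ring
    have h2 : p * X j = X j * p := by ring
    rw [h1, dcoef_X_mul, hp, h2, dcoef_X_mul]
    ring

theorem dcoef_ell3 (d : Derivation ℂ L L) (j : ι) :
    dcoef d (ell3 φ Λ j) = ∑ m, C (d (φ (Λ m j))) * X m := by
  rw [ell3, dcoef_sum]
  refine Finset.sum_congr rfl fun m _ => ?_
  have h : dcoef d (X m : MvPolynomial κ L) = 0 := by
    have h1 : (X m : MvPolynomial κ L) = X m * C 1 := by rw [C_1, mul_one]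
    have h2 : dcoef d (C 1 : MvPolynomial κ L) = 0 := by
      have h3 : (C 1 : MvPolynomial κ L) = monomial 0 1 := rfl
      rw [h3, dcoef_monomial, Derivation.map_one_eq_zero, map_zero]
    rw [h1, dcoef_X_mul, h2, mul_zero]
  rw [dcoef_C_mul, h, mul_zero, add_zero]

theorem S3_dcoef (d : Derivation ℂ L L)
    (d' : Derivation ℂ (MvPolynomial σ ℂ) (MvPolynomial σ ℂ)) (h : ∀ p, d (φ p) = φ (d' p))
    (q : MvPolynomial ι (MvPolynomial σ ℂ)) :
    dcoef d (S3 φ Λ q) = S3 φ Λ (dcoef d' q)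
      + ∑ j, (∑ m, C (φ (d' (Λ m j))) * X m) * S3 φ Λ (pderiv j q) := by
  classical
  induction q using MvPolynomial.induction_on with
  | C a =>
    rw [S3_C]
    have h1 : (C a : MvPolynomial ι (MvPolynomial σ ℂ)) = monomial 0 a := rfl
    have h2 : (C (φ a) : MvPolynomial κ L) = monomial 0 (φ a) := rfl
    have h3 : ∀ j, pderiv j (C a : MvPolynomial ι (MvPolynomial σ ℂ)) = 0 := fun j => pderiv_C
    simp only [h3, map_zero, mul_zero, Finset.sum_const_zero, add_zero]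
    rw [h1, h2, dcoef_monomial, dcoef_monomial, h]
    exact (S3_C φ Λ (d' a)).symm
  | add p q hp hq =>
    rw [map_add, dcoef_add, hp, hq, dcoef_add, map_add]
    simp only [map_add, mul_add, Finset.sum_add_distrib]
    ring
  | mul_X p k hp =>
    have h1 : p * X k = X k * p := by ring
    rw [h1, map_mul, S3_X, dcoef_mul, hp, dcoef_ell3, dcoef_X_mul, map_mul, S3_X]
    have h2 : ∀ j, (∑ m, C (φ (d' (Λ m j))) * X m) * S3 φ Λ (pderiv j (X k * p))
        = ell3 φ Λ k * ((∑ m, C (φ (d' (Λ m j))) * X m) * S3 φ Λ (pderiv j p))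
          + (if j = k then (∑ m, C (φ (d' (Λ m j))) * X m) * S3 φ Λ p else 0) := by
      intro j
      rw [Derivation.leibniz, pderiv_X]
      simp only [smul_eq_mul, Pi.single_apply, map_add, map_mul, S3_X]
      by_cases hjk : j = k
      · subst hjk; simp; ring
      · rw [if_neg hjk, if_neg (fun h => hjk h.symm)]; simp; ring
    simp only [h2, Finset.sum_add_distrib, h]
    rw [Finset.sum_ite_eq' Finset.univ k, if_pos (Finset.mem_univ k), ← Finset.mul_sum]
    ring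

theorem S3_pderiv (m : κ) (q : MvPolynomial ι (MvPolynomial σ ℂ)) :
    pderiv m (S3 φ Λ q) = ∑ j, C (φ (Λ m j)) * S3 φ Λ (pderiv j q) := by
  induction q using MvPolynomial.induction_on with
  | C a =>
    rw [S3_C, pderiv_C]
    simp
  | add p q hp hq =>
    rw [map_add, map_add, hp, hq, ← Finset.sum_add_distrib]
    refine Finset.sum_congr rfl fun j _ => ?_
    rw [map_add, map_add, mul_add]
  | mul_X p k hp =>
    have h1 : pderiv m (ell3 φ Λ k) = C (φ (Λ m k)) := by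
      rw [ell3, map_sum, Finset.sum_eq_single m]
      · rw [Derivation.leibniz, pderiv_X_self, pderiv_C]; simp
      · intro n _ hn
        rw [Derivation.leibniz, pderiv_X_of_ne hn, pderiv_C]; simp
      · simp
    rw [map_mul, S3_X, Derivation.leibniz, hp, h1]
    have h2 : ∀ j, C (φ (Λ m j)) * S3 φ Λ (pderiv j (p * X k))
        = ell3 φ Λ k * (C (φ (Λ m j)) * S3 φ Λ (pderiv j p))
          + (if j = k then C (φ (Λ m j)) * S3 φ Λ p else 0) := by
      intro j
      rw [Derivation.leibniz, pderiv_X]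
      simp only [smul_eq_mul, Pi.single_apply, map_add, map_mul, S3_X]
      by_cases hjk : j = k
      · subst hjk; simp; ring
      · rw [if_neg hjk, if_neg (fun h => hjk h.symm)]; simp; ring
    simp only [h2, Finset.sum_add_distrib]
    rw [Finset.sum_ite_eq' Finset.univ k, if_pos (Finset.mem_univ k), ← Finset.mul_sum]
    simp only [smul_eq_mul]
    ring

end SS3

section Weights

variable {σ ι κ L : Type} [Fintype ι] [DecidableEq ι] [Fintype κ] [DecidableEq κ] [Field L]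
  [Algebra ℂ L] (F : Filt L) (a : ℤ) (φ : MvPolynomial σ ℂ →ₐ[ℂ] L)
  (Λ : κ → ι → MvPolynomial σ ℂ)

theorem S3_monomial_WK (hφ : ∀ p, φ p ∈ F.ge 0) (p : MvPolynomial σ ℂ) (γ : ι →₀ ℕ) :
    ∀ d : ℤ, φ p ∈ F.ge (d + a * γ.degree) → WK F a d (S3 φ Λ (monomial γ p)) := by
  induction γ using finsupp_ind with
  | h0 =>
    intro d h
    have h1 : (monomial 0 p : MvPolynomial ι (MvPolynomial σ ℂ)) = C p := rfl
    rw [h1, S3_C]
    intro μ
    rw [coeff_C]
    split_ifs with h2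
    · subst h2
      simpa using h
    · exact (F.ge _).zero_mem
  | h1 γ j ih =>
    intro d h
    rw [← X_mul_monomial, map_mul, S3_X]
    have h2 := ih (d + a) (F.mem_of_eq h (by
      rw [map_add, Finsupp.degree_single]; push_cast; ring))
    rw [ell3, Finset.sum_mul]
    refine WK_sum F a _ fun m _ => ?_
    rw [mul_assoc]
    have h3 := WK_C_mul F a (hφ (Λ m j)) (WK_X_mul F a m h2)
    rwa [zero_add, add_sub_cancel_right] at h3

theorem S3_WK (hφ : ∀ p, φ p ∈ F.ge 0) {d : ℤ} {q : MvPolynomial ι (MvPolynomial σ ℂ)}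
    (hq : WM F a φ d q) : WK F a d (S3 φ Λ q) := by
  rw [← support_sum_monomial_coeff q, map_sum]
  exact WK_sum F a _ fun γ _ => S3_monomial_WK F a φ Λ hφ _ γ d (hq γ)

/-- multiplication by `t_j` -/
noncomputable def tm (f : ι → MvPolynomial σ ℂ) (j : ι) (q : MvPolynomial ι (MvPolynomial σ ℂ)) :
    MvPolynomial ι (MvPolynomial σ ℂ) := C (f j) * q + pderiv j q

theorem tm_WM (f : ι → MvPolynomial σ ℂ) (hf : ∀ j, φ (f j) ∈ F.ge a) (j : ι) {d : ℤ}
    {q : MvPolynomial ι (MvPolynomial σ ℂ)} (hq : WM F a φ d q) :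
    WM F a φ (d + a) (tm f j q) := by
  intro γ
  rw [tm, coeff_add, coeff_C_mul, coeff_pderiv, map_add, map_mul, map_mul]
  refine (F.ge _).add_mem ?_ ?_
  · exact F.mem_of_eq (F.mul (hf j) (hq _)) (by ring)
  · have h3 : φ (((γ j : ℕ) : MvPolynomial σ ℂ) + 1) ∈ F.ge 0 := by
      have : φ (((γ j : ℕ) : MvPolynomial σ ℂ) + 1) = ((γ j + 1 : ℕ) : L) := by simp
      rw [this]
      exact Filt.natCast _
    refine F.mem_of_eq (F.mul (hq (γ + Finsupp.single j 1)) h3) ?_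
    rw [map_add, Finsupp.degree_single]
    push_cast
    ring

/-- a product of multiplications by the `t_j` -/
noncomputable def tml (f : ι → MvPolynomial σ ℂ) :
    List ι → MvPolynomial ι (MvPolynomial σ ℂ) → MvPolynomial ι (MvPolynomial σ ℂ)
  | [], q => q
  | j :: l, q => tm f j (tml f l q)

theorem tml_WM (f : ι → MvPolynomial σ ℂ) (hf : ∀ j, φ (f j) ∈ F.ge a) (l : List ι) {d : ℤ}
    {q : MvPolynomial ι (MvPolynomial σ ℂ)} (hq : WM F a φ d q) :
    WM F a φ (d + a * l.length) (tml f l q) := by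
  induction l with
  | nil => simpa [tml] using hq
  | cons j l ih =>
    have h := tm_WM F a φ f hf j ih
    rw [List.length_cons]
    have h2 : d + a * ((l.length + 1 : ℕ) : ℤ) = d + a * l.length + a := by push_cast; ring
    rw [h2]
    exact h

theorem tm_C_mul (f : ι → MvPolynomial σ ℂ) (j : ι) (p : MvPolynomial σ ℂ)
    (q : MvPolynomial ι (MvPolynomial σ ℂ)) : tm f j (C p * q) = C p * tm f j q := by
  rw [tm, tm, Derivation.leibniz, pderiv_C, smul_zero, add_zero, smul_eq_mul]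
  ring

theorem tm_dh (f : ι → MvPolynomial σ ℂ) (j : ι) (i : σ) [DecidableEq σ]
    (q : MvPolynomial ι (MvPolynomial σ ℂ)) : tm f j (dh f i q) = dh f i (tm f j q) := by
  have h1 : pderiv j (∑ k, C (pderiv i (f k)) * X k : MvPolynomial ι (MvPolynomial σ ℂ))
      = C (pderiv i (f j)) := by
    rw [map_sum, Finset.sum_eq_single j]
    · rw [Derivation.leibniz, pderiv_X_self, pderiv_C]; simp
    · intro k _ hk
      rw [Derivation.leibniz, pderiv_X_of_ne hk, pderiv_C]; simp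
    · simp
  have h2 : pderiv j (dcoef (pderiv i) q) = dcoef (pderiv i) (pderiv j q) := by
    refine MvPolynomial.ext _ _ fun γ => ?_
    rw [coeff_pderiv, coeff_dcoef, coeff_dcoef, coeff_pderiv, Derivation.leibniz]
    have h3 : pderiv i (((γ j : ℕ) : MvPolynomial σ ℂ) + 1) = 0 := by
      have : (((γ j : ℕ) : MvPolynomial σ ℂ) + 1) = C ((γ j : ℂ) + 1) := by simp
      rw [this, pderiv_C]
    rw [h3, smul_zero, zero_add, smul_eq_mul, mul_comm]
  rw [tm, dh, dh, tm, map_add, Derivation.leibniz, h1, h2, dcoef_add, dcoef_C_mul]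
  simp only [smul_eq_mul]
  ring

theorem tml_C_mul (f : ι → MvPolynomial σ ℂ) (l : List ι) (p : MvPolynomial σ ℂ)
    (q : MvPolynomial ι (MvPolynomial σ ℂ)) : tml f l (C p * q) = C p * tml f l q := by
  induction l with
  | nil => rfl
  | cons j l ih => rw [tml, ih, tm_C_mul, tml]

theorem tml_dh (f : ι → MvPolynomial σ ℂ) (l : List ι) (i : σ) [DecidableEq σ]
    (q : MvPolynomial ι (MvPolynomial σ ℂ)) : tml f l (dh f i q) = dh f i (tml f l q) := by
  induction l with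
  | nil => rfl
  | cons j l ih => rw [tml, ih, tm_dh, tml]

end Weights

section Pair3

variable {σ ι κ L : Type} [Fintype σ] [DecidableEq σ] [Fintype ι] [DecidableEq ι] [Fintype κ]
  [DecidableEq κ] [Field L] [Algebra ℂ L]
  (φ : MvPolynomial σ ℂ →ₐ[ℂ] L) (θ : σ → Derivation ℂ L L) (f : ι → MvPolynomial σ ℂ)
  (Λ : κ → ι → MvPolynomial σ ℂ) (e : κ → L) (G : κ → L)

/-- the pairing, with a test polynomial in the `Z_m` -/
noncomputable def p3 (P : MvPolynomial κ (MvPolynomial σ ℂ))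
    (q : MvPolynomial ι (MvPolynomial σ ℂ)) : L :=
  LL e G (map (φ : MvPolynomial σ ℂ →+* L) P * S3 φ Λ q)

theorem p3_add_left (P P' : MvPolynomial κ (MvPolynomial σ ℂ))
    (q : MvPolynomial ι (MvPolynomial σ ℂ)) :
    p3 φ Λ e G (P + P') q = p3 φ Λ e G P q + p3 φ Λ e G P' q := by
  rw [p3, map_add, add_mul, map_add]; rfl

theorem p3_add (P : MvPolynomial κ (MvPolynomial σ ℂ))
    (q q' : MvPolynomial ι (MvPolynomial σ ℂ)) :
    p3 φ Λ e G P (q + q') = p3 φ Λ e G P q + p3 φ Λ e G P q' := by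
  rw [p3, map_add, mul_add, map_add]; rfl

theorem p3_sum (P : MvPolynomial κ (MvPolynomial σ ℂ)) {α : Type} (s : Finset α)
    (q : α → MvPolynomial ι (MvPolynomial σ ℂ)) :
    p3 φ Λ e G P (∑ i ∈ s, q i) = ∑ i ∈ s, p3 φ Λ e G P (q i) := by
  rw [p3, map_sum, Finset.mul_sum, map_sum]; rfl

theorem p3_C_mul (P : MvPolynomial κ (MvPolynomial σ ℂ)) (p : MvPolynomial σ ℂ)
    (q : MvPolynomial ι (MvPolynomial σ ℂ)) :
    p3 φ Λ e G P (C p * q) = p3 φ Λ e G (C p * P) q := by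
  have h : map (φ : MvPolynomial σ ℂ →+* L) P * S3 φ Λ (C p * q)
      = map (φ : MvPolynomial σ ℂ →+* L) (C p * P) * S3 φ Λ q := by
    rw [map_mul, map_mul, S3_C, map_C]
    have : (C ((φ : MvPolynomial σ ℂ →+* L) p) : MvPolynomial κ L) = C (φ p) := rfl
    rw [this]
    ring
  rw [p3, p3, h]

theorem p3_dh (hJ : (Jac φ θ).det ≠ 0) (hGf : ∀ m, G m = ∑ j, φ (Λ m j) * φ (f j))
    (hG : ∀ m, G m ≠ 0) (i : σ) (he : ∀ m, DD φ θ i (e m) = 0)
    (P : MvPolynomial κ (MvPolynomial σ ℂ)) (q : MvPolynomial ι (MvPolynomial σ ℂ)) :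
    p3 φ Λ e G P (dh f i q) = DD φ θ i (p3 φ Λ e G P q)
      + (∑ m, e m * (DD φ θ i (G m) * (G m)⁻¹)) * p3 φ Λ e G P q
      - p3 φ Λ e G (dcoef (pderiv i) P) q
      - ∑ m, ∑ j, p3 φ Λ e G (C (pderiv i (Λ m j)) * X m * P) (tm f j q) := by
  have hφ := fun p => DD_phi φ θ hJ i p
  have hcomp : ∀ p : MvPolynomial σ ℂ, (φ : MvPolynomial σ ℂ →+* L) p = φ p := fun p => rfl
  have h1 : (∑ m, C (DD φ θ i (G m)) * X m : MvPolynomial κ L)
      = S3 φ Λ (∑ j, C (pderiv i (f j)) * X j)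
        + ∑ m, ∑ j, C (φ (pderiv i (Λ m j)) * φ (f j)) * X m := by
    rw [map_sum]
    simp only [map_mul, S3_C, S3_X, ell3, Finset.mul_sum, hGf]
    rw [Finset.sum_comm, ← Finset.sum_add_distrib]
    refine Finset.sum_congr rfl fun m _ => ?_
    rw [map_sum, map_sum, Finset.sum_mul, ← Finset.sum_add_distrib]
    refine Finset.sum_congr rfl fun j _ => ?_
    rw [Derivation.leibniz, smul_eq_mul, smul_eq_mul, hφ, hφ, C_add, C_mul, C_mul]
    ring
  have h2 : dcoef (DD φ θ i) (map (φ : MvPolynomial σ ℂ →+* L) P * S3 φ Λ q)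
      + (∑ m, C (DD φ θ i (G m)) * X m) * (map (φ : MvPolynomial σ ℂ →+* L) P * S3 φ Λ q)
      = map (φ : MvPolynomial σ ℂ →+* L) (dcoef (pderiv i) P) * S3 φ Λ q
        + map (φ : MvPolynomial σ ℂ →+* L) P * S3 φ Λ (dh f i q)
        + ∑ m, ∑ j, map (φ : MvPolynomial σ ℂ →+* L) (C (pderiv i (Λ m j)) * X m * P)
            * S3 φ Λ (tm f j q) := by
    rw [dcoef_mul, map_dcoef φ (DD φ θ i) (pderiv i) hφ, S3_dcoef φ Λ (DD φ θ i) (pderiv i) hφ,
      h1, dh, map_add, map_mul]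
    have h3 : ∀ (m : κ) (j : ι), map (φ : MvPolynomial σ ℂ →+* L) (C (pderiv i (Λ m j)) * X m * P)
            * S3 φ Λ (tm f j q)
        = map (φ : MvPolynomial σ ℂ →+* L) P * (C (φ (pderiv i (Λ m j))) * X m
            * S3 φ Λ (pderiv j q))
          + (C (φ (pderiv i (Λ m j)) * φ (f j)) * X m)
            * (map (φ : MvPolynomial σ ℂ →+* L) P * S3 φ Λ q) := by
      intro m j
      rw [tm, map_add, map_mul, map_mul, map_mul, map_C, map_X, S3_C, hcomp, C_mul]
      ring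
    simp only [h3, Finset.sum_add_distrib, ← Finset.sum_mul, ← Finset.mul_sum]
    have h4 : ∑ j, (∑ m, C (φ (pderiv i (Λ m j))) * X m) * S3 φ Λ (pderiv j q)
        = ∑ m, ∑ j, C (φ (pderiv i (Λ m j))) * X m * S3 φ Λ (pderiv j q) := by
      rw [Finset.sum_comm]
      refine Finset.sum_congr rfl fun j _ => ?_
      rw [Finset.sum_mul]
    rw [h4]
    ring
  have h5 := LL_deriv e G hG (DD φ θ i) he (map (φ : MvPolynomial σ ℂ →+* L) P * S3 φ Λ q)
  rw [h2, map_add, map_add, map_sum] at h5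
  simp only [map_sum] at h5
  simp only [p3]
  rw [h5]
  ring

/-- one step -/
theorem T_p3_dh [CharZero L] (hJ : (Jac φ θ).det ≠ 0)
    (hcomm : ∀ s t u, θ s (θ t u) = θ t (θ s u)) (T : L →ₗ[ℂ] ℂ)
    (hT : ∀ t u, T (θ t u + OmL θ e G t * u) = 0)
    (he : ∀ t m, θ t (e m) = 0) (hGf : ∀ m, G m = ∑ j, φ (Λ m j) * φ (f j))
    (hG : ∀ m, G m ≠ 0) (i : σ)
    (P : MvPolynomial κ (MvPolynomial σ ℂ)) (q : MvPolynomial ι (MvPolynomial σ ℂ)) :
    T ((Jac φ θ).det * p3 φ Λ e G P (dh f i q))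
      = T ((Jac φ θ).det * p3 φ Λ e G (- dcoef (pderiv i) P) q)
        + ∑ m, ∑ j, T ((Jac φ θ).det *
            p3 φ Λ e G (-(C (pderiv i (Λ m j)) * X m * P)) (tm f j q)) := by
  rw [p3_dh φ θ f Λ e G hJ hGf hG i (fun m => DD_const φ θ i _ fun t => he t m), ← om_OmL]
  have h1 := T_DD_tw φ θ hJ hcomm T (OmL θ e G) hT i (p3 φ Λ e G P q)
  have hneg : ∀ (P' : MvPolynomial κ (MvPolynomial σ ℂ)) (q' : MvPolynomial ι (MvPolynomial σ ℂ)),
      p3 φ Λ e G (-P') q' = - p3 φ Λ e G P' q' := by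
    intro P' q'
    rw [p3, map_neg, neg_mul, map_neg]; rfl
  simp only [hneg, mul_neg, map_neg, Finset.sum_neg_distrib]
  have h2 : (Jac φ θ).det * (DD φ θ i (p3 φ Λ e G P q)
      + om φ θ (OmL θ e G) i * p3 φ Λ e G P q
      - p3 φ Λ e G (dcoef (pderiv i) P) q
      - ∑ m, ∑ j, p3 φ Λ e G (C (pderiv i (Λ m j)) * X m * P) (tm f j q))
      = (Jac φ θ).det * (DD φ θ i (p3 φ Λ e G P q) + om φ θ (OmL θ e G) i * p3 φ Λ e G P q)
      - (Jac φ θ).det * p3 φ Λ e G (dcoef (pderiv i) P) q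
      - ∑ m, ∑ j, (Jac φ θ).det * p3 φ Λ e G (C (pderiv i (Λ m j)) * X m * P) (tm f j q) := by
    simp only [mul_sub, mul_add, Finset.mul_sum]
  rw [h2, map_sub, map_sub, h1, zero_sub, map_sum]
  simp only [map_sum]
  ring

/-- the functionals on `A[∂_t]` which are obtained -/
inductive Fun3 (T : L →ₗ[ℂ] ℂ) : (MvPolynomial ι (MvPolynomial σ ℂ) → ℂ) → Prop
  | basic (P : MvPolynomial κ (MvPolynomial σ ℂ)) (l : List ι) (h : P.totalDegree ≤ l.length) :
      Fun3 T fun q => T ((Jac φ θ).det * p3 φ Λ e G P (tml f l q))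
  | add (ψ ψ' : MvPolynomial ι (MvPolynomial σ ℂ) → ℂ) :
      Fun3 T ψ → Fun3 T ψ' → Fun3 T fun q => ψ q + ψ' q

theorem Fun3.sum (T : L →ₗ[ℂ] ℂ) {α : Type} (s : Finset α) (hs : s.Nonempty)
    (ψ : α → MvPolynomial ι (MvPolynomial σ ℂ) → ℂ)
    (h : ∀ i ∈ s, Fun3 φ θ f Λ e G T (ψ i)) : Fun3 φ θ f Λ e G T fun q => ∑ i ∈ s, ψ i q := by
  classical
  induction hs using Finset.Nonempty.cons_induction with
  | singleton a =>
    simp only [Finset.sum_singleton]
    exact h a (Finset.mem_singleton_self a)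
  | cons a s ha hs ih =>
    simp only [Finset.sum_cons]
    exact Fun3.add _ _ (h a (Finset.mem_cons_self a s))
      (ih fun i hi => h i (Finset.mem_cons_of_mem hi))

theorem totalDegree_dcoef_le (d : Derivation ℂ (MvPolynomial σ ℂ) (MvPolynomial σ ℂ))
    (P : MvPolynomial κ (MvPolynomial σ ℂ)) : (dcoef d P).totalDegree ≤ P.totalDegree := by
  refine Finset.sup_mono ?_
  intro μ hμ
  rw [mem_support_iff, coeff_dcoef] at hμ
  rw [mem_support_iff]
  intro h
  rw [h, map_zero] at hμ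
  exact hμ rfl

theorem Fun3.comp_dh [CharZero L] (hJ : (Jac φ θ).det ≠ 0)
    (hcomm : ∀ s t u, θ s (θ t u) = θ t (θ s u)) (T : L →ₗ[ℂ] ℂ)
    (hT : ∀ t u, T (θ t u + OmL θ e G t * u) = 0)
    (he : ∀ t m, θ t (e m) = 0) (hGf : ∀ m, G m = ∑ j, φ (Λ m j) * φ (f j))
    (hG : ∀ m, G m ≠ 0) (i : σ) (ψ : MvPolynomial ι (MvPolynomial σ ℂ) → ℂ)
    (hψ : Fun3 φ θ f Λ e G T ψ) : Fun3 φ θ f Λ e G T fun q => ψ (dh f i q) := by
  induction hψ with
  | basic P l h =>
    have h0 : (fun q => T ((Jac φ θ).det * p3 φ Λ e G P (tml f l (dh f i q))))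
        = fun q => T ((Jac φ θ).det * p3 φ Λ e G (- dcoef (pderiv i) P) (tml f l q))
        + ∑ x : κ × ι, T ((Jac φ θ).det *
            p3 φ Λ e G (-(C (pderiv i (Λ x.1 x.2)) * X x.1 * P)) (tml f (x.2 :: l) q)) := by
      funext q
      rw [tml_dh, T_p3_dh φ θ f Λ e G hJ hcomm T hT he hGf hG i, Fintype.sum_prod_type]
      rfl
    rw [h0]
    have h1 : Fun3 φ θ f Λ e G T fun q =>
        T ((Jac φ θ).det * p3 φ Λ e G (- dcoef (pderiv i) P) (tml f l q)) := by
      refine Fun3.basic _ l ?_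
      rw [totalDegree_neg]
      exact (totalDegree_dcoef_le _ P).trans h
    rcases isEmpty_or_nonempty (κ × ι) with hne | hne
    · simp only [Finset.univ_eq_empty, Finset.sum_empty, add_zero]
      exact h1
    · refine Fun3.add _ _ h1 (Fun3.sum φ θ f Λ e G T Finset.univ Finset.univ_nonempty _
        fun x _ => ?_)
      refine Fun3.basic _ (x.2 :: l) ?_
      rw [totalDegree_neg, List.length_cons]
      have h2 : (C (pderiv i (Λ x.1 x.2)) * X x.1 : MvPolynomial κ (MvPolynomial σ ℂ)).totalDegree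
          ≤ 1 := by
        refine (totalDegree_mul _ _).trans ?_
        rw [totalDegree_C, zero_add]
        exact (totalDegree_X (R := MvPolynomial σ ℂ) x.1).le
      refine (totalDegree_mul _ _).trans ?_
      omega
  | add ψ ψ' _ _ h1 h2 => exact Fun3.add _ _ h1 h2

theorem Fun3.comp_C (T : L →ₗ[ℂ] ℂ) (p : MvPolynomial σ ℂ)
    (ψ : MvPolynomial ι (MvPolynomial σ ℂ) → ℂ)
    (hψ : Fun3 φ θ f Λ e G T ψ) : Fun3 φ θ f Λ e G T fun q => ψ (C p * q) := by
  induction hψ with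
  | basic P l h =>
    have h0 : (fun q => T ((Jac φ θ).det * p3 φ Λ e G P (tml f l (C p * q))))
        = fun q => T ((Jac φ θ).det * p3 φ Λ e G (C p * P) (tml f l q)) := by
      funext q
      rw [tml_C_mul, p3_C_mul]
    rw [h0]
    refine Fun3.basic _ l ?_
    refine (totalDegree_mul _ _).trans ?_
    rw [totalDegree_C, zero_add]
    exact h
  | add ψ ψ' _ _ h1 h2 => exact Fun3.add _ _ h1 h2

theorem lift_weyl3 [CharZero L] (hJ : (Jac φ θ).det ≠ 0)
    (hcomm : ∀ s t u, θ s (θ t u) = θ t (θ s u)) (T : L →ₗ[ℂ] ℂ)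
    (hT : ∀ t u, T (θ t u + OmL θ e G t * u) = 0)
    (he : ∀ t m, θ t (e m) = 0)
    (hGf : ∀ m, G m = ∑ j, φ (Λ m j) * φ (f j))
    (hG : ∀ m, G m ≠ 0)
    (Q : Module.End ℂ (MvPolynomial σ ℂ)) (hQ : Q ∈ weyl σ) :
    ∃ Qh : MvPolynomial ι (MvPolynomial σ ℂ) → MvPolynomial ι (MvPolynomial σ ℂ),
      (∀ s q, Q (ip (E f s) q) = ip (E f s) (Qh q)) ∧
      ∀ ψ, Fun3 φ θ f Λ e G T ψ → Fun3 φ θ f Λ e G T fun q => ψ (Qh q) := by
  induction hQ using Algebra.adjoin_induction with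
  | mem Q hQ =>
    rcases hQ with ⟨i, rfl⟩ | ⟨i, rfl⟩
    · refine ⟨fun q => C (X i) * q, fun s q => ?_, fun ψ hψ => Fun3.comp_C φ θ f Λ e G T _ ψ hψ⟩
      rw [ip_C_mul]; rfl
    · exact ⟨fun q => dh f i q, fun s q => ip_dh f i s q, fun ψ hψ =>
        Fun3.comp_dh φ θ f Λ e G hJ hcomm T hT he hGf hG i ψ hψ⟩
  | algebraMap r =>
    refine ⟨fun q => C (C r) * q, fun s q => ?_, fun ψ hψ => Fun3.comp_C φ θ f Λ e G T _ ψ hψ⟩
    rw [ip_C_mul, C_mul']; rfl
  | add Q1 Q2 _ _ h1 h2 =>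
    obtain ⟨A1, hA1, hB1⟩ := h1
    obtain ⟨A2, hA2, hB2⟩ := h2
    refine ⟨fun q => A1 q + A2 q, fun s q => ?_, fun ψ hψ => ?_⟩
    · rw [LinearMap.add_apply, hA1, hA2, map_add]
    · have hadd : ∀ ψ, Fun3 φ θ f Λ e G T ψ → ∀ q q', ψ (q + q') = ψ q + ψ q' := by
        intro ψ hψ
        induction hψ with
        | basic P l h =>
          intro q q'
          have h3 : tml f l (q + q') = tml f l q + tml f l q' := by
            clear h
            induction l with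
            | nil => rfl
            | cons j l ih => rw [tml, ih, tm, map_add, tml, tml, tm, tm]; ring
          beta_reduce
          rw [h3, p3_add, mul_add, map_add]
        | add ψ ψ' _ _ h1 h2 =>
          intro q q'
          beta_reduce
          rw [h1, h2]
          ring
      have h3 : (fun q => ψ (A1 q + A2 q)) = fun q => ψ (A1 q) + ψ (A2 q) := by
        funext q; exact hadd ψ hψ _ _
      rw [h3]
      exact Fun3.add _ _ (hB1 ψ hψ) (hB2 ψ hψ)
  | mul Q1 Q2 _ _ h1 h2 =>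
    obtain ⟨A1, hA1, hB1⟩ := h1
    obtain ⟨A2, hA2, hB2⟩ := h2
    refine ⟨fun q => A1 (A2 q), fun s q => ?_, fun ψ hψ => hB2 _ (hB1 ψ hψ)⟩
    rw [Module.End.mul_apply, hA2, hA1]

theorem p3_mem (F : Filt L) (a : ℤ) (ha : 0 ≤ a)
    (hwl : ∀ μ, wl e G μ ∈ F.ge (-a * μ.degree)) (hφ : ∀ p, φ p ∈ F.ge 0)
    (P : MvPolynomial κ (MvPolynomial σ ℂ)) (n : ℕ) (hP : P.totalDegree ≤ n)
    {d : ℤ} {q : MvPolynomial ι (MvPolynomial σ ℂ)} (hq : WM F a φ (d + a * n) q) :
    p3 φ Λ e G P q ∈ F.ge d := by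
  refine LL_mem e G F a hwl fun μ => ?_
  have h1 := S3_WK F a φ Λ hφ hq
  rw [coeff_mul]
  refine (F.ge _).sum_mem fun x hx => ?_
  rw [Finset.HasAntidiagonal.mem_antidiagonal] at hx
  by_cases hc : coeff x.1 P = 0
  · rw [coeff_map, hc, map_zero, zero_mul]
    exact (F.ge _).zero_mem
  · have h2 : x.1.degree ≤ n := by
      refine le_trans ?_ hP
      have h3 := le_totalDegree (mem_support_iff.2 hc)
      rwa [Finsupp.degree_eq_sum, ← Finsupp.sum_fintype x.1 (fun _ e => e) (by simp)]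
    have h4 := F.mul (u := coeff x.1 (map (φ : MvPolynomial σ ℂ →+* L) P)) (d := 0)
      (by rw [coeff_map]; exact hφ _) (h1 x.2)
    refine F.mono ?_ h4
    have h5 : (μ.degree : ℤ) = x.1.degree + x.2.degree := by
      rw [← hx, map_add]; push_cast; ring
    rw [h5]
    have h6 : a * x.1.degree ≤ a * n := mul_le_mul_of_nonneg_left (by exact_mod_cast h2) ha
    linarith

theorem p3_one (hGf : ∀ m, G m = ∑ j, φ (Λ m j) * φ (f j)) (p : MvPolynomial σ ℂ)
    (q : MvPolynomial ι (MvPolynomial σ ℂ)) :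
    p3 φ Λ e G (C p) q = φ p * LL e G (S3 φ Λ q) := by
  rw [p3, map_C, C_mul', map_smul, smul_eq_mul]
  rfl

theorem p3_thetaTot (hGf : ∀ m, G m = ∑ j, φ (Λ m j) * φ (f j))
    (hG : ∀ m, G m ≠ 0) (q : MvPolynomial ι (MvPolynomial σ ℂ)) :
    LL e G (S3 φ Λ (thetaTot f q)) = (∑ m, e m) * LL e G (S3 φ Λ q) := by
  have h1 : S3 φ Λ (thetaTot f q) = ∑ m, (C (G m) * X m * S3 φ Λ q
      + X m * pderiv m (S3 φ Λ q)) := by
    rw [thetaTot, map_sum, Finset.sum_add_distrib]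
    have h2 : ∀ j, S3 φ Λ (theta f j q) = ∑ m, (C (φ (Λ m j) * φ (f j)) * X m *
        S3 φ Λ q + X m * (C (φ (Λ m j)) * S3 φ Λ (pderiv j q))) := by
      intro j
      rw [theta, map_mul, map_add, map_mul, S3_X, S3_C, ell3, Finset.sum_mul]
      refine Finset.sum_congr rfl fun m _ => ?_
      rw [C_mul]
      ring
    simp only [h2]
    rw [Finset.sum_comm, ← Finset.sum_add_distrib]
    refine Finset.sum_congr rfl fun m _ => ?_
    rw [Finset.sum_add_distrib, S3_pderiv, ← Finset.mul_sum]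
    congr 1
    rw [hGf, map_sum, Finset.sum_mul, Finset.sum_mul]
  rw [h1, map_sum]
  simp only [LL_euler e G hG]
  rw [← Finset.sum_mul]

theorem exists_bh3 (hGf : ∀ m, G m = ∑ j, φ (Λ m j) * φ (f j))
    (hG : ∀ m, G m ≠ 0) (b : Polynomial ℂ) :
    ∃ bh : MvPolynomial ι (MvPolynomial σ ℂ),
      (∀ s : ι →₀ ℕ, ip (E f s) bh = C (b.eval ((∑ j, s j : ℕ) : ℂ)) * ∏ j, f j ^ s j) ∧
      LL e G (S3 φ Λ bh) = Polynomial.aeval (∑ m, e m) b := by
  induction b using Polynomial.induction_on' with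
  | add p q hp hq =>
    obtain ⟨b1, h1, h1'⟩ := hp
    obtain ⟨b2, h2, h2'⟩ := hq
    refine ⟨b1 + b2, fun s => ?_, ?_⟩
    · rw [map_add, h1, h2, Polynomial.eval_add, C_add, add_mul]
    · rw [map_add, map_add, h1', h2', map_add]
  | monomial n a =>
    refine ⟨C (C a) * (thetaTot f)^[n] 1, fun s => ?_, ?_⟩
    · rw [ip_C_mul, Polynomial.eval_monomial, C_mul, mul_assoc]
      congr 1
      induction n with
      | zero =>
        have h := ip_E_monomial f 0 s (1 : MvPolynomial σ ℂ)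
        have h1 : (monomial 0 1 : MvPolynomial ι (MvPolynomial σ ℂ)) = 1 := rfl
        rw [h1] at h
        simpa using h
      | succ n ih =>
        rw [Function.iterate_succ_apply', ip_thetaTot, ih, pow_succ, C_mul]
        ring
    · rw [map_mul, S3_C, C_mul', map_smul, smul_eq_mul, Polynomial.aeval_monomial]
      have h0 : φ (C a) = algebraMap ℂ L a := φ.commutes a
      rw [h0]
      congr 1
      induction n with
      | zero => simp [LL_one]
      | succ n ih =>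
        rw [Function.iterate_succ_apply', p3_thetaTot φ f Λ e G hGf hG, ih, pow_succ]
        ring

/-- **The engine.** -/
theorem engine3 [CharZero L] (F : Filt L) (a : ℤ) (ha : 0 ≤ a) (hJ : (Jac φ θ).det ≠ 0)
    (hcomm : ∀ s t u, θ s (θ t u) = θ t (θ s u)) (T : L →ₗ[ℂ] ℂ)
    (hT : ∀ t u, T (θ t u + OmL θ e G t * u) = 0)
    (he : ∀ t m, θ t (e m) = 0)
    (hf : ∀ j, φ (f j) ∈ F.ge a) (hφ : ∀ p, φ p ∈ F.ge 0)
    (hGf : ∀ m, G m = ∑ j, φ (Λ m j) * φ (f j))
    (hG : ∀ m, G m ≠ 0) (hwl : ∀ μ, wl e G μ ∈ F.ge (-a * μ.degree))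
    (hT1 : ∀ x ∈ F.ge a, T ((Jac φ θ).det * x) = 0)
    (b : Polynomial ℂ) (hb : IsFunctionalEq f b) (p : MvPolynomial σ ℂ) :
    T ((Jac φ θ).det * (φ p * Polynomial.aeval (∑ m, e m) b)) = 0 := by
  classical
  obtain ⟨Sc, P, hc, heq⟩ := hb
  obtain ⟨bh, hbh1, hbh2⟩ := exists_bh3 φ f Λ e G hGf hG b
  choose Th hTh1 hTh2 using fun β => exists_thetaPow φ f F a hf β
  have hlift := fun (Q : weyl σ) => lift_weyl3 φ θ f Λ e G hJ hcomm T hT he hGf hG Q.1 Q.2
  choose Qh hQ1 hQ2 using hlift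
  have key : bh = ∑ c ∈ Sc, ∑ β ∈ (P c).support, Qh (P c β) (Th β (qc f c)) := by
    rw [← sub_eq_zero]
    apply eq_zero_of_ip_E f
    intro s
    rw [map_sub, hbh1, heq s, sub_eq_zero, map_sum]
    refine Finset.sum_congr rfl fun c _ => ?_
    rw [map_sum, applyAt, Finsupp.sum]
    refine Finset.sum_congr rfl fun β _ => ?_
    rw [← hQ1, hTh1, ip_qc, map_smul]
  have hvan : ∀ ψ, Fun3 φ θ f Λ e G T ψ → ∀ q, WM F a φ a q → ψ q = 0 := by
    intro ψ hψ
    induction hψ with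
    | basic P l h =>
      intro q hq
      apply hT1
      exact p3_mem φ Λ e G F a ha hwl hφ P l.length h (tml_WM F a φ f hf l hq)
    | add ψ ψ' _ _ h1 h2 =>
      intro q hq
      beta_reduce
      rw [h1 q hq, h2 q hq, add_zero]
  rw [← hbh2, ← p3_one φ f Λ e G hGf, key, p3_sum, Finset.mul_sum, map_sum]
  refine Finset.sum_eq_zero fun c hcS => ?_
  rw [p3_sum, Finset.mul_sum, map_sum]
  refine Finset.sum_eq_zero fun β _ => ?_
  have h1 : Fun3 φ θ f Λ e G T fun q => T ((Jac φ θ).det * p3 φ Λ e G (C p) (tml f [] q)) :=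
    Fun3.basic (C p) [] (by rw [totalDegree_C]; exact Nat.zero_le _)
  exact hvan _ (hQ2 (P c β) _ h1) _ (hTh2 β a _ (qc_WM φ f F a hf c (hc c hcS)))

end Pair3

end Pool.Agent.Y230.RS
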