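import Pool.Agent.Y230.RS.Strata4

set_option autoImplicit false
set_option linter.unusedSectionVars false
set_option linter.unusedVariables false

/-! # Products of linear factors, and the zeta function -/

namespace Pool.Agent.Y230.RS

open MvPowerSeries Pool.Agent.W574.SM

/-- A product of linear factors divides `b` if for every `s0` enough powers of `X - s0` do. -/
theorem prod_dvd {κ : Type} (T : Finset κ) (a n : κ → ℕ) (ha : ∀ t ∈ T, a t ≠ 0)
    (b : Polynomial ℂ)
    (h : ∀ (s0 : ℂ) (T0 : Finset κ), T0 ⊆ T → (∀ t ∈ T0, (n t : ℂ) + a t * s0 = 0) →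
      (Polynomial.X - Polynomial.C s0) ^ T0.card ∣ b) :
    (∏ t ∈ T, (Polynomial.C (n t : ℂ) + Polynomial.C (a t : ℂ) * Polynomial.X)) ∣ b := by
  classical
  by_cases hb0 : b = 0
  · rw [hb0]; exact dvd_zero _
  set r : κ → ℂ := fun t => -(n t : ℂ) / a t with hr
  have h1 : ∏ t ∈ T, (Polynomial.C (n t : ℂ) + Polynomial.C (a t : ℂ) * Polynomial.X)
      = Polynomial.C (∏ t ∈ T, (a t : ℂ)) * ((T.val.map r).map
        fun c => (Polynomial.X - Polynomial.C c : Polynomial ℂ)).prod := by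
    rw [Multiset.map_map]
    change _ = _ * ∏ t ∈ T, (Polynomial.X - Polynomial.C (r t))
    rw [map_prod, ← Finset.prod_mul_distrib]
    refine Finset.prod_congr rfl fun t ht => ?_
    have hat : (a t : ℂ) ≠ 0 := Nat.cast_ne_zero.2 (ha t ht)
    have h2 : (n t : ℂ) = -(a t * r t) := by
      rw [hr]; field_simp
    rw [h2, map_neg, map_mul]
    ring
  have hu : IsUnit (Polynomial.C (∏ t ∈ T, (a t : ℂ)) : Polynomial ℂ) := by
    rw [Polynomial.isUnit_C, isUnit_iff_ne_zero]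
    exact Finset.prod_ne_zero_iff.2 fun t ht => Nat.cast_ne_zero.2 (ha t ht)
  rw [h1, hu.mul_left_dvd, Multiset.prod_X_sub_C_dvd_iff_le_roots hb0, Multiset.le_iff_count]
  intro c
  rw [Polynomial.count_roots, Polynomial.le_rootMultiplicity_iff hb0]
  have h3 := h c (T.filter fun t => r t = c) (Finset.filter_subset _ _) (by
    intro t ht
    obtain ⟨htT, htc⟩ := Finset.mem_filter.1 ht
    have hat : (a t : ℂ) ≠ 0 := Nat.cast_ne_zero.2 (ha t htT)
    rw [← htc, hr]
    field_simp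
    ring)
  rw [Multiset.count_map]
  have h4 : (Multiset.filter (fun a => c = r a) T.val).card = (T.filter fun t => r t = c).card := by
    rw [← Finset.filter_val, Finset.card_val]
    congr 1
    ext t
    simp [eq_comm]
  rw [h4]
  exact h3

section Fin

variable {σ ι : Type} [Fintype σ] [DecidableEq σ] [Fintype ι]

/-- **The product over the divisors through a point.** -/
theorem strata_prod (f : ι → MvPolynomial σ ℂ) (b : Polynomial ℂ) (hb : IsFunctionalEq f b)
    (ξ : σ → MvPowerSeries σ ℂ) (a k l : σ → ℕ)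
    (hJ : ∃ U : MvPowerSeries σ ℂ, constantCoeff U ≠ 0 ∧
      (Matrix.of fun t i => pderiv ℂ t (ξ i)).det = (∏ t, X t ^ k t) * U)
    (j0 : ι) (hf : ∀ j, (∏ t, X t ^ a t) ∣ MvPolynomial.aeval ξ (f j))
    (hj0 : ∃ U : MvPowerSeries σ ℂ, constantCoeff U ≠ 0 ∧
      MvPolynomial.aeval ξ (f j0) = (∏ t, X t ^ a t) * U)
    (p : MvPolynomial σ ℂ) (hp : ∃ U : MvPowerSeries σ ℂ, constantCoeff U ≠ 0 ∧
      MvPolynomial.aeval ξ p = (∏ t, X t ^ l t) * U)
    (m : σ → ℕ) (hm : ∀ t, m t ≠ 0) (y : σ → MvPowerSeries σ ℂ) (hy : ∀ t, IsPure t (m t) (y t))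
    (hcw : ∀ t, ∃ c : ι → MvPolynomial σ ℂ, ∑ j, MvPolynomial.aeval ξ (c j) *
      MvPolynomial.aeval ξ (f j) = MvPolynomial.aeval ξ (f j0) * y t) :
    (∏ t ∈ Finset.univ.filter (fun t => l t < a t),
      (Polynomial.C ((k t + 1 + l t : ℕ) : ℂ) + Polynomial.C (a t : ℂ) * Polynomial.X)) ∣ b := by
  classical
  let lo : LinearOrder σ := LinearOrder.lift' (Fintype.equivFin σ) (Equiv.injective _)
  have hdet : ∀ {R : Type} [CommRing R] (M : Matrix σ σ R),
      @Matrix.det σ (fun a b => lo.toDecidableEq a b) _ R _ M = M.det := by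
    intro R _ M
    congr
  obtain ⟨U0, hU0, hJ⟩ := hJ
  obtain ⟨U1, hU1, hj0⟩ := hj0
  obtain ⟨U2, hU2, hp⟩ := hp
  choose c hc using hcw
  refine prod_dvd _ a (fun t => k t + 1 + l t) (fun t ht => ?_) b fun s0 T0 hT0 hs => ?_
  · have := (Finset.mem_filter.1 ht).2
    omega
  · refine strata4 f b hb ξ a k l U0 U1 U2 hU0 hU1 hU2 ?_ j0 hf hj0 p hp m hm y hy c hc s0 T0
      fun t ht => ⟨?_, (Finset.mem_filter.1 (hT0 ht)).2⟩
    · rw [← hJ]; exact hdet _
    · have := hs t ht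
      push_cast at this
      linear_combination this

/-- If the map to the blow-up is unramified then there are pure functions. -/
theorem pure_of_unramified (f : ι → MvPolynomial σ ℂ) (ξ : σ → MvPowerSeries σ ℂ) (j0 : ι)
    (w : σ → MvPowerSeries σ ℂ) (hw0 : ∀ t, constantCoeff (w t) = 0)
    (hwdet : (Matrix.of fun s t => constantCoeff (pderiv ℂ s (w t))).det ≠ 0)
    (hcw : ∀ t, ∃ c : ι → MvPolynomial σ ℂ, ∑ j, MvPolynomial.aeval ξ (c j) *
      MvPolynomial.aeval ξ (f j) = MvPolynomial.aeval ξ (f j0) * w t) :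
    ∃ y : σ → MvPowerSeries σ ℂ, (∀ t, IsPure t 1 (y t)) ∧
      ∀ t, ∃ c : ι → MvPolynomial σ ℂ, ∑ j, MvPolynomial.aeval ξ (c j) *
        MvPolynomial.aeval ξ (f j) = MvPolynomial.aeval ξ (f j0) * y t := by
  set W : Matrix σ σ ℂ := Matrix.of fun s t => constantCoeff (pderiv ℂ s (w t)) with hW
  have hWW : W * W⁻¹ = 1 := Matrix.mul_nonsing_inv _ (isUnit_iff_ne_zero.2 hwdet)
  have hcw' : ∀ s t, coeff (Finsupp.single s 1) (w t) = W s t := by
    intro s t
    rw [hW, Matrix.of_apply, ← coeff_zero_eq_constantCoeff_apply, coeff_pderiv]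
    simp
  choose c hc using hcw
  refine ⟨fun r => ∑ t, W⁻¹ t r • w t, fun r => ?_, fun r => ?_⟩
  · have h1 : ∀ s, coeff (Finsupp.single s 1) (∑ t, W⁻¹ t r • w t) = if s = r then 1 else 0 := by
      intro s
      have h2 := congrFun (congrFun hWW s) r
      rw [Matrix.mul_apply, Matrix.one_apply] at h2
      rw [← h2, map_sum]
      refine Finset.sum_congr rfl fun t _ => ?_
      rw [coeff_smul, hcw', mul_comm]
    refine ⟨by rw [h1, if_pos rfl]; exact one_ne_zero, fun μ hμ hc => ?_⟩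
    by_contra h
    have h3 : μ.degree = 0 ∨ μ.degree = 1 := by omega
    rcases h3 with h3 | h3
    · rw [Finsupp.degree_eq_zero_iff] at h3
      apply hc
      rw [h3, coeff_zero_eq_constantCoeff_apply, map_sum]
      refine Finset.sum_eq_zero fun t _ => ?_
      rw [← coeff_zero_eq_constantCoeff_apply, coeff_smul, coeff_zero_eq_constantCoeff_apply,
        hw0, mul_zero]
    · obtain ⟨s, hs⟩ : ∃ s, μ = Finsupp.single s 1 := by
        rw [Finsupp.degree_eq_sum, ] at h3
        exact (Finsupp.sum_eq_one_iff _).1 (by rw [Finsupp.sum_fintype _ _ (fun _ => rfl)]; exact h3)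
      rw [hs] at hμ hc
      rw [h1] at hc
      apply hc
      rw [if_neg]
      rintro rfl
      exact hμ rfl
  · refine ⟨fun j => ∑ t, W⁻¹ t r • c t j, ?_⟩
    simp only [map_sum, map_smul, Finset.sum_mul, smul_mul_assoc, Finset.mul_sum, mul_smul_comm]
    rw [Finset.sum_comm]
    refine Finset.sum_congr rfl fun t _ => ?_
    rw [← Finset.smul_sum, hc]

/-- A polynomial which is divisible by all the products of linear factors kills the poles. -/
theorem zeta_mul {J : Type} [Fintype J] [DecidableEq J] (a k : J → ℕ) (χ : Finset J → ℤ)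
    (b : Polynomial ℂ)
    (h : ∀ S : Finset J, χ S ≠ 0 → (∏ i ∈ S.filter (fun i => 0 < a i),
      (Polynomial.C ((k i + 1 : ℕ) : ℂ) + Polynomial.C (a i : ℂ) * Polynomial.X)) ∣ b) :
    ∃ P : Polynomial ℂ, algebraMap (Polynomial ℂ) (RatFunc ℂ) b * (∑ S : Finset J,
      (χ S : RatFunc ℂ) * ∏ i ∈ S, 1 / ((a i : RatFunc ℂ) * RatFunc.X + (k i : RatFunc ℂ) + 1))
        = algebraMap (Polynomial ℂ) (RatFunc ℂ) P := by
  have hS : ∀ S : Finset J, ∃ P : Polynomial ℂ, algebraMap (Polynomial ℂ) (RatFunc ℂ) b *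
      ((χ S : RatFunc ℂ) * ∏ i ∈ S, 1 / ((a i : RatFunc ℂ) * RatFunc.X + (k i : RatFunc ℂ) + 1))
        = algebraMap (Polynomial ℂ) (RatFunc ℂ) P := by
    intro S
    by_cases hχ : χ S = 0
    · exact ⟨0, by rw [hχ]; simp⟩
    obtain ⟨q, hq⟩ := h S hχ
    set L : J → Polynomial ℂ := fun i =>
      Polynomial.C ((k i + 1 : ℕ) : ℂ) + Polynomial.C (a i : ℂ) * Polynomial.X with hL
    have hLr : ∀ i, ((a i : RatFunc ℂ) * RatFunc.X + (k i : RatFunc ℂ) + 1)
        = algebraMap (Polynomial ℂ) (RatFunc ℂ) (L i) := by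
      intro i
      rw [hL]
      simp only [map_add, map_mul, RatFunc.algebraMap_C, RatFunc.algebraMap_X, map_natCast]
      push_cast
      ring
    have hL0 : ∀ i, L i ≠ 0 := by
      intro i h0
      have h1 := congrArg (fun p => Polynomial.coeff p 0) h0
      simp only [hL, Polynomial.coeff_add, Polynomial.coeff_C_zero, Polynomial.coeff_C_mul,
        Polynomial.coeff_X_zero, mul_zero, add_zero, Polynomial.coeff_zero] at h1
      exact absurd h1 (Nat.cast_ne_zero.2 (Nat.succ_ne_zero _))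
    have hA : ∀ i, algebraMap (Polynomial ℂ) (RatFunc ℂ) (L i) ≠ 0 := fun i =>
      (map_ne_zero_iff _ (IsFractionRing.injective (Polynomial ℂ) (RatFunc ℂ))).2 (hL0 i)
    have hprod : ∏ i ∈ S, algebraMap (Polynomial ℂ) (RatFunc ℂ) (L i)
        = algebraMap (Polynomial ℂ) (RatFunc ℂ) (∏ i ∈ S.filter (fun i => 0 < a i), L i) *
          algebraMap (Polynomial ℂ) (RatFunc ℂ)
            (Polynomial.C (∏ i ∈ S.filter (fun i => ¬ 0 < a i), ((k i + 1 : ℕ) : ℂ))) := by
      rw [← Finset.prod_filter_mul_prod_filter_not S (fun i => 0 < a i), map_prod, map_prod,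
        map_prod]
      congr 1
      refine Finset.prod_congr rfl fun i hi => ?_
      have h0 : a i = 0 := by have := (Finset.mem_filter.1 hi).2; omega
      rw [hL]
      simp only [h0, Nat.cast_zero, map_zero, zero_mul, add_zero]
    have hc0 : (∏ i ∈ S.filter (fun i => ¬ 0 < a i), ((k i + 1 : ℕ) : ℂ)) ≠ 0 :=
      Finset.prod_ne_zero_iff.2 fun i _ => Nat.cast_ne_zero.2 (Nat.succ_ne_zero _)
    refine ⟨Polynomial.C ((χ S : ℂ) * (∏ i ∈ S.filter (fun i => ¬ 0 < a i),
      ((k i + 1 : ℕ) : ℂ))⁻¹) * q, ?_⟩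
    simp only [hLr]
    rw [Finset.prod_div_distrib, Finset.prod_const_one, hprod, hq]
    have h1 : algebraMap (Polynomial ℂ) (RatFunc ℂ) (∏ i ∈ S.filter (fun i => 0 < a i), L i) ≠ 0 := by
      rw [map_prod]
      exact Finset.prod_ne_zero_iff.2 fun i _ => hA i
    have h2 : algebraMap (Polynomial ℂ) (RatFunc ℂ)
        (Polynomial.C (∏ i ∈ S.filter (fun i => ¬ 0 < a i), ((k i + 1 : ℕ) : ℂ))) ≠ 0 := by
      rw [Ne, map_eq_zero_iff _ (IsFractionRing.injective (Polynomial ℂ) (RatFunc ℂ)),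
        Polynomial.C_eq_zero]
      exact hc0
    have h3 : (χ S : RatFunc ℂ) = algebraMap (Polynomial ℂ) (RatFunc ℂ)
        (Polynomial.C (χ S : ℂ)) := by simp
    have h4 : algebraMap (Polynomial ℂ) (RatFunc ℂ)
        (Polynomial.C (∏ i ∈ S.filter (fun i => ¬ 0 < a i), ((k i + 1 : ℕ) : ℂ))) *
        algebraMap (Polynomial ℂ) (RatFunc ℂ)
        (Polynomial.C (∏ i ∈ S.filter (fun i => ¬ 0 < a i), ((k i + 1 : ℕ) : ℂ))⁻¹) = 1 := by
      rw [← map_mul, ← Polynomial.C_mul, mul_inv_cancel₀ hc0, map_one, map_one]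
    rw [map_mul, map_mul, h3, Polynomial.C_mul, map_mul, mul_one_div, ← mul_div_assoc,
      div_eq_iff (mul_ne_zero h1 h2)]
    linear_combination (-(algebraMap (Polynomial ℂ) (RatFunc ℂ)
      (∏ i ∈ S.filter (fun i => 0 < a i), L i)) * algebraMap (Polynomial ℂ) (RatFunc ℂ) q *
        algebraMap (Polynomial ℂ) (RatFunc ℂ) (Polynomial.C (χ S : ℂ))) * h4
  choose P hP using hS
  refine ⟨∑ S : Finset J, P S, ?_⟩
  rw [Finset.mul_sum, map_sum]
  exact Finset.sum_congr rfl fun S _ => hP S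

/-- Transport of a product over divisors along an injection. -/
theorem prod_dvd_of_inj {J : Type} [DecidableEq J] (a k : J → ℕ) (S : Finset J) (e : J → σ)
    (he : Set.InjOn e S) (a' k' : σ → ℕ) (hek : ∀ i ∈ S, a' (e i) = a i ∧ k' (e i) = k i)
    (b : Polynomial ℂ)
    (h : (∏ t ∈ Finset.univ.filter (fun t => 0 < a' t),
      (Polynomial.C ((k' t + 1 : ℕ) : ℂ) + Polynomial.C (a' t : ℂ) * Polynomial.X)) ∣ b) :
    (∏ i ∈ S.filter (fun i => 0 < a i),
      (Polynomial.C ((k i + 1 : ℕ) : ℂ) + Polynomial.C (a i : ℂ) * Polynomial.X)) ∣ b := by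
  refine dvd_trans ?_ h
  have h1 : (∏ i ∈ S.filter (fun i => 0 < a i),
      (Polynomial.C ((k i + 1 : ℕ) : ℂ) + Polynomial.C (a i : ℂ) * Polynomial.X)) =
      ∏ t ∈ (S.filter (fun i => 0 < a i)).image e,
      (Polynomial.C ((k' t + 1 : ℕ) : ℂ) + Polynomial.C (a' t : ℂ) * Polynomial.X) := by
    rw [Finset.prod_image]
    · refine Finset.prod_congr rfl fun i hi => ?_
      obtain ⟨h2, h3⟩ := hek i (Finset.mem_filter.1 hi).1
      rw [h2, h3]
    · intro x hx y hy hxy
      exact he (Finset.mem_coe.2 (Finset.mem_filter.1 hx).1)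
        (Finset.mem_coe.2 (Finset.mem_filter.1 hy).1) hxy
  rw [h1]
  apply Finset.prod_dvd_prod_of_subset
  intro t ht
  obtain ⟨i, hi, rfl⟩ := Finset.mem_image.1 ht
  obtain ⟨hiS, hi0⟩ := Finset.mem_filter.1 hi
  rw [Finset.mem_filter]
  exact ⟨Finset.mem_univ _, by rw [(hek i hiS).1]; exact hi0⟩

end Fin

end Pool.Agent.Y230.RS
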