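import Pool.Agent.Y230.RS.Heval

set_option autoImplicit false
set_option linter.unusedSectionVars false
set_option linter.unusedVariables false

/-! # Laurent series in the coordinates and in a small parameter -/

namespace Pool.Agent.Y230.RS

open HahnSeries Pool.Agent.W574.SM

section Gm

variable {σ : Type} [Fintype σ] [LinearOrder σ]

/-- the exponent of a monomial -/
noncomputable def gm : (σ →₀ ℕ) →+ Gam σ where
  toFun μ := toLex ((0 : ℤ), toLex ((μ.degree : ℤ), toLex fun k => (μ k : ℤ)))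
  map_zero' := by
    simp only [Finsupp.coe_zero, Pi.zero_apply, Nat.cast_zero, map_zero]
    rfl
  map_add' μ ν := by
    simp only [Finsupp.add_apply, Nat.cast_add, map_add]
    rfl

@[simp] theorem pr1_gm (μ : σ →₀ ℕ) : pr1 (gm μ) = 0 := rfl
@[simp] theorem pr2_gm (μ : σ →₀ ℕ) : pr2 (gm μ) = μ.degree := rfl
@[simp] theorem pr3_gm (t : σ) (μ : σ →₀ ℕ) : pr3 t (gm μ) = μ t := rfl

theorem lt_of_pr1 {g h : Gam σ} (h1 : pr1 g < pr1 h) : g < h :=
  Prod.Lex.lt_iff.2 (Or.inl h1)

theorem lt_of_pr2 {g h : Gam σ} (h1 : pr1 g = pr1 h) (h2 : pr2 g < pr2 h) : g < h :=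
  Prod.Lex.lt_iff.2 (Or.inr ⟨h1, Prod.Lex.lt_iff.2 (Or.inl h2)⟩)

theorem gm_injective : Function.Injective (gm : (σ →₀ ℕ) →+ Gam σ) := by
  intro μ ν h
  ext t
  have := congrArg (pr3 t) h
  simpa using this

theorem gm_nonneg (μ : σ →₀ ℕ) : 0 ≤ gm μ := by
  rcases Nat.eq_zero_or_pos μ.degree with h' | h'
  · have : μ = 0 := by simpa [Finsupp.degree_eq_zero_iff] using h'
    rw [this, map_zero]
  · apply le_of_pr2
    · rw [map_zero, pr1_gm]
    · rw [map_zero, pr2_gm]; exact_mod_cast h'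

theorem gm_monotone : Monotone (gm : (σ →₀ ℕ) →+ Gam σ) := by
  intro μ ν h
  have : ν = μ + (ν - μ) := (add_tsub_cancel_of_le h).symm
  rw [this, map_add]
  exact le_add_of_nonneg_right (gm_nonneg _)

theorem chi_gm (t : σ) (μ : σ →₀ ℕ) : chi t (gm μ) = μ t := by
  rw [chi, AddMonoidHom.comp_apply, pr3_gm]
  simp

/-- the embedding of the power series -/
noncomputable abbrev ep : MvPowerSeries σ ℂ →ₐ[ℂ] HahnSeries (Gam σ) ℂ :=
  emb gm gm_injective gm_monotone

/-- the exponent of the small parameter -/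
def ee : Gam σ := toLex ((1 : ℤ), 0)

@[simp] theorem pr1_ee : pr1 (ee : Gam σ) = 1 := rfl
@[simp] theorem pr3_ee (t : σ) : pr3 t (ee : Gam σ) = 0 := rfl
@[simp] theorem pr2_ee : pr2 (ee : Gam σ) = 0 := rfl

/-- the small parameter -/
noncomputable def eps : HahnSeries (Gam σ) ℂ := single ee 1

theorem eul_eps (t : σ) : eul (chi t) (eps : HahnSeries (Gam σ) ℂ) = 0 := by
  ext g
  rw [coeff_eul, eps, coeff_single, coeff_zero]
  split_ifs with h
  · rw [h, chi, AddMonoidHom.comp_apply, pr3_ee, map_zero, zero_mul]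
  · rw [mul_zero]

theorem eul_C (χ : Gam σ →+ ℂ) (c : ℂ) : eul χ (C c : HahnSeries (Gam σ) ℂ) = 0 := by
  have : (C c : HahnSeries (Gam σ) ℂ) = algebraMap ℂ _ c := by
    rw [HahnSeries.algebraMap_apply]; rfl
  rw [this, Derivation.map_algebraMap]

theorem ep_X (t : σ) : ep (MvPowerSeries.X t : MvPowerSeries σ ℂ)
    = single (gm (Finsupp.single t 1)) 1 := by
  classical
  ext g
  rw [coeff_single]
  split_ifs with h
  · subst h
    rw [coeff_emb, MvPowerSeries.coeff_X, if_pos rfl]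
  · by_contra h2
    obtain ⟨μ, h3, h4⟩ := coeff_emb_ne _ _ _ _ g h2
    rw [MvPowerSeries.coeff_X] at h4
    split_ifs at h4 with h5
    · subst h5; exact h h3.symm
    · exact h4 rfl

/-- monomials in the coordinates -/
noncomputable def mono (n : σ → ℤ) : HahnSeries (Gam σ) ℂ :=
  single (∑ t, n t • gm (Finsupp.single t 1)) 1

theorem mono_mul (n m : σ → ℤ) : mono n * mono m = mono (n + m) := by
  have h : ∑ t, (n + m) t • gm (Finsupp.single t 1)
      = ∑ t, n t • gm (Finsupp.single t 1) + ∑ t, m t • gm (Finsupp.single t 1) := by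
    rw [← Finset.sum_add_distrib]
    refine Finset.sum_congr rfl fun t _ => ?_
    rw [Pi.add_apply, add_zsmul]
  rw [mono, mono, mono, single_mul_single, one_mul, h]

theorem mono_zero : (mono 0 : HahnSeries (Gam σ) ℂ) = 1 := by
  rw [mono]
  simp only [Pi.zero_apply, zero_zsmul, Finset.sum_const_zero]
  rfl

theorem mono_ne (n : σ → ℤ) : mono n ≠ 0 := by
  intro h
  have h1 := mono_mul n (-n)
  rw [h, zero_mul, add_neg_cancel, mono_zero] at h1
  exact zero_ne_one h1

theorem mono_inv (n : σ → ℤ) : (mono n)⁻¹ = mono (-n) := by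
  symm
  rw [← mul_eq_one_iff_eq_inv₀ (mono_ne n), mono_mul, neg_add_cancel, mono_zero]

theorem mono_order (n : σ → ℤ) : (mono n).order = ∑ t, n t • gm (Finsupp.single t 1) :=
  order_single one_ne_zero

theorem mono_single (t : σ) : mono (Pi.single t 1) = ep (MvPowerSeries.X t) := by
  rw [ep_X, mono, Finset.sum_eq_single t]
  · rw [Pi.single_eq_same, one_zsmul]
  · intro s _ hs
    rw [Pi.single_eq_of_ne hs, zero_zsmul]
  · intro h; exact absurd (Finset.mem_univ t) h

theorem ep_X_pow (t : σ) (n : ℕ) : ep (MvPowerSeries.X t ^ n)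
    = mono (Pi.single t (n : ℤ)) := by
  induction n with
  | zero => rw [pow_zero, map_one, Nat.cast_zero, Pi.single_zero, mono_zero]
  | succ n ih =>
    rw [pow_succ, map_mul, ih, ← mono_single, mono_mul, ← Pi.single_add, Nat.cast_succ]

theorem ep_prod (n : σ → ℕ) : ep (∏ t, MvPowerSeries.X t ^ n t) = mono (fun t => (n t : ℤ)) := by
  rw [map_prod]
  simp only [ep_X_pow]
  have h : ∀ s : Finset σ, ∏ t ∈ s, mono (Pi.single t (n t : ℤ))
      = mono (∑ t ∈ s, Pi.single t (n t : ℤ)) := by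
    intro s
    induction s using Finset.induction_on with
    | empty => rw [Finset.prod_empty, Finset.sum_empty, mono_zero]
    | insert a s ha ih => rw [Finset.prod_insert ha, ih, mono_mul, Finset.sum_insert ha]
  rw [h]
  congr 1
  funext t
  rw [Finset.sum_apply, Finset.sum_eq_single t]
  · rw [Pi.single_eq_same]
  · intro s _ hs
    rw [Pi.single_eq_of_ne (Ne.symm hs)]
  · intro h; exact absurd (Finset.mem_univ t) h

theorem pr3_mono (n : σ → ℤ) (s : σ) :
    pr3 s (∑ t, n t • gm (Finsupp.single t 1)) = n s := by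
  rw [map_sum, Finset.sum_eq_single s]
  · rw [map_zsmul, pr3_gm, Finsupp.single_eq_same]; simp
  · intro t _ ht
    rw [map_zsmul, pr3_gm, Finsupp.single_eq_of_ne (Ne.symm ht)]; simp
  · intro h; exact absurd (Finset.mem_univ s) h

theorem pr1_mono (n : σ → ℤ) :
    pr1 (∑ t, n t • gm (Finsupp.single t 1)) = 0 := by
  rw [map_sum]
  exact Finset.sum_eq_zero fun t _ => by rw [map_zsmul, pr1_gm, smul_zero]

theorem dlog_mono (t : σ) (n : σ → ℤ) :
    eul (chi t) (mono n) = (n t : HahnSeries (Gam σ) ℂ) * mono n := by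
  ext g
  have h : (n t : HahnSeries (Gam σ) ℂ) = C ((n t : ℤ) : ℂ) := by rw [map_intCast]
  rw [coeff_eul, h, C_mul_eq_smul, coeff_smul, smul_eq_mul, mono, coeff_single]
  split_ifs with h
  · rw [h, chi, AddMonoidHom.comp_apply, pr3_mono]
    rfl
  · rw [mul_zero, mul_zero]

end Gm

section Supp

variable {σ : Type} [Fintype σ] [LinearOrder σ]

/-- nonnegative exponents -/
def S0 : AddSubmonoid (Gam σ) where
  carrier := {g | 0 ≤ pr1 g ∧ ∀ j, 0 ≤ pr3 j g}
  zero_mem' := ⟨by rw [map_zero], fun j => by rw [map_zero]⟩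
  add_mem' := by
    intro g h hg hh
    exact ⟨by rw [map_add]; exact add_nonneg hg.1 hh.1,
      fun j => by rw [map_add]; exact add_nonneg (hg.2 j) (hh.2 j)⟩

/-- exponents which are nonnegative except perhaps in one direction -/
def S1 (t : σ) : AddSubmonoid (Gam σ) where
  carrier := {g | 0 ≤ pr1 g ∧ ∀ j, j ≠ t → 0 ≤ pr3 j g}
  zero_mem' := ⟨by rw [map_zero], fun j _ => by rw [map_zero]⟩
  add_mem' := by
    intro g h hg hh
    exact ⟨by rw [map_add]; exact add_nonneg hg.1 hh.1,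
      fun j hj => by rw [map_add]; exact add_nonneg (hg.2 j hj) (hh.2 j hj)⟩

/-- the number of directions in `T0` in which the exponent is smaller than `d` -/
def cnt (T0 : Finset σ) (d : σ → ℤ) (g : Gam σ) : ℤ := ((T0.filter fun j => pr3 j g < d j).card : ℤ)

theorem cnt_add (T0 : Finset σ) (d d' : σ → ℤ) (g g' : Gam σ) :
    cnt T0 (d + d') (g + g') ≤ cnt T0 d g + cnt T0 d' g' := by
  classical
  have h : (T0.filter fun j => pr3 j (g + g') < (d + d') j) ⊆
      (T0.filter fun j => pr3 j g < d j) ∪ (T0.filter fun j => pr3 j g' < d' j) := by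
    intro j hj
    rw [Finset.mem_filter, map_add, Pi.add_apply] at hj
    rw [Finset.mem_union, Finset.mem_filter, Finset.mem_filter]
    by_cases h1 : pr3 j g < d j
    · exact Or.inl ⟨hj.1, h1⟩
    · exact Or.inr ⟨hj.1, by omega⟩
  unfold cnt
  exact_mod_cast (Finset.card_le_card h).trans (Finset.card_union_le _ _)

theorem cnt_mono (T0 : Finset σ) (d d' : σ → ℤ) (h : ∀ j ∈ T0, d j ≤ d' j) (g : Gam σ) :
    cnt T0 d g ≤ cnt T0 d' g := by
  unfold cnt
  have : (T0.filter fun j => pr3 j g < d j) ⊆ (T0.filter fun j => pr3 j g < d' j) := by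
    intro j hj
    rw [Finset.mem_filter] at hj ⊢
    exact ⟨hj.1, hj.2.trans_le (h j hj.1)⟩
  exact_mod_cast Finset.card_le_card this

/-- the filtration -/
def W (T0 : Finset σ) (d : σ → ℤ) : AddSubgroup (HahnSeries (Gam σ) ℂ) where
  carrier := {u | ∀ g, u.coeff g ≠ 0 → cnt T0 d g ≤ pr1 g}
  add_mem' := by
    intro u v hu hv g hg
    rw [coeff_add] at hg
    by_cases h : u.coeff g = 0
    · exact hv g (by rwa [h, zero_add] at hg)
    · exact hu g h
  zero_mem' := by
    intro g hg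
    exact absurd rfl hg
  neg_mem' := by
    intro u hu g hg
    rw [coeff_neg, neg_ne_zero] at hg
    exact hu g hg

theorem W_mul (T0 : Finset σ) (d d' : σ → ℤ) {u v : HahnSeries (Gam σ) ℂ} (hu : u ∈ W T0 d)
    (hv : v ∈ W T0 d') : u * v ∈ W T0 (d + d') := by
  intro g hg
  rw [coeff_mul] at hg
  obtain ⟨p, hp, hp2⟩ := Finset.exists_ne_zero_of_sum_ne_zero hg
  rw [← (Finset.mem_antidiagonal.1 hp).2.2, map_add]
  refine (cnt_add T0 d d' _ _).trans (add_le_add ?_ ?_)
  · exact hu _ (left_ne_zero_of_mul hp2)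
  · exact hv _ (right_ne_zero_of_mul hp2)

theorem W_mono (T0 : Finset σ) (d d' : σ → ℤ) (h : ∀ j ∈ T0, d j ≤ d' j)
    {u : HahnSeries (Gam σ) ℂ} (hu : u ∈ W T0 d') : u ∈ W T0 d :=
  fun g hg => (cnt_mono T0 d d' h g).trans (hu g hg)

/-- the exponents in `W T0 0` -/
def SP (T0 : Finset σ) : AddSubmonoid (Gam σ) where
  carrier := {g | cnt T0 0 g ≤ pr1 g}
  zero_mem' := by
    have : cnt T0 (0 : σ → ℤ) (0 : Gam σ) = 0 := by
      unfold cnt
      rw [Finset.filter_eq_empty_iff.2]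
      · rfl
      · intro j _ h
        rw [map_zero, Pi.zero_apply] at h
        exact lt_irrefl _ h
    show cnt T0 (0 : σ → ℤ) (0 : Gam σ) ≤ pr1 0
    rw [this, map_zero]
  add_mem' := by
    intro g h hg hh
    have := cnt_add T0 0 0 g h
    rw [add_zero] at this
    show cnt T0 (0 : σ → ℤ) (g + h) ≤ pr1 (g + h)
    rw [map_add]
    exact this.trans (add_le_add hg hh)

theorem mem_W_of_supR (T0 : Finset σ) {u : HahnSeries (Gam σ) ℂ} (hu : u ∈ supR (SP T0)) :
    u ∈ W T0 0 := hu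

theorem cnt_eq_zero (T0 : Finset σ) (d : σ → ℤ) (g : Gam σ) (h : ∀ j ∈ T0, d j ≤ pr3 j g) :
    cnt T0 d g = 0 := by
  unfold cnt
  rw [Finset.filter_eq_empty_iff.2]
  · rfl
  · intro j hj h2
    exact absurd (h j hj) (not_le.2 h2)

theorem S0_le_SP (T0 : Finset σ) : (S0 : AddSubmonoid (Gam σ)) ≤ SP T0 := by
  intro g hg
  show cnt T0 0 g ≤ pr1 g
  rw [cnt_eq_zero T0 0 g fun j _ => hg.2 j]
  exact hg.1

theorem S0_le_S1 (t : σ) : (S0 : AddSubmonoid (Gam σ)) ≤ S1 t :=
  fun g hg => ⟨hg.1, fun j _ => hg.2 j⟩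

theorem S1_le_SP (T0 : Finset σ) (t : σ) (ht : t ∉ T0) : S1 t ≤ SP T0 := by
  intro g hg
  show cnt T0 0 g ≤ pr1 g
  rw [cnt_eq_zero T0 0 g fun j hj => hg.2 j (fun h => ht (h ▸ hj))]
  exact hg.1

theorem ee_add_S1 (T0 : Finset σ) (t : σ) (g : Gam σ) (hg : g ∈ S1 t) : ee + g ∈ SP T0 := by
  show cnt T0 0 (ee + g) ≤ pr1 (ee + g)
  have h1 : (T0.filter fun j => pr3 j (ee + g) < (0 : σ → ℤ) j) ⊆ {t} := by
    intro j hj
    rw [Finset.mem_filter, map_add, pr3_ee, zero_add, Pi.zero_apply] at hj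
    rw [Finset.mem_singleton]
    by_contra h
    exact absurd (hg.2 j h) (not_le.2 hj.2)
  have h2 := Finset.card_le_card h1
  rw [Finset.card_singleton] at h2
  rw [map_add, pr1_ee]
  have h3 := hg.1
  unfold cnt
  have h4 : ((T0.filter fun j => pr3 j (ee + g) < (0 : σ → ℤ) j).card : ℤ) ≤ 1 := by
    exact_mod_cast h2
  omega

theorem eps_mul_mem (T0 : Finset σ) (t : σ) {u : HahnSeries (Gam σ) ℂ} (hu : u ∈ supR (S1 t)) :
    eps * u ∈ supR (SP T0) := by
  intro g hg
  rw [eps, coeff_mul] at hg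
  obtain ⟨p, hp, hp2⟩ := Finset.exists_ne_zero_of_sum_ne_zero hg
  obtain ⟨h1, h2, h3⟩ := Finset.mem_antidiagonal.1 hp
  have h4 : p.1 = ee := by
    have := left_ne_zero_of_mul hp2
    rw [coeff_single] at this
    by_contra h
    rw [if_neg h] at this
    exact this rfl
  rw [← h3, h4]
  exact ee_add_S1 T0 t _ (hu _ (right_ne_zero_of_mul hp2))

theorem eps_mem : (eps : HahnSeries (Gam σ) ℂ) ∈ supR S0 := by
  intro g hg
  rw [eps, coeff_single] at hg
  split_ifs at hg with h
  · rw [h]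
    exact ⟨by rw [pr1_ee]; norm_num, fun j => by rw [pr3_ee]⟩
  · exact absurd rfl hg

theorem C_mem (M : AddSubmonoid (Gam σ)) (c : ℂ) : (C c : HahnSeries (Gam σ) ℂ) ∈ supR M := by
  have : (C c : HahnSeries (Gam σ) ℂ) = algebraMap ℂ _ c := by
    rw [HahnSeries.algebraMap_apply]; rfl
  rw [this]
  exact (supR M).algebraMap_mem c

theorem ep_mem (u : MvPowerSeries σ ℂ) : ep u ∈ supR S0 := by
  intro g hg
  obtain ⟨μ, rfl, _⟩ := coeff_emb_ne _ _ _ u g hg
  exact ⟨by rw [pr1_gm], fun j => by rw [pr3_gm]; positivity⟩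

theorem mono_mem_W (T0 : Finset σ) (n : σ → ℤ) : mono n ∈ W T0 n := by
  intro g hg
  rw [mono, coeff_single] at hg
  split_ifs at hg with h
  · rw [h, cnt_eq_zero, pr1_mono]
    intro j _
    rw [pr3_mono]
  · exact absurd rfl hg

/-- the filtration, as a filtration by integers -/
def FW (T0 : Finset σ) (a : σ → ℕ) : Filt (HahnSeries (Gam σ) ℂ) where
  ge n := W T0 (fun j => n * a j)
  mono := by
    intro d e hde u hu
    exact W_mono T0 _ _ (fun j _ => mul_le_mul_of_nonneg_right hde (by positivity)) hu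
  mul := by
    intro d e u v hu hv
    have := W_mul T0 _ _ hu hv
    convert this using 2
    funext j
    rw [Pi.add_apply, add_mul]
  const := by
    intro c
    have h := C_mem (SP T0) c
    have h2 : (C c : HahnSeries (Gam σ) ℂ) = algebraMap ℂ _ c := by
      rw [HahnSeries.algebraMap_apply]; rfl
    rw [h2] at h
    convert mem_W_of_supR T0 h using 2
    funext j
    rw [zero_mul]; rfl

theorem mem_FW (T0 : Finset σ) (a : σ → ℕ) (n : ℤ) (u : HahnSeries (Gam σ) ℂ) :
    u ∈ (FW T0 a).ge n ↔ u ∈ W T0 (fun j => n * a j) := Iff.rfl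

end Supp

section Coord

variable {σ : Type} [Fintype σ] [LinearOrder σ]

/-- `w` is a coordinate function of index `t` modulo the terms of degree two. -/
def IsCo (t : σ) (w : MvPowerSeries σ ℂ) : Prop :=
  MvPowerSeries.constantCoeff w = 0 ∧ MvPowerSeries.coeff (Finsupp.single t 1) w ≠ 0 ∧
    ∀ l, l ≠ t → MvPowerSeries.coeff (Finsupp.single l 1) w = 0

theorem IsCo.ne {t : σ} {w : MvPowerSeries σ ℂ} (h : IsCo t w) : w ≠ 0 := by
  rintro rfl
  exact h.2.1 (map_zero _)

theorem ep_ne (u : MvPowerSeries σ ℂ) (hu : u ≠ 0) : ep u ≠ 0 :=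
  emb_ne_zero gm gm_injective gm_monotone u hu

theorem ep_X_ne (t : σ) : ep (MvPowerSeries.X t : MvPowerSeries σ ℂ) ≠ 0 :=
  ep_ne _ (X_ne_zero' t)

/-- a coordinate function is `c X_t (1 + x)`, `x` small -/
theorem coord_split (t : σ) (w : MvPowerSeries σ ℂ) (h : IsCo t w) :
    ∃ (c : ℂ) (x : HahnSeries (Gam σ) ℂ), c ≠ 0 ∧ Pos x ∧ x ∈ supR (S1 t) ∧
      ep w = C c * ep (MvPowerSeries.X t) * (1 + x) := by
  obtain ⟨h0, h1, h2⟩ := h
  set c := MvPowerSeries.coeff (Finsupp.single t 1) w with hc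
  set x : HahnSeries (Gam σ) ℂ := C c⁻¹ * (single (-gm (Finsupp.single t 1)) 1 * ep w) - 1 with hx
  have hCc : (C c : HahnSeries (Gam σ) ℂ) * C c⁻¹ = 1 := by
    rw [← map_mul, mul_inv_cancel₀ h1, map_one]
  have hss : (single (gm (Finsupp.single t 1)) 1 : HahnSeries (Gam σ) ℂ) *
      single (-gm (Finsupp.single t 1)) 1 = 1 := by
    rw [single_mul_single, add_neg_cancel, one_mul]; rfl
  have hw : ep w = C c * ep (MvPowerSeries.X t) * (1 + x) := by
    rw [hx, add_sub_cancel, ep_X]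
    linear_combination (-(single (gm (Finsupp.single t 1)) 1 * single (-gm (Finsupp.single t 1)) 1)
      * ep w) * hCc - ep w * hss
  have key : ∀ g, x.coeff g ≠ 0 → ∃ μ : σ →₀ ℕ, gm μ = gm (Finsupp.single t 1) + g ∧
      2 ≤ μ.degree := by
    intro g hg
    rw [hx, coeff_sub, C_mul_eq_smul, coeff_smul, smul_eq_mul, coeff_one] at hg
    have hcs : (single (-gm (Finsupp.single t 1)) 1 * ep w).coeff g
        = (ep w).coeff (gm (Finsupp.single t 1) + g) := by
      have h3 := coeff_single_mul_add (r := (1 : ℂ)) (x := ep w)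
        (a := gm (Finsupp.single t 1) + g) (b := -gm (Finsupp.single t 1))
      rw [one_mul] at h3
      rw [← h3]
      congr 1
      abel
    rw [hcs] at hg
    by_cases hg0 : g = 0
    · rw [if_pos hg0, hg0, add_zero, coeff_emb, ← hc, inv_mul_cancel₀ h1, sub_self] at hg
      exact absurd rfl hg
    · rw [if_neg hg0, sub_zero] at hg
      obtain ⟨μ, h3, h4⟩ := coeff_emb_ne _ _ _ w _ (right_ne_zero_of_mul hg)
      refine ⟨μ, h3, ?_⟩
      by_contra hlt
      rcases Nat.eq_zero_or_pos μ.degree with h5 | h5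
      · have : μ = 0 := by simpa [Finsupp.degree_eq_zero_iff] using h5
        rw [this] at h4
        exact h4 h0
      · have h6 : μ.degree = 1 := by omega
        have h7 : μ ∈ Set.range fun a : σ => Finsupp.single a 1 := by
          rw [Finsupp.range_single_one]
          exact h6
        obtain ⟨l, hl'⟩ := h7
        simp only at hl'
        subst hl'
        by_cases hlt : l = t
        · subst hlt
          exact hg0 (by simpa using h3)
        · exact h4 (h2 l hlt)
  refine ⟨c, x, h1, ?_, ?_, hw⟩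
  · intro g hg
    obtain ⟨μ, h3, h4⟩ := key g hg
    have h5 := congrArg pr1 h3
    have h6 := congrArg pr2 h3
    rw [map_add, pr1_gm, pr1_gm, zero_add] at h5
    rw [map_add, pr2_gm, pr2_gm, Finsupp.degree_single] at h6
    apply lt_of_pr2
    · rw [map_zero, ← h5]
    · rw [map_zero]
      have : (2 : ℤ) ≤ μ.degree := by exact_mod_cast h4
      push_cast at h6
      omega
  · intro g hg
    obtain ⟨μ, h3, h4⟩ := key g hg
    refine ⟨?_, ?_⟩
    · have h5 := congrArg pr1 h3
      rw [map_add, pr1_gm, pr1_gm, zero_add] at h5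
      exact h5.le
    · intro j hj
      have h5 := congrArg (pr3 j) h3
      rw [map_add, pr3_gm, pr3_gm, Finsupp.single_eq_of_ne hj] at h5
      have : (0 : ℤ) ≤ μ j := by positivity
      push_cast at h5
      omega

theorem one_add_inv_mem (M : AddSubmonoid (Gam σ)) (x : HahnSeries (Gam σ) ℂ) (hx : Pos x)
    (hxM : x ∈ supR M) : (1 + x)⁻¹ ∈ supR M := by
  have h1 := heval_invS x hx
  have hx1 : (1 + x) ≠ 0 := by
    intro h
    rw [h, mul_zero] at h1
    exact zero_ne_one h1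
  rw [← (mul_eq_one_iff_eq_inv₀ hx1).1 h1]
  exact heval_mem M x hx.orderTop hxM _

theorem ep_unit_inv (u : MvPowerSeries σ ℂ) (hu : MvPowerSeries.constantCoeff u ≠ 0) :
    (ep u)⁻¹ = ep u⁻¹ := by
  have h := MvPowerSeries.mul_inv_cancel u hu
  have h2 : ep u * ep u⁻¹ = 1 := by rw [← map_mul, h, map_one]
  exact inv_eq_of_mul_eq_one_right h2

/-- a unit is `c (1 + x)`, `x` small -/
theorem unit_split (u : MvPowerSeries σ ℂ) (hu : MvPowerSeries.constantCoeff u ≠ 0) :
    ∃ (c : ℂ) (x : HahnSeries (Gam σ) ℂ), c ≠ 0 ∧ Pos x ∧ x ∈ supR S0 ∧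
      ep u = C c * (1 + x) := by
  set c := MvPowerSeries.constantCoeff u with hc
  refine ⟨c, C c⁻¹ * ep u - 1, hu, ?_, ?_, ?_⟩
  · intro g hg
    rw [coeff_sub, C_mul_eq_smul, coeff_smul, smul_eq_mul, coeff_one] at hg
    by_cases hg0 : g = 0
    · rw [if_pos hg0, hg0, ← map_zero gm, coeff_emb, MvPowerSeries.coeff_zero_eq_constantCoeff_apply,
        ← hc, inv_mul_cancel₀ hu, sub_self] at hg
      exact absurd rfl hg
    · rw [if_neg hg0, sub_zero] at hg
      obtain ⟨μ, h3, h4⟩ := coeff_emb_ne _ _ _ u _ (right_ne_zero_of_mul hg)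
      rw [← h3]
      refine lt_of_le_of_ne (gm_nonneg μ) ?_
      intro h
      exact hg0 (by rw [← h3, ← h])
  · exact sub_mem (mul_mem (C_mem S0 c⁻¹) (ep_mem u)) (one_mem _)
  · have hCc : (C c : HahnSeries (Gam σ) ℂ) * C c⁻¹ = 1 := by
      rw [← map_mul, mul_inv_cancel₀ hu, map_one]
    linear_combination (-ep u) * hCc

end Coord

end Pool.Agent.Y230.RS
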