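import Pool.Agent.Y230.RS.Engine
import Pool.Agent.W574.SM.Chain

set_option autoImplicit false
set_option linter.unusedSectionVars false
set_option linter.unusedVariables false

/-! # Derivatives and supports of power series in a Hahn series -/

namespace Pool.Agent.Y230.RS

open HahnSeries Pool.Agent.W574.SM

section Gen

variable {Γ : Type} [AddCommGroup Γ] [LinearOrder Γ] [IsOrderedAddMonoid Γ]

theorem finsum_succ {F : ℕ → ℂ} (h : (Function.support F).Finite) (h0 : F 0 = 0) :
    ∑ᶠ n, F n = ∑ᶠ n, F (n + 1) := by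
  obtain ⟨N, hN⟩ := h.bddAbove
  have h1 : Function.support F ⊆ (Finset.range (N + 2) : Set ℕ) := by
    intro n hn
    have := hN hn
    simp only [Finset.coe_range, Set.mem_Iio]
    omega
  have h2 : Function.support (fun n => F (n + 1)) ⊆ (Finset.range (N + 1) : Set ℕ) := by
    intro n hn
    have := hN (show n + 1 ∈ Function.support F from hn)
    simp only [Finset.coe_range, Set.mem_Iio]
    omega
  rw [finsum_eq_sum_of_support_subset _ h1, finsum_eq_sum_of_support_subset _ h2,
    Finset.sum_range_succ', h0, add_zero]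

theorem coeff_heval2 (x : HahnSeries Γ ℂ) (hx : 0 < x.orderTop) (f : PowerSeries ℂ) (g : Γ) :
    (PowerSeries.heval x f).coeff g = ∑ᶠ n, PowerSeries.coeff n f * (x ^ n).coeff g := by
  rw [PowerSeries.coeff_heval]
  refine finsum_congr fun n => ?_
  rw [SummableFamily.coeff_def]
  simp [hx]

theorem fin_supp (x : HahnSeries Γ ℂ) (hx : 0 < x.orderTop) (f : PowerSeries ℂ) (g : Γ) :
    (Function.support fun n => PowerSeries.coeff n f * (x ^ n).coeff g).Finite := by
  refine (SummableFamily.pow_finite_co_support hx g).subset ?_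
  intro n hn
  exact right_ne_zero_of_mul hn

/-- the derivative of a power series in a Hahn series -/
theorem eul_heval (χ : Γ →+ ℂ) (x : HahnSeries Γ ℂ) (hx : 0 < x.orderTop) (f : PowerSeries ℂ) :
    eul χ (PowerSeries.heval x f)
      = PowerSeries.heval x (PowerSeries.derivative ℂ f) * eul χ x := by
  ext g
  rw [coeff_eul, coeff_heval2 x hx]
  have h1 : (PowerSeries.heval x (PowerSeries.derivative ℂ f) * eul χ x)
      = (eul χ x • SummableFamily.powerSeriesFamily x (PowerSeries.derivative ℂ f)).hsum := by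
    rw [SummableFamily.hsum_smul, mul_comm]
    rfl
  rw [h1, SummableFamily.coeff_hsum, mul_finsum]
  have h2 : ∀ n, χ g * (PowerSeries.coeff n f * (x ^ n).coeff g)
      = PowerSeries.coeff n f * (n * (x ^ (n - 1) * eul χ x).coeff g) := by
    intro n
    have h3 : eul χ (x ^ n) = (n : HahnSeries Γ ℂ) * (x ^ (n - 1) * eul χ x) := by
      rw [Derivation.leibniz_pow]
      simp
    have h4 := congrArg (fun u => HahnSeries.coeff u g) h3
    simp only [coeff_eul] at h4
    have h5 : ((n : HahnSeries Γ ℂ) * (x ^ (n - 1) * eul χ x)).coeff g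
        = n * (x ^ (n - 1) * eul χ x).coeff g := by
      have : (n : HahnSeries Γ ℂ) = C (n : ℂ) := by rw [map_natCast]
      rw [this, C_mul_eq_smul, coeff_smul, smul_eq_mul]
    rw [h5] at h4
    rw [← h4]
    ring
  have h6 : (Function.support fun n => χ g * (PowerSeries.coeff n f * (x ^ n).coeff g)).Finite := by
    refine (fin_supp x hx f g).subset ?_
    intro n hn
    exact right_ne_zero_of_mul hn
  rw [finsum_succ h6 (by rw [h2]; simp)]
  refine finsum_congr fun n => ?_
  rw [h2, SummableFamily.smul_apply, of_symm_smul_of_eq_mul, SummableFamily.smulFamily_toFun,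
    SummableFamily.powers_of_orderTop_pos hx, PowerSeries.coeff_derivative, Nat.add_sub_cancel]
  have h7 : (eul χ x * (PowerSeries.coeff (n + 1) f * ((n : ℂ) + 1)) • x ^ n).coeff g
      = (PowerSeries.coeff (n + 1) f * ((n : ℂ) + 1)) * (x ^ n * eul χ x).coeff g := by
    rw [← C_mul_eq_smul, mul_left_comm, C_mul_eq_smul, coeff_smul, smul_eq_mul, mul_comm (x ^ n)]
  rw [h7]
  push_cast
  ring

/-- the series with exponents in a submonoid -/
noncomputable def supR (M : AddSubmonoid Γ) : Subalgebra ℂ (HahnSeries Γ ℂ) where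
  carrier := {u | ∀ g, u.coeff g ≠ 0 → g ∈ M}
  mul_mem' := by
    intro u v hu hv g hg
    rw [coeff_mul] at hg
    obtain ⟨p, hp, hp2⟩ := Finset.exists_ne_zero_of_sum_ne_zero hg
    rw [← (Finset.mem_antidiagonal.1 hp).2.2]
    exact M.add_mem (hu _ (left_ne_zero_of_mul hp2)) (hv _ (right_ne_zero_of_mul hp2))
  add_mem' := by
    intro u v hu hv g hg
    rw [coeff_add] at hg
    by_cases h : u.coeff g = 0
    · exact hv g (by rwa [h, zero_add] at hg)
    · exact hu g h
  algebraMap_mem' c := by
    intro g hg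
    rw [HahnSeries.algebraMap_apply, C_apply, coeff_single] at hg
    split_ifs at hg with h
    · rw [h]; exact M.zero_mem
    · exact absurd rfl hg

theorem mem_supR (M : AddSubmonoid Γ) (u : HahnSeries Γ ℂ) :
    u ∈ supR M ↔ ∀ g, u.coeff g ≠ 0 → g ∈ M := Iff.rfl

theorem supR_mono {M N : AddSubmonoid Γ} (h : M ≤ N) {u : HahnSeries Γ ℂ} (hu : u ∈ supR M) :
    u ∈ supR N := fun g hg => h (hu g hg)

theorem heval_mem (M : AddSubmonoid Γ) (x : HahnSeries Γ ℂ) (hx : 0 < x.orderTop)
    (hxM : x ∈ supR M) (f : PowerSeries ℂ) : PowerSeries.heval x f ∈ supR M := by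
  intro g hg
  rw [coeff_heval2 x hx] at hg
  by_contra hgM
  apply hg
  apply finsum_eq_zero_of_forall_eq_zero
  intro n
  by_contra h
  exact hgM ((supR M).pow_mem hxM n g (right_ne_zero_of_mul h))

/-- all the exponents are positive -/
def Pos (u : HahnSeries Γ ℂ) : Prop := ∀ g, u.coeff g ≠ 0 → 0 < g

theorem Pos.orderTop {u : HahnSeries Γ ℂ} (h : Pos u) : 0 < u.orderTop := by
  by_cases hu : u = 0
  · rw [hu, orderTop_zero]; exact WithTop.coe_lt_top _
  · rw [← order_eq_orderTop_of_ne_zero hu]
    exact WithTop.coe_lt_coe.2 (h _ fun h0 => hu (coeff_order_eq_zero.1 h0))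

theorem pos_of_orderTop {u : HahnSeries Γ ℂ} (h : 0 < u.orderTop) : Pos u := by
  intro g hg
  have := orderTop_le_of_coeff_ne_zero hg
  exact WithTop.coe_lt_coe.1 (h.trans_le this)

/-- all the exponents are nonnegative -/
def NNeg (u : HahnSeries Γ ℂ) : Prop := ∀ g, u.coeff g ≠ 0 → 0 ≤ g

theorem NNeg.mul_pos {u v : HahnSeries Γ ℂ} (hu : NNeg u) (hv : Pos v) : Pos (u * v) := by
  intro g hg
  rw [coeff_mul] at hg
  obtain ⟨p, hp, hp2⟩ := Finset.exists_ne_zero_of_sum_ne_zero hg
  rw [← (Finset.mem_antidiagonal.1 hp).2.2]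
  exact add_pos_of_nonneg_of_pos (hu _ (left_ne_zero_of_mul hp2))
    (hv _ (right_ne_zero_of_mul hp2))

theorem Pos.nneg {u : HahnSeries Γ ℂ} (hu : Pos u) : NNeg u := fun g hg => (hu g hg).le

theorem heval_pos (x : HahnSeries Γ ℂ) (hx : Pos x) (f : PowerSeries ℂ)
    (hf : PowerSeries.coeff 0 f = 0) : Pos (PowerSeries.heval x f) := by
  intro g hg
  rw [coeff_heval2 x hx.orderTop] at hg
  by_contra hgM
  apply hg
  apply finsum_eq_zero_of_forall_eq_zero
  intro n
  by_contra h
  rcases n with _ | n
  · exact h (by rw [hf, zero_mul])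
  · rw [pow_succ] at h
    have h1 : NNeg (x ^ n) := by
      clear h
      induction n with
      | zero =>
        intro g hg
        rw [pow_zero, coeff_one] at hg
        split_ifs at hg with h
        · exact h.ge
        · exact absurd rfl hg
      | succ n ih =>
        rw [pow_succ]
        exact (ih.mul_pos hx).nneg
    exact hgM (h1.mul_pos hx g (right_ne_zero_of_mul h))

theorem heval_one_add (x : HahnSeries Γ ℂ) (hx : Pos x) (f : PowerSeries ℂ)
    (hf : PowerSeries.coeff 0 f = 1) : Pos (PowerSeries.heval x f - 1) := by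
  have h : PowerSeries.heval x f - 1 = PowerSeries.heval x (f - 1) := by
    rw [map_sub, map_one]
  rw [h]
  apply heval_pos x hx
  rw [map_sub, hf]
  simp

theorem order_of_one_add (u : HahnSeries Γ ℂ) (h : Pos (u - 1)) : u ≠ 0 ∧ u.order = 0 := by
  have h0 : u.coeff 0 = 1 := by
    have h1 : (u - 1).coeff 0 = 0 := by
      by_contra h2
      exact lt_irrefl _ (h 0 h2)
    rw [coeff_sub, coeff_one, if_pos rfl, sub_eq_zero] at h1
    exact h1
  have hu : u ≠ 0 := by
    rintro rfl
    rw [coeff_zero] at h0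
    exact zero_ne_one h0
  refine ⟨hu, le_antisymm (order_le_of_coeff_ne_zero (by rw [h0]; exact one_ne_zero)) ?_⟩
  by_contra hlt
  rw [not_le] at hlt
  have h2 : (u - 1).coeff u.order ≠ 0 := by
    rw [coeff_sub, coeff_one, if_neg hlt.ne, sub_zero]
    exact fun h3 => hu (coeff_order_eq_zero.1 h3)
  exact absurd (h _ h2) (not_lt.2 hlt.le)

/-- the series `log (1 + X)` -/
noncomputable def logS : PowerSeries ℂ :=
  PowerSeries.mk fun n => if n = 0 then 0 else (-1) ^ (n + 1) / (n : ℂ)

/-- the series `1 / (1 + X)` -/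
noncomputable def invS : PowerSeries ℂ := PowerSeries.mk fun n => (-1) ^ n

theorem logS_zero : PowerSeries.coeff 0 logS = 0 := by
  rw [logS, PowerSeries.coeff_mk, if_pos rfl]

theorem derivative_logS : PowerSeries.derivative ℂ logS = invS := by
  ext n
  rw [PowerSeries.coeff_derivative, logS, invS, PowerSeries.coeff_mk, PowerSeries.coeff_mk,
    if_neg (by omega)]
  have h : ((n : ℂ) + 1) ≠ 0 := Nat.cast_add_one_ne_zero n
  push_cast
  field_simp
  ring

theorem invS_mul : invS * (1 + PowerSeries.X) = 1 := by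
  ext n
  rw [mul_add, mul_one, map_add, PowerSeries.coeff_one]
  rcases n with _ | n
  · rw [PowerSeries.coeff_zero_mul_X]
    simp [invS]
  · rw [PowerSeries.coeff_succ_mul_X, invS, PowerSeries.coeff_mk, PowerSeries.coeff_mk,
      if_neg (by omega)]
    ring

theorem heval_invS (x : HahnSeries Γ ℂ) (hx : Pos x) :
    PowerSeries.heval x invS * (1 + x) = 1 := by
  have h := congrArg (PowerSeries.heval x) invS_mul
  rw [map_mul, map_add, map_one, PowerSeries.heval_X x hx.orderTop] at h
  exact h

/-- **Powers**: the exponent `e` is a constant of all the derivations which are considered. -/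
theorem exists_pow (x e : HahnSeries Γ ℂ) (hx : Pos x) (he : NNeg e) :
    ∃ P : HahnSeries Γ ℂ, P ≠ 0 ∧ P.order = 0 ∧
      (∀ χ : Γ →+ ℂ, eul χ e = 0 →
        eul χ P * P⁻¹ = e * (eul χ (1 + x) * (1 + x)⁻¹)) ∧
      ∀ M : AddSubmonoid Γ, (∀ y, (∀ N : AddSubmonoid Γ, x ∈ supR N → y ∈ supR N) → Pos y →
        e * y ∈ supR M) → P ∈ supR M := by
  set y := PowerSeries.heval x logS with hy
  have hyp : Pos y := heval_pos x hx _ logS_zero
  have hzp : Pos (e * y) := he.mul_pos hyp
  have hx1 : (1 + x) ≠ 0 := by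
    intro h
    have := heval_invS x hx
    rw [h, mul_zero] at this
    exact zero_ne_one this
  have hinv : PowerSeries.heval x invS = (1 + x)⁻¹ := by
    rw [← mul_eq_one_iff_eq_inv₀ hx1]
    exact heval_invS x hx
  set P := PowerSeries.heval (e * y) (PowerSeries.exp ℂ) with hP
  have hP1 : Pos (P - 1) := heval_one_add _ hzp _ (by rw [PowerSeries.coeff_exp]; simp)
  obtain ⟨hP0, hPo⟩ := order_of_one_add P hP1
  refine ⟨P, hP0, hPo, ?_, ?_⟩
  · intro χ hχ
    have h1 : eul χ P = P * (e * (eul χ x * (1 + x)⁻¹)) := by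
      rw [hP, eul_heval χ _ hzp.orderTop, PowerSeries.derivative_exp, Derivation.leibniz, hχ, hy,
        eul_heval χ _ hx.orderTop, derivative_logS, hinv]
      simp only [smul_eq_mul, mul_zero, add_zero]
      ring
    rw [h1, map_add, Derivation.map_one_eq_zero, zero_add]
    field_simp
  · intro M hM
    exact heval_mem M _ hzp.orderTop
      (hM y (fun N hN => heval_mem N x hx.orderTop hN _) hyp) _

end Gen

end Pool.Agent.Y230.RS
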