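import Pool.Agent.W574.SM.Tw

set_option autoImplicit false
set_option linter.unusedSectionVars false
set_option linter.unusedVariables false

/-! # Products of powers of linear forms, the exponents being constants of a differential field -/

namespace Pool.Agent.Y230.RS

open MvPolynomial Pool.Agent.W574.SM

section Lam

variable {κ L : Type} [Fintype κ] [DecidableEq κ] [Field L] [Algebra ℂ L]

/-- `e (e - 1) ⋯ (e - n + 1)` -/
noncomputable def dp (e : L) (n : ℕ) : L := ∏ i ∈ Finset.range n, (e - (i : L))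

theorem dp_zero (e : L) : dp e 0 = 1 := by simp [dp]

theorem dp_succ (e : L) (n : ℕ) : dp e (n + 1) = dp e n * (e - n) := by
  rw [dp, Finset.prod_range_succ, dp]

theorem dp_succ' (e : L) (n : ℕ) : ∃ c : L, dp e (n + 1) = e * c ∧
    c = ∏ i ∈ Finset.range n, (e - ((i + 1 : ℕ) : L)) := by
  refine ⟨_, ?_, rfl⟩
  rw [dp, Finset.prod_range_succ']
  simp only [Nat.cast_zero, sub_zero]
  rw [mul_comm]

theorem d_dp (d : Derivation ℂ L L) (e : L) (he : d e = 0) (n : ℕ) : d (dp e n) = 0 := by
  induction n with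
  | zero => rw [dp_zero, Derivation.map_one_eq_zero]
  | succ n ih =>
    have h : d ((n : L)) = 0 := by
      have : (n : L) = algebraMap ℂ L (n : ℂ) := by simp
      rw [this]; exact d.map_algebraMap _
    rw [dp_succ, Derivation.leibniz, ih, map_sub, he, h]
    simp

/-- The factor by which `∂ ^ μ` multiplies a product of the powers `G_m ^ e_m`. -/
noncomputable def wl (e : κ → L) (G : κ → L) (μ : κ →₀ ℕ) : L :=
  ∏ m, dp (e m) (μ m) * (G m)⁻¹ ^ (μ m)

theorem wl_zero (e : κ → L) (G : κ → L) : wl e G 0 = 1 := by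
  simp [wl, dp]

theorem wl_add_single (e : κ → L) (G : κ → L) (μ : κ →₀ ℕ) (m : κ) :
    wl e G (μ + Finsupp.single m 1) = wl e G μ * (e m - (μ m : L)) * (G m)⁻¹ := by
  unfold wl
  rw [← Finset.mul_prod_erase _ _ (Finset.mem_univ m),
    ← Finset.mul_prod_erase Finset.univ (fun m => dp (e m) (μ m) *
      (G m)⁻¹ ^ (μ m)) (Finset.mem_univ m)]
  have h1 : ∏ k ∈ Finset.univ.erase m, dp (e k)
      ((μ + Finsupp.single m 1 : κ →₀ ℕ) k) * (G k)⁻¹ ^ ((μ + Finsupp.single m 1 : κ →₀ ℕ) k)
      = ∏ k ∈ Finset.univ.erase m, dp (e k) (μ k) * (G k)⁻¹ ^ (μ k) := by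
    refine Finset.prod_congr rfl fun k hk => ?_
    rw [Finsupp.add_apply, Finsupp.single_eq_of_ne (Finset.ne_of_mem_erase hk), add_zero]
  rw [h1, Finsupp.add_apply, Finsupp.single_eq_same, pow_succ, dp_succ]
  ring

/-- Evaluation. -/
noncomputable def LL (e : κ → L) (G : κ → L) : MvPolynomial κ L →ₗ[L] L :=
  (basisMonomials κ L).constr L (wl e G)

theorem LL_monomial (e : κ → L) (G : κ → L) (μ : κ →₀ ℕ) (a : L) :
    LL e G (monomial μ a) = a * wl e G μ := by
  have h : monomial μ a = a • (basisMonomials κ L μ) := by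
    rw [coe_basisMonomials, smul_monomial, smul_eq_mul, mul_one]
  rw [h, map_smul, LL, Module.Basis.constr_basis, smul_eq_mul]

theorem LL_one (e : κ → L) (G : κ → L) : LL e G 1 = 1 := by
  have h1 : (1 : MvPolynomial κ L) = monomial 0 1 := rfl
  rw [h1, LL_monomial, wl_zero, one_mul]

theorem LL_euler (e : κ → L) (G : κ → L) (hG : ∀ m, G m ≠ 0) (m : κ) (P : MvPolynomial κ L) :
    LL e G (C (G m) * X m * P + X m * pderiv m P) = e m * LL e G P := by
  induction P using MvPolynomial.induction_on' with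
  | monomial μ a =>
    rw [map_add, mul_assoc, X_mul_monomial, C_mul_monomial, LL_monomial, wl_add_single,
      pderiv_monomial, LL_monomial]
    have h1 : X m * monomial (μ - Finsupp.single m 1) (a * (μ m : L)) = monomial μ (a * μ m) := by
      rcases Nat.eq_zero_or_pos (μ m) with h | h
      · rw [h]; simp
      · rw [X_mul_monomial, tsub_add_cancel_of_le]
        rw [Finsupp.single_le_iff]
        omega
    rw [h1, LL_monomial]
    have h2 := hG m
    field_simp
    ring
  | add p q hp hq =>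
    have : C (G m) * X m * (p + q) + X m * pderiv m (p + q)
        = (C (G m) * X m * p + X m * pderiv m p) + (C (G m) * X m * q + X m * pderiv m q) := by
      rw [map_add]; ring
    rw [this, map_add, hp, hq, map_add, mul_add]

theorem d_natCast (d : Derivation ℂ L L) (n : ℕ) : d (n : L) = 0 := by
  have : (n : L) = algebraMap ℂ L (n : ℂ) := by simp
  rw [this]; exact d.map_algebraMap _

theorem d_wl (e : κ → L) (G : κ → L) (hG : ∀ m, G m ≠ 0) (d : Derivation ℂ L L)
    (he : ∀ m, d (e m) = 0) (μ : κ →₀ ℕ) :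
    d (wl e G μ) = - wl e G μ * ∑ m, (μ m : L) * (d (G m) * (G m)⁻¹) := by
  induction μ using finsupp_ind with
  | h0 =>
    rw [wl_zero]
    simp
  | h1 μ k ih =>
    rw [wl_add_single, Derivation.leibniz, Derivation.leibniz, ih, map_sub, he, d_natCast]
    have h2 : d (G k)⁻¹ = - (G k)⁻¹ * (d (G k) * (G k)⁻¹) := by
      rw [Derivation.leibniz_inv, smul_eq_mul]
      have := hG k
      field_simp
    rw [h2]
    have h3 : ∑ m, (((μ + Finsupp.single k 1 : κ →₀ ℕ) m : ℕ) : L) * (d (G m) * (G m)⁻¹)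
        = ∑ m, (μ m : L) * (d (G m) * (G m)⁻¹) + d (G k) * (G k)⁻¹ := by
      simp only [Finsupp.add_apply, Nat.cast_add, add_mul, Finset.sum_add_distrib]
      congr 1
      rw [Finset.sum_eq_single k]
      · simp
      · intro b _ hb
        rw [Finsupp.single_eq_of_ne hb]; simp
      · simp
    rw [h3]
    simp only [smul_eq_mul]
    ring

theorem LL_deriv (e : κ → L) (G : κ → L) (hG : ∀ m, G m ≠ 0) (d : Derivation ℂ L L)
    (he : ∀ m, d (e m) = 0) (P : MvPolynomial κ L) :
    d (LL e G P) + (∑ m, e m * (d (G m) * (G m)⁻¹)) * LL e G P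
      = LL e G (dcoef d P + (∑ m, C (d (G m)) * X m) * P) := by
  induction P using MvPolynomial.induction_on' with
  | monomial μ a =>
    rw [LL_monomial, map_add, dcoef_monomial, LL_monomial,
      Finset.sum_mul (f := fun m => C (d (G m)) * X m), map_sum,
      Derivation.leibniz, d_wl e G hG d he]
    have h1 : ∀ m, LL e G (C (d (G m)) * X m * monomial μ a)
        = a * wl e G μ * ((e m - (μ m : L)) * (d (G m) * (G m)⁻¹)) := by
      intro m
      rw [mul_assoc, X_mul_monomial, C_mul_monomial, LL_monomial, wl_add_single]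
      ring
    simp only [h1]
    rw [← Finset.mul_sum]
    simp only [sub_mul, Finset.sum_sub_distrib, smul_eq_mul]
    ring
  | add p q hp hq =>
    rw [map_add, map_add, dcoef_add]
    have : dcoef d p + dcoef d q + (∑ m, C (d (G m)) * X m) * (p + q)
      = (dcoef d p + (∑ m, C (d (G m)) * X m) * p) + (dcoef d q + (∑ m, C (d (G m)) * X m) * q) := by
      ring
    rw [this, map_add, ← hp, ← hq]
    ring

end Lam

section PairL

variable {σ ι κ L : Type} [Fintype σ] [DecidableEq σ] [Fintype ι] [DecidableEq ι] [Fintype κ]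
  [DecidableEq κ] [Field L] [Algebra ℂ L]
  (φ : MvPolynomial σ ℂ →ₐ[ℂ] L) (lam : κ → ι → ℂ) (e : κ → L) (G : κ → L)

/-- The pairing of `A[∂_t]` with the product of the powers `G_m ^ e_m`, divided by this product. -/
noncomputable def pL (q : MvPolynomial ι (MvPolynomial σ ℂ)) : L := LL e G (SS φ lam q)

theorem pL_add (p q : MvPolynomial ι (MvPolynomial σ ℂ)) :
    pL φ lam e G (p + q) = pL φ lam e G p + pL φ lam e G q := by
  rw [pL, map_add, map_add]; rfl

theorem pL_sum {α : Type} (s : Finset α) (q : α → MvPolynomial ι (MvPolynomial σ ℂ)) :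
    pL φ lam e G (∑ i ∈ s, q i) = ∑ i ∈ s, pL φ lam e G (q i) := by
  rw [pL, map_sum, map_sum]; rfl

theorem pL_C_mul (p : MvPolynomial σ ℂ) (q : MvPolynomial ι (MvPolynomial σ ℂ)) :
    pL φ lam e G (C p * q) = φ p * pL φ lam e G q := by
  rw [pL, pL, map_mul, SS_C, C_mul', map_smul, smul_eq_mul]

theorem pL_one : pL φ lam e G 1 = 1 := by
  rw [pL, map_one, LL_one]

variable (θ : σ → Derivation ℂ L L) (f : ι → MvPolynomial σ ℂ)

theorem pL_dh (hJ : (Jac φ θ).det ≠ 0) (hGf : ∀ m, G m = ∑ j, algebraMap ℂ L (lam m j) * φ (f j))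
    (hG : ∀ m, G m ≠ 0) (i : σ) (he : ∀ m, DD φ θ i (e m) = 0)
    (q : MvPolynomial ι (MvPolynomial σ ℂ)) :
    pL φ lam e G (dh f i q) = DD φ θ i (pL φ lam e G q)
      + (∑ m, e m * (DD φ θ i (G m) * (G m)⁻¹)) * pL φ lam e G q := by
  have h1 : SS φ lam (∑ j, C (pderiv i (f j)) * X j) = ∑ m, C (DD φ θ i (G m)) * X m := by
    rw [map_sum]
    simp only [map_mul, SS_C, SS_X, ell, ← DD_phi φ θ hJ, Finset.mul_sum, hGf]
    rw [Finset.sum_comm]
    refine Finset.sum_congr rfl fun m _ => ?_
    rw [map_sum, map_sum, Finset.sum_mul]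
    refine Finset.sum_congr rfl fun j _ => ?_
    rw [Derivation.leibniz, Derivation.map_algebraMap, smul_zero, add_zero, smul_eq_mul, C_mul]
    ring
  rw [dh, pL, map_add, map_mul, h1, SS_dcoef φ lam (DD φ θ i) (pderiv i)
    (fun p => DD_phi φ θ hJ i p), ← LL_deriv e G hG (DD φ θ i) he, pL]

theorem pL_thetaTot (hGf : ∀ m, G m = ∑ j, algebraMap ℂ L (lam m j) * φ (f j))
    (hG : ∀ m, G m ≠ 0) (q : MvPolynomial ι (MvPolynomial σ ℂ)) :
    pL φ lam e G (thetaTot f q) = (∑ m, e m) * pL φ lam e G q := by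
  have h1 : SS φ lam (thetaTot f q) = ∑ m, (C (G m) * X m * SS φ lam q
      + X m * pderiv m (SS φ lam q)) := by
    rw [thetaTot, map_sum, Finset.sum_add_distrib]
    have h2 : ∀ j, SS φ lam (theta f j q) = ∑ m, (C (algebraMap ℂ L (lam m j) * φ (f j)) * X m *
        SS φ lam q + X m * (C (algebraMap ℂ L (lam m j)) * SS φ lam (pderiv j q))) := by
      intro j
      rw [theta, map_mul, map_add, map_mul, SS_X, SS_C, ell, Finset.sum_mul]
      refine Finset.sum_congr rfl fun m _ => ?_
      rw [C_mul]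
      ring
    simp only [h2]
    rw [Finset.sum_comm, ← Finset.sum_add_distrib]
    refine Finset.sum_congr rfl fun m _ => ?_
    rw [Finset.sum_add_distrib, SS_pderiv, ← Finset.mul_sum]
    congr 1
    rw [hGf, map_sum, Finset.sum_mul, Finset.sum_mul]
  rw [pL, h1, map_sum]
  simp only [LL_euler e G hG]
  rw [pL, ← Finset.sum_mul]

/-- `b(s)` is represented by an element of `A[∂_t]` -/
theorem exists_bh (hGf : ∀ m, G m = ∑ j, algebraMap ℂ L (lam m j) * φ (f j))
    (hG : ∀ m, G m ≠ 0) (b : Polynomial ℂ) :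
    ∃ bh : MvPolynomial ι (MvPolynomial σ ℂ),
      (∀ s : ι →₀ ℕ, ip (E f s) bh = C (b.eval ((∑ j, s j : ℕ) : ℂ)) * ∏ j, f j ^ s j) ∧
      pL φ lam e G bh = Polynomial.aeval (∑ m, e m) b := by
  induction b using Polynomial.induction_on' with
  | add p q hp hq =>
    obtain ⟨b1, h1, h1'⟩ := hp
    obtain ⟨b2, h2, h2'⟩ := hq
    refine ⟨b1 + b2, fun s => ?_, ?_⟩
    · rw [map_add, h1, h2, Polynomial.eval_add, C_add, add_mul]
    · rw [pL_add, h1', h2', map_add]
  | monomial n a =>
    refine ⟨C (C a) * (thetaTot f)^[n] 1, fun s => ?_, ?_⟩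
    · rw [ip_C_mul, Polynomial.eval_monomial, C_mul, mul_assoc]
      congr 1
      induction n with
      | zero =>
        have h := ip_E_monomial f 0 s (1 : MvPolynomial σ ℂ)
        have h1 : (monomial 0 1 : MvPolynomial ι (MvPolynomial σ ℂ)) = 1 := rfl
        rw [h1] at h
        simpa using h
      | succ n ih =>
        rw [Function.iterate_succ_apply', ip_thetaTot, ih, pow_succ, C_mul]
        ring
    · rw [pL_C_mul, Polynomial.aeval_monomial]
      have h0 : φ (C a) = algebraMap ℂ L a := φ.commutes a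
      rw [h0]
      congr 1
      induction n with
      | zero => simp [pL_one]
      | succ n ih =>
        rw [Function.iterate_succ_apply', pL_thetaTot φ lam e G f hGf hG, ih, pow_succ]
        ring

end PairL

end Pool.Agent.Y230.RS
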