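import Pool.Agent.Y230.RS.Engine3

set_option autoImplicit false
set_option linter.unusedSectionVars false
set_option linter.unusedVariables false

/-! # Functions whose leading term is a power of a coordinate -/

namespace Pool.Agent.Y230.RS

open HahnSeries Pool.Agent.W574.SM

variable {σ : Type} [Fintype σ] [LinearOrder σ]

/-- `w = c X_t ^ m +` terms of degree larger than `m`, `c ≠ 0`. -/
def IsPure {σ : Type} (t : σ) (m : ℕ) (w : MvPowerSeries σ ℂ) : Prop :=
  MvPowerSeries.coeff (Finsupp.single t m) w ≠ 0 ∧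
    ∀ μ : σ →₀ ℕ, μ ≠ Finsupp.single t m → MvPowerSeries.coeff μ w ≠ 0 → m < μ.degree

theorem IsPure.ne {t : σ} {m : ℕ} {w : MvPowerSeries σ ℂ} (h : IsPure t m w) : w ≠ 0 := by
  rintro rfl
  exact h.1 (map_zero _)

theorem ep_X_pow_single (t : σ) (m : ℕ) : mono (Pi.single t (m : ℤ))
    = single (gm (Finsupp.single t m)) 1 := by
  rw [mono, Finset.sum_eq_single t]
  · rw [Pi.single_eq_same]
    congr 1
    rw [natCast_zsmul, ← map_nsmul, Finsupp.smul_single, smul_eq_mul, mul_one]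
  · intro s _ hs
    rw [Pi.single_eq_of_ne hs, zero_zsmul]
  · intro h; exact absurd (Finset.mem_univ t) h

/-- such a function is `c X_t ^ m (1 + x)`, `x` small -/
theorem pure_split (t : σ) (m : ℕ) (w : MvPowerSeries σ ℂ) (h : IsPure t m w) :
    ∃ (c : ℂ) (x : HahnSeries (Gam σ) ℂ), c ≠ 0 ∧ Pos x ∧ x ∈ supR (S1 t) ∧
      ep w = C c * mono (Pi.single t (m : ℤ)) * (1 + x) := by
  obtain ⟨h1, h2⟩ := h
  set c := MvPowerSeries.coeff (Finsupp.single t m) w with hc
  set x : HahnSeries (Gam σ) ℂ := C c⁻¹ * (single (-gm (Finsupp.single t m)) 1 * ep w) - 1 with hx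
  have hCc : (C c : HahnSeries (Gam σ) ℂ) * C c⁻¹ = 1 := by
    rw [← map_mul, mul_inv_cancel₀ h1, map_one]
  have hss : (single (gm (Finsupp.single t m)) 1 : HahnSeries (Gam σ) ℂ) *
      single (-gm (Finsupp.single t m)) 1 = 1 := by
    rw [single_mul_single, add_neg_cancel, one_mul]; rfl
  have hw : ep w = C c * mono (Pi.single t (m : ℤ)) * (1 + x) := by
    rw [hx, add_sub_cancel, ep_X_pow_single]
    linear_combination (-(single (gm (Finsupp.single t m)) 1 * single (-gm (Finsupp.single t m)) 1)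
      * ep w) * hCc - ep w * hss
  have key : ∀ g, x.coeff g ≠ 0 → ∃ μ : σ →₀ ℕ, gm μ = gm (Finsupp.single t m) + g ∧
      m < μ.degree := by
    intro g hg
    rw [hx, coeff_sub, C_mul_eq_smul, coeff_smul, smul_eq_mul, coeff_one] at hg
    have hcs : (single (-gm (Finsupp.single t m)) 1 * ep w).coeff g
        = (ep w).coeff (gm (Finsupp.single t m) + g) := by
      have h3 := coeff_single_mul_add (r := (1 : ℂ)) (x := ep w)
        (a := gm (Finsupp.single t m) + g) (b := -gm (Finsupp.single t m))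
      rw [one_mul] at h3
      rw [← h3]
      congr 1
      abel
    rw [hcs] at hg
    by_cases hg0 : g = 0
    · rw [if_pos hg0, hg0, add_zero, coeff_emb, ← hc, inv_mul_cancel₀ h1, sub_self] at hg
      exact absurd rfl hg
    · rw [if_neg hg0, sub_zero] at hg
      obtain ⟨μ, h3, h4⟩ := coeff_emb_ne _ _ _ w _ (right_ne_zero_of_mul hg)
      refine ⟨μ, h3, h2 μ ?_ h4⟩
      rintro rfl
      exact hg0 (by simpa using h3)
  refine ⟨c, x, h1, ?_, ?_, hw⟩
  · intro g hg
    obtain ⟨μ, h3, h4⟩ := key g hg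
    have h5 := congrArg pr1 h3
    have h6 := congrArg pr2 h3
    rw [map_add, pr1_gm, pr1_gm, zero_add] at h5
    rw [map_add, pr2_gm, pr2_gm, Finsupp.degree_single] at h6
    apply lt_of_pr2
    · rw [map_zero, ← h5]
    · rw [map_zero]
      have : (m : ℤ) < μ.degree := by exact_mod_cast h4
      omega
  · intro g hg
    obtain ⟨μ, h3, h4⟩ := key g hg
    refine ⟨?_, ?_⟩
    · have h5 := congrArg pr1 h3
      rw [map_add, pr1_gm, pr1_gm, zero_add] at h5
      exact h5.le
    · intro j hj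
      have h5 := congrArg (pr3 j) h3
      rw [map_add, pr3_gm, pr3_gm, Finsupp.single_eq_of_ne hj] at h5
      have : (0 : ℤ) ≤ μ j := by positivity
      push_cast at h5
      omega

theorem mono_neg_mem' (t : σ) (m : ℤ) : mono (-Pi.single t m) ∈ supR (S1 t) := by
  intro g hg
  rw [mono, coeff_single] at hg
  split_ifs at hg with h
  · rw [h]
    refine ⟨by rw [pr1_mono], fun j hj => ?_⟩
    rw [pr3_mono, Pi.neg_apply, Pi.single_eq_of_ne hj, neg_zero]
  · exact absurd rfl hg

theorem pure_inv_mem (t : σ) (m : ℕ) (w : MvPowerSeries σ ℂ) (h : IsPure t m w) :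
    (ep w)⁻¹ ∈ supR (S1 t) := by
  obtain ⟨c, x, hc, hx, hxM, hw⟩ := pure_split t m w h
  rw [hw, mul_inv, mul_inv, ← map_inv₀, mono_inv]
  exact mul_mem (mul_mem (C_mem _ _) (mono_neg_mem' t _)) (one_add_inv_mem _ x hx hxM)

theorem pure_term_mem (T0 : Finset σ) (t : σ) (m : ℕ) (w : MvPowerSeries σ ℂ) (h : IsPure t m w)
    (α β : ℂ) (hα : t ∈ T0 → α = 0) (n : ℕ) :
    dp (C α + C β * eps) n * (ep w)⁻¹ ^ n ∈ W T0 0 := by
  have hin := pure_inv_mem t m w h
  have he : (C α + C β * eps : HahnSeries (Gam σ) ℂ) ∈ supR S0 :=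
    add_mem (C_mem _ _) (mul_mem (C_mem _ _) eps_mem)
  by_cases ht : t ∈ T0
  · rcases n with _ | n
    · rw [dp_zero, pow_zero, one_mul]
      exact mem_W_of_supR T0 (one_mem _)
    · obtain ⟨c, hc1, hc2⟩ := dp_succ' (C α + C β * eps : HahnSeries (Gam σ) ℂ) n
      have hc : c ∈ supR (S1 t) := by
        rw [hc2]
        refine Subalgebra.prod_mem _ fun i _ => sub_mem (supR_mono (S0_le_S1 t) he) ?_
        have : (((i + 1 : ℕ)) : HahnSeries (Gam σ) ℂ) = algebraMap ℂ _ ((i + 1 : ℕ) : ℂ) := by simp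
        rw [this]
        exact (supR _).algebraMap_mem _
      rw [hc1, hα ht, map_zero, zero_add]
      have h1 : C β * eps * c * (ep w)⁻¹ ^ (n + 1) = eps * (C β * c * (ep w)⁻¹ ^ (n + 1)) := by ring
      rw [h1]
      exact mem_W_of_supR T0 (eps_mul_mem T0 t (mul_mem (mul_mem (C_mem _ _) hc) (pow_mem hin _)))
  · apply mem_W_of_supR T0
    exact supR_mono (S1_le_SP T0 t ht) (mul_mem (supR_mono (S0_le_S1 t) (dp_mem _ _ he n))
      (pow_mem hin n))

end Pool.Agent.Y230.RS
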