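import Pool.Agent.Y230.RS.Pure

set_option autoImplicit false
set_option linter.unusedSectionVars false
set_option linter.unusedVariables false

/-! # Multiplicities of roots from points where several Rees divisors meet, main theorem -/

namespace Pool.Agent.Y230.RS

open HahnSeries Pool.Agent.W574.SM

variable {σ ι : Type} [Fintype σ] [LinearOrder σ] [Fintype ι] [DecidableEq ι]

/-- **Multiplicities from strata.** -/
theorem strata4 (f : ι → MvPolynomial σ ℂ) (b : Polynomial ℂ) (hb : IsFunctionalEq f b)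
    (ξ : σ → MvPowerSeries σ ℂ) (a k l : σ → ℕ) (U0 U1 U2 : MvPowerSeries σ ℂ)
    (hU0 : MvPowerSeries.constantCoeff U0 ≠ 0) (hU1 : MvPowerSeries.constantCoeff U1 ≠ 0)
    (hU2 : MvPowerSeries.constantCoeff U2 ≠ 0)
    (hJ : (Matrix.of fun t i => MvPowerSeries.pderiv ℂ t (ξ i)).det
      = (∏ t, MvPowerSeries.X t ^ k t) * U0)
    (j0 : ι) (hf : ∀ j, (∏ t, MvPowerSeries.X t ^ a t) ∣ MvPolynomial.aeval ξ (f j))
    (hj0 : MvPolynomial.aeval ξ (f j0) = (∏ t, MvPowerSeries.X t ^ a t) * U1)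
    (p : MvPolynomial σ ℂ) (hp : MvPolynomial.aeval ξ p = (∏ t, MvPowerSeries.X t ^ l t) * U2)
    (m : σ → ℕ) (hm : ∀ t, m t ≠ 0) (y : σ → MvPowerSeries σ ℂ) (hy : ∀ t, IsPure t (m t) (y t))
    (c : σ → ι → MvPolynomial σ ℂ) (hcw : ∀ t, ∑ j, MvPolynomial.aeval ξ (c t j) *
      MvPolynomial.aeval ξ (f j) = MvPolynomial.aeval ξ (f j0) * y t)
    (s0 : ℂ) (T0 : Finset σ)
    (hT0 : ∀ t ∈ T0, ((k t : ℂ) + 1 + l t + a t * s0 = 0) ∧ l t < a t) :
    (Polynomial.X - Polynomial.C s0) ^ T0.card ∣ b := by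
  classical
  set φ : MvPolynomial σ ℂ →ₐ[ℂ] (HahnSeries (Gam σ) ℂ) := ep.comp (MvPolynomial.aeval ξ) with hφ
  have hφa : ∀ q, φ q = ep (MvPolynomial.aeval ξ q) := fun q => rfl
  set θ : σ → Derivation ℂ (HahnSeries (Gam σ) ℂ) (HahnSeries (Gam σ) ℂ) := fun t => eul (chi t) with hθ
  have hCZ : CharZero (HahnSeries (Gam σ) ℂ) := charZero_of_injective_algebraMap (algebraMap ℂ (HahnSeries (Gam σ) ℂ)).injective
  -- the Jacobian
  have hJac : (Jac φ θ).det = mono (fun t => (k t : ℤ) + 1) * ep U0 := by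
    have h0 : (Jac φ θ).det = ep ((∏ t, MvPowerSeries.X t) *
        ((∏ t, MvPowerSeries.X t ^ k t) * U0)) := by
      rw [← hJ, ← Matrix.det_mul_column]
      have h1 : Jac φ θ = ((ep : MvPowerSeries σ ℂ →ₐ[ℂ] HahnSeries (Gam σ) ℂ) : MvPowerSeries σ ℂ →+* HahnSeries (Gam σ) ℂ).mapMatrix
          (Matrix.of fun t i => MvPowerSeries.X t * MvPowerSeries.pderiv ℂ t (ξ i)) := by
        ext1 t i
        rw [Jac, Matrix.of_apply, hφa, MvPolynomial.aeval_X]
        exact eul_emb gm gm_injective gm_monotone (chi t) t (chi_gm t) (ξ i)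
      rw [h1, ← RingHom.map_det]
      rfl
    have h2 : (∏ t : σ, (MvPowerSeries.X t : MvPowerSeries σ ℂ)) * ((∏ t, MvPowerSeries.X t ^ k t)
        * U0) = (∏ t, MvPowerSeries.X t ^ (k t + 1)) * U0 := by
      rw [← mul_assoc, ← Finset.prod_mul_distrib]
      congr 1
      refine Finset.prod_congr rfl fun t _ => ?_
      rw [pow_succ, mul_comm]
    rw [h0, h2, map_mul, ep_prod]
    congr 2
  have hUne : ∀ U : MvPowerSeries σ ℂ, MvPowerSeries.constantCoeff U ≠ 0 → ep U ≠ 0 :=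
    fun U hU => ep_ne _ (unit_ne_zero U hU)
  have hUo : ∀ U : MvPowerSeries σ ℂ, MvPowerSeries.constantCoeff U ≠ 0 →
      (ep U : (HahnSeries (Gam σ) ℂ)).order = 0 := by
    intro U hU
    have h1 := order_emb gm gm_injective gm_monotone U 0
      (by rwa [MvPowerSeries.coeff_zero_eq_constantCoeff_apply])
      (fun ν _ => by rw [map_zero]; exact gm_nonneg ν)
    rwa [map_zero] at h1
  have hJ0 : (Jac φ θ).det ≠ 0 := by
    rw [hJac]; exact mul_ne_zero (mono_ne _) (hUne U0 hU0)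
  -- the exponents
  set Se : (HahnSeries (Gam σ) ℂ) := C s0 + C 1 * eps with hSe
  set ex : σ → (HahnSeries (Gam σ) ℂ) := fun t => C (-((k t : ℂ) + 1 + l t + a t * s0) / m t) +
    C (-(a t : ℂ) / m t) * eps with hex
  have hmc : ∀ t, (m t : ℂ) ≠ 0 := fun t => Nat.cast_ne_zero.2 (hm t)
  have hexS : ∀ t, (m t : HahnSeries (Gam σ) ℂ) * ex t = -((((k t : ℤ) + 1 + (l t : ℤ) : ℤ) : (HahnSeries (Gam σ) ℂ)) + (a t : (HahnSeries (Gam σ) ℂ)) * Se) := by
    intro t
    have h1 : (((k t : ℤ) + 1 + (l t : ℤ) : ℤ) : (HahnSeries (Gam σ) ℂ)) = C ((k t : ℂ) + 1 + l t) := by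
      rw [← map_intCast (C : ℂ →+* (HahnSeries (Gam σ) ℂ))]
      push_cast
      rfl
    have h2 : (a t : (HahnSeries (Gam σ) ℂ)) = C (a t : ℂ) := by rw [map_natCast]
    have h3 : (m t : HahnSeries (Gam σ) ℂ) = C (m t : ℂ) := by rw [map_natCast]
    have h4 : (C (m t : ℂ) : HahnSeries (Gam σ) ℂ) * C (-((k t : ℂ) + 1 + l t + a t * s0) / m t)
        = C (-((k t : ℂ) + 1 + l t + a t * s0)) := by
      rw [← map_mul, mul_div_cancel₀ _ (hmc t)]
    have h5 : (C (m t : ℂ) : HahnSeries (Gam σ) ℂ) * C (-(a t : ℂ) / m t)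
        = C (-(a t : ℂ)) := by
      rw [← map_mul, mul_div_cancel₀ _ (hmc t)]
    rw [hex, hSe, h1, h2, h3]
    simp only
    rw [mul_add, h4, ← mul_assoc, h5]
    simp only [map_neg, map_add, map_mul, map_one]
    ring
  have hexd : ∀ r t, θ r (ex t) = 0 := fun r t => eul_const r _ _
  have hSed : ∀ r, θ r Se = 0 := fun r => eul_const r _ _
  -- the forms `G`
  set κ := Option σ with hκ
  set lam : κ → ι → MvPolynomial σ ℂ := fun m => m.elim (Pi.single j0 1) c with hlam
  set G : κ → (HahnSeries (Gam σ) ℂ) := fun m => ∑ j, φ (lam m j) * φ (f j) with hGdef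
  have hGnone : G none = mono (fun t => (a t : ℤ)) * ep U1 := by
    have h1 : G none = φ (f j0) := by
      rw [hGdef]
      simp only [hlam, Option.elim_none]
      rw [Finset.sum_eq_single j0]
      · rw [Pi.single_eq_same, map_one, one_mul]
      · intro j _ hj
        rw [Pi.single_eq_of_ne hj, map_zero, zero_mul]
      · intro h; exact absurd (Finset.mem_univ j0) h
    rw [h1, hφa, hj0, map_mul, ep_prod]
  have hGsome : ∀ t : σ, G (some t) = G none * ep (y t) := by
    intro t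
    have h1 : G (some t) = ep (∑ j, MvPolynomial.aeval ξ (c t j) *
        MvPolynomial.aeval ξ (f j)) := by
      rw [map_sum, hGdef]
      refine Finset.sum_congr rfl fun j _ => ?_
      rw [map_mul]
      rfl
    rw [h1, hcw, map_mul, hj0, map_mul, ep_prod, hGnone]
  have hyne : ∀ t, ep (y t) ≠ 0 := fun t => ep_ne _ (hy t).ne
  have hGn0 : G none ≠ 0 := by
    rw [hGnone]; exact mul_ne_zero (mono_ne _) (hUne U1 hU1)
  have hG : ∀ m, G m ≠ 0 := by
    intro m
    rcases m with _ | t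
    · exact hGn0
    · rw [hGsome]; exact mul_ne_zero hGn0 (hyne _)
  set eG : κ → (HahnSeries (Gam σ) ℂ) := fun m => m.elim (Se - ∑ t : σ, ex t)
    (fun t => ex t) with heG
  have heGsum : ∑ m, eG m = Se := by
    rw [Fintype.sum_option]
    simp only [heG, Option.elim_none, Option.elim_some]
    ring
  have heGd : ∀ r m, θ r (eG m) = 0 := by
    intro r m
    rcases m with _ | t
    · simp only [heG, Option.elim_none]
      rw [map_sub, map_sum, hSed, zero_sub, neg_eq_zero]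
      exact Finset.sum_eq_zero fun t _ => hexd r _
    · simp only [heG, Option.elim_some]
      exact hexd r _
  -- the powers
  choose cc x hc hx hxM hyx using fun t => pure_split t (m t) (y t) (hy t)
  choose P hP0 hPo hPd hPM using fun t => exists_pow (x t) (ex t) (hx t) (nneg_const _ _)
  obtain ⟨cU, xU, hcU, hxU, hxUM, hU1x⟩ := unit_split U1 hU1
  obtain ⟨PU, hPU0, hPUo, hPUd, hPUM⟩ := exists_pow xU Se hxU (nneg_const _ _)
  set m0 : σ → ℤ := fun t => -((k t : ℤ) + 1 + (l t : ℤ)) with hm0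
  set V : (HahnSeries (Gam σ) ℂ) := mono m0 * (PU * ∏ t, P t) with hV
  have hone : ∀ (u : (HahnSeries (Gam σ) ℂ)), Pos u → 1 + u ≠ 0 := by
    intro u hu h
    have := heval_invS u hu
    rw [h, mul_zero] at this
    exact zero_ne_one this
  -- logarithmic derivatives
  have hdl : ∀ (r : σ) (u v : (HahnSeries (Gam σ) ℂ)), u ≠ 0 → v ≠ 0 →
      θ r (u * v) * (u * v)⁻¹ = θ r u * u⁻¹ + θ r v * v⁻¹ := fun r u v hu hv =>
    dlog_mul (θ r) hu hv
  have hPd' : ∀ r t, θ r (P t) * (P t)⁻¹ = ex t * (θ r (ep (y t)) * (ep (y t))⁻¹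
      - (if r = t then (m t : HahnSeries (Gam σ) ℂ) else 0)) := by
    intro r t
    have h1 := hPd t (chi r) (eul_const r _ _)
    have h2 : θ r (ep (y t)) * (ep (y t))⁻¹ = (if r = t then (m t : HahnSeries (Gam σ) ℂ) else 0)
        + θ r (1 + x t) * (1 + x t)⁻¹ := by
      have hCc : (C (cc t) : (HahnSeries (Gam σ) ℂ)) ≠ 0 := C_ne_zero (hc t)
      rw [hyx t, hdl r _ _ (mul_ne_zero hCc (mono_ne _)) (hone _ (hx t)),
        hdl r _ _ hCc (mono_ne _)]
      have h3 := dlog_m r (Pi.single t (m t : ℤ) : σ → ℤ)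
      have h4 := dlog_C r (cc t)
      rw [hθ]
      simp only
      rw [h3, h4, zero_add]
      congr 1
      by_cases h5 : r = t
      · subst h5; rw [Pi.single_eq_same, if_pos rfl]; simp
      · rw [Pi.single_eq_of_ne h5, if_neg h5]; simp
    rw [h2, add_sub_cancel_left]
    exact h1
  have hPUd' : ∀ r, θ r PU * PU⁻¹ = Se * (θ r (ep U1) * (ep U1)⁻¹) := by
    intro r
    have h1 := hPUd (chi r) (eul_const r _ _)
    have hCc : (C cU : (HahnSeries (Gam σ) ℂ)) ≠ 0 := C_ne_zero hcU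
    have h2 : θ r (ep U1) * (ep U1)⁻¹ = θ r (1 + xU) * (1 + xU)⁻¹ := by
      rw [hU1x, hdl r _ _ hCc (hone _ hxU)]
      have h4 := dlog_C r cU
      rw [hθ]
      simp only
      rw [h4, zero_add]
    rw [h2]
    exact h1
  have hPprod : ∏ t, P t ≠ 0 := Finset.prod_ne_zero_iff.2 fun t _ => hP0 t
  have hPUP : PU * ∏ t, P t ≠ 0 := mul_ne_zero hPU0 hPprod
  have hV0 : V ≠ 0 := mul_ne_zero (mono_ne _) hPUP
  have hGl : ∀ r, θ r (G none) * (G none)⁻¹ = (a r : (HahnSeries (Gam σ) ℂ)) + θ r (ep U1) * (ep U1)⁻¹ := by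
    intro r
    rw [hGnone, hdl r _ _ (mono_ne _) (hUne U1 hU1)]
    have h3 := dlog_m r (fun t => (a t : ℤ))
    rw [hθ]
    simp only
    rw [h3]
    push_cast
    ring
  have hΩ : ∀ r, OmL θ eG G r
      = Se * (θ r (G none) * (G none)⁻¹) + ∑ t, ex t * (θ r (ep (y t)) * (ep (y t))⁻¹) := by
    intro r
    rw [OmL, Fintype.sum_option]
    simp only [heG, Option.elim_none, Option.elim_some]
    have h1 : ∀ t : σ, θ r (G (some t)) * (G (some t))⁻¹ = θ r (G none) * (G none)⁻¹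
        + θ r (ep (y t)) * (ep (y t))⁻¹ := fun t => by
      rw [hGsome, hdl r _ _ hGn0 (hyne _)]
    simp only [h1, mul_add, Finset.sum_add_distrib, ← Finset.sum_mul]
    ring
  have hVd : ∀ r, θ r V = V * (OmL θ eG G r) := by
    intro r
    apply eq_of_dlog (θ r) hV0
    rw [hΩ, hV, hdl r _ _ (mono_ne _) hPUP, hdl r _ _ hPU0 hPprod, hPUd',
      dlog_prod (θ r) _ _ fun t _ => hP0 t, hGl]
    simp only [hPd', mul_sub, Finset.sum_sub_distrib]
    have h3 := dlog_m r m0
    have h4 : θ r (mono m0) * (mono m0)⁻¹ = (m0 r : (HahnSeries (Gam σ) ℂ)) := h3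
    have h5 : ∑ t, ex t * (if r = t then (m t : (HahnSeries (Gam σ) ℂ)) else 0)
        = m r * ex r := by
      rw [Finset.sum_eq_single r]
      · rw [if_pos rfl, mul_comm]
      · intro t _ ht
        rw [if_neg (Ne.symm ht), mul_zero]
      · intro h; exact absurd (Finset.mem_univ r) h
    rw [h4, h5, hexS r, hm0]
    simp only
    rw [Int.cast_neg]
    ring
  -- the functionals
  set T : ℕ → ((HahnSeries (Gam σ) ℂ) →ₗ[ℂ] ℂ) := fun j =>
    { toFun := fun u => (u * V).coeff (j • ee)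
      map_add' := fun u v => by rw [add_mul, coeff_add]
      map_smul' := fun z u => by
        rw [← C_mul_eq_smul, mul_assoc, C_mul_eq_smul, coeff_smul, RingHom.id_apply] } with hTdef
  have hTa : ∀ j u, T j u = (u * V).coeff (j • ee) := fun j u => rfl
  have hT : ∀ (j : ℕ) (r : σ) (u : (HahnSeries (Gam σ) ℂ)),
      T j (θ r u + (OmL θ eG G r) * u) = 0 := by
    intro j r u
    have h1 : (θ r u + (OmL θ eG G r) * u) * V = θ r (u * V) := by
      rw [Derivation.leibniz, hVd, smul_eq_mul, smul_eq_mul]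
      ring
    rw [hTa, h1, hθ]
    simp only
    rw [coeff_eul, chi, AddMonoidHom.comp_apply, map_nsmul, pr3_ee, smul_zero, map_zero, zero_mul]
  -- the filtration
  set F := FW T0 a with hF
  have hφ0 : ∀ p, φ p ∈ F.ge 0 := by
    intro p
    have h1 := mem_W_of_supR T0 (supR_mono (S0_le_SP T0) (ep_mem (MvPolynomial.aeval ξ p)))
    rw [hF, mem_FW, hφa]
    convert h1 using 2
    funext j
    simp
  have hfa : ∀ j, φ (f j) ∈ F.ge 1 := by
    intro j
    obtain ⟨g, hg⟩ := hf j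
    have h1 : φ (f j) = mono (fun t => (a t : ℤ)) * ep g := by
      rw [hφa, hg, map_mul, ep_prod]
    have h2 := W_mul T0 _ _ (mono_mem_W T0 (fun t => (a t : ℤ)))
      (mem_W_of_supR T0 (supR_mono (S0_le_SP T0) (ep_mem g)))
    rw [hF, mem_FW, h1]
    convert h2 using 2
    funext j
    simp
  have hGni : (G none)⁻¹ ∈ F.ge (-1) := by
    have h2 := W_mul T0 _ _ (mono_mem_W T0 (-(fun t => (a t : ℤ))))
      (mem_W_of_supR T0 (supR_mono (S0_le_SP T0) (ep_mem U1⁻¹)))
    rw [hGnone, mul_inv, mono_inv, ep_unit_inv U1 hU1, hF, mem_FW]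
    convert h2 using 2
    funext j
    simp
  have hexT : ∀ t, t ∈ T0 → -((k t : ℂ) + 1 + l t + a t * s0) / m t = 0 := by
    intro t ht
    rw [(hT0 t ht).1, neg_zero, zero_div]
  have hterm : ∀ t (n : ℕ), dp (ex t) n * (ep (y t))⁻¹ ^ n ∈ F.ge 0 := by
    intro t n
    have h1 := pure_term_mem T0 t (m t) (y t) (hy t) _ (-(a t : ℂ) / m t) (hexT t) n
    rw [hF, mem_FW]
    convert h1 using 2
    funext j
    simp
  have hsupc : ∀ (M : AddSubmonoid (Gam σ)) (hM : S0 ≤ M) (α β : ℂ),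
      (C α + C β * eps : (HahnSeries (Gam σ) ℂ)) ∈ supR M := fun M hM α β =>
    supR_mono hM (add_mem (C_mem _ _) (mul_mem (C_mem _ _) eps_mem))
  have hSex : Se - ∑ t : σ, ex t ∈ supR (S0 : AddSubmonoid (Gam σ)) :=
    sub_mem (hsupc _ le_rfl _ _) (sum_mem fun t _ => hsupc _ le_rfl _ _)
  have hwl : ∀ μ, wl eG G μ ∈ F.ge (-1 * μ.degree) := by
    refine wl_mem F 1 eG G fun m n => ?_
    rcases m with _ | t
    · have h1 : dp (eG none) n ∈ F.ge 0 := by
        have h2 := mem_W_of_supR T0 (supR_mono (S0_le_SP T0) (dp_mem S0 _ hSex n))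
        have h3 : eG none = Se - ∑ t : σ, ex t := rfl
        rw [hF, mem_FW, h3]
        convert h2 using 2
        funext j
        simp
      exact F.mem_of_eq (F.mul h1 (Filt.pow hGni n)) (by ring)
    · have h1 : dp (eG (some t)) n * (G (some t))⁻¹ ^ n = ((G none)⁻¹ ^ n) *
          (dp (ex t) n * (ep (y t))⁻¹ ^ n) := by
        rw [hGsome, mul_inv, mul_pow]
        simp only [heG, Option.elim_some]
        ring
      rw [h1]
      exact F.mem_of_eq (F.mul (Filt.pow hGni n) (hterm _ n)) (by ring)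
  have hPW : ∀ t, P t ∈ W T0 0 := by
    intro t
    apply mem_W_of_supR T0
    apply hPM t
    intro z hz hzp
    have hz1 : z ∈ supR (S1 t) := hz _ (hxM t)
    by_cases ht : t ∈ T0
    · rw [hex]
      simp only
      rw [hexT t ht, map_zero, zero_add]
      have h1 : C (-(a t : ℂ) / m t) * eps * z = eps * (C (-(a t : ℂ) / m t) * z) := by ring
      rw [h1]
      exact eps_mul_mem T0 t (mul_mem (C_mem _ _) hz1)
    · exact supR_mono (S1_le_SP T0 t ht) (mul_mem (hsupc _ (S0_le_S1 t) _ _) hz1)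
  have hPUW : PU ∈ W T0 0 := by
    apply mem_W_of_supR T0
    apply hPUM
    intro z hz hzp
    exact supR_mono (S0_le_SP T0) (mul_mem (hsupc _ le_rfl _ _) (hz _ hxUM))
  have hPPW : ∏ t, P t ∈ W T0 0 := by
    have h1 : ∏ t, P t ∈ supR (SP T0) := Subalgebra.prod_mem _ fun t _ => hPW t
    exact h1
  have hVW : V ∈ W T0 m0 := by
    have h1 := W_mul T0 _ _ (mono_mem_W T0 m0) (W_mul T0 _ _ hPUW hPPW)
    rw [add_zero, add_zero] at h1
    exact h1
  have hJW : (Jac φ θ).det ∈ W T0 (fun t => (k t : ℤ) + 1) := by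
    have h1 := W_mul T0 _ _ (mono_mem_W T0 (fun t => (k t : ℤ) + 1))
      (mem_W_of_supR T0 (supR_mono (S0_le_SP T0) (ep_mem U0)))
    rw [add_zero] at h1
    rw [hJac]
    exact h1
  have hT1 : ∀ j : ℕ, j < T0.card → ∀ u ∈ F.ge 1,
      T j ((Jac φ θ).det * u) = 0 := by
    intro j hj u hu
    have h2 := hu
    rw [hF, mem_FW] at h2
    have h3 := W_mul T0 _ _ (W_mul T0 _ _ hJW h2) hVW
    rw [hTa]
    by_contra h4
    have h5 := h3 _ h4
    have h51 : pr1 (j • (ee : Gam σ)) = (j : ℤ) := by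
      rw [map_nsmul, pr1_ee, nsmul_eq_mul, mul_one]
    rw [h51] at h5
    have h6 : cnt T0 ((fun t => (k t : ℤ) + 1) + (fun j => 1 * (a j : ℤ)) + m0) (j • ee)
        = T0.card := by
      unfold cnt
      rw [Finset.filter_true_of_mem]
      intro t ht
      rw [map_nsmul, pr3_ee, smul_zero]
      have h7 := (hT0 t ht).2
      simp only [Pi.add_apply, hm0]
      omega
    rw [h6] at h5
    exact absurd (by exact_mod_cast h5) (not_le.2 hj)
  -- the conclusion
  have hkey : ∀ j : ℕ, j < T0.card →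
      T j ((Jac φ θ).det * (φ p * Polynomial.aeval (∑ m, eG m) b)) = 0 := by
    intro j hj
    exact engine3 φ θ f lam eG G F 1 zero_le_one hJ0 (fun s t u => eul_comm _ _ u) (T j)
      (hT j) heGd hfa hφ0 (fun m => rfl) hG hwl (hT1 j hj) b hb p
  set Y : (HahnSeries (Gam σ) ℂ) := (Jac φ θ).det * φ p * V with hY
  have hYeq : Y = ep U0 * (ep U2 * (PU * ∏ t, P t)) := by
    have h1 : φ p = mono (fun t => (l t : ℤ)) * ep U2 := by rw [hφa, hp, map_mul, ep_prod]
    have h2 : mono (fun t => (k t : ℤ) + 1) * mono (fun t => (l t : ℤ)) * mono m0 = (1 : (HahnSeries (Gam σ) ℂ)) := by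
      rw [mono_mul, mono_mul, ← mono_zero]
      congr 1
      funext t
      simp only [Pi.add_apply, hm0, Pi.zero_apply]
      ring
    rw [hY, hJac, h1, hV]
    linear_combination (ep U0 * (ep U2 * (PU * ∏ t, P t))) * h2
  have hYo : Y ≠ 0 ∧ Y.order = 0 := by
    rw [hYeq]
    refine ⟨mul_ne_zero (hUne U0 hU0) (mul_ne_zero (hUne U2 hU2) hPUP), ?_⟩
    rw [order_mul (hUne U0 hU0) (mul_ne_zero (hUne U2 hU2) hPUP), order_mul (hUne U2 hU2) hPUP,
      order_mul hPU0 hPprod, hUo U0 hU0, hUo U2 hU2, hPUo, order_prod _ _ fun t _ => hP0 t]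
    simp [hPo]
  have hY1 : ∀ g, Y.coeff g ≠ 0 → 0 ≤ pr1 g := by
    intro g hg
    have h1 := order_le_of_coeff_ne_zero hg
    rw [hYo.2] at h1
    have h2 := pr1_monotone h1
    rwa [map_zero] at h2
  have hY0 : Y.coeff 0 ≠ 0 := by
    have h1 := coeff_order_eq_zero.not.2 hYo.1
    rwa [hYo.2] at h1
  have hdvd : Polynomial.X ^ T0.card ∣ Polynomial.taylor s0 b := by
    apply taylor_vanish Y hY1 hY0
    intro j hj
    have h1 := hkey j hj
    rw [hTa, heGsum, hSe] at h1
    have h2 : (C s0 + C 1 * eps : (HahnSeries (Gam σ) ℂ)) = C s0 + eps := by rw [map_one, one_mul]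
    rw [h2, aeval_eps] at h1
    rw [← h1, hY]
    congr 1
    ring
  have h1 := map_dvd (Polynomial.taylorEquiv (-s0)) hdvd
  have h2 : (Polynomial.taylorEquiv (-s0)) (Polynomial.taylor s0 b) = b := by
    show Polynomial.taylor (-s0) (Polynomial.taylor s0 b) = b
    rw [Polynomial.taylor_taylor, neg_add_cancel, Polynomial.taylor_zero]
  rw [h2, map_pow] at h1
  have h3 : (Polynomial.taylorEquiv (-s0)) (Polynomial.X : Polynomial ℂ)
      = Polynomial.X - Polynomial.C s0 := by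
    show Polynomial.taylor (-s0) Polynomial.X = _
    rw [Polynomial.taylor_X, map_neg, sub_eq_add_neg]
  rwa [h3] at h1

end Pool.Agent.Y230.RS
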